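import Mathlib

/-!
# Moments from Gaussian tails
-/

set_option autoImplicit false

namespace Pool.Agent.T6.H6.KS

open Finset
open scoped Classical

noncomputable section

theorem mom (k : ℕ) : ∃ C : ℝ, 0 ≤ C ∧ ∀ (α : Type) (S : Finset α) (X : α → ℝ) (Λ B : ℝ),
    1 ≤ Λ → 1 ≤ B →
    (∀ t : ℝ, 16 ≤ t → ((S.filter (fun w => t ≤ |X w|)).card : ℝ) ≤
      2 * Λ * Real.exp (-(t ^ 2 / (192 * B))) * (S.card : ℝ)) →
    ∑ w ∈ S, |X w| ^ k ≤ C * Real.sqrt (B * (1 + Real.log Λ)) ^ k * (S.card : ℝ) := by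
  have hsum : Summable (fun j : ℕ => ((j : ℝ) + 1) ^ k * Real.exp (-(j : ℝ))) := by
    have h1 := Real.summable_pow_mul_exp_neg_nat_mul k (r := 1) one_pos
    have h2 := (summable_nat_add_iff 1).2 h1
    have h3 := h2.mul_left (Real.exp 1)
    refine h3.congr fun j => ?_
    push_cast
    have : Real.exp (-1 * ((j : ℝ) + 1)) = Real.exp (-(j : ℝ)) * Real.exp (-1) := by
      rw [← Real.exp_add]; congr 1; ring
    rw [this]
    have h4 : Real.exp 1 * Real.exp (-1) = 1 := by rw [← Real.exp_add]; simp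
    calc Real.exp 1 * (((j : ℝ) + 1) ^ k * (Real.exp (-(j : ℝ)) * Real.exp (-1))) =
        (Real.exp 1 * Real.exp (-1)) * (((j : ℝ) + 1) ^ k * Real.exp (-(j : ℝ))) := by ring
      _ = _ := by rw [h4, one_mul]
  set G : ℝ := ∑' j : ℕ, ((j : ℝ) + 1) ^ k * Real.exp (-(j : ℝ)) with hG
  have hG0 : 0 ≤ G := tsum_nonneg fun j => by positivity
  refine ⟨2 * G * Real.sqrt 384 ^ k, by positivity, ?_⟩
  intro α S X Λ B hΛ hB htail
  have hL : 0 ≤ Real.log Λ := Real.log_nonneg hΛ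
  have hΛ0 : 0 < Λ := by linarith
  set s : ℝ := Real.sqrt 384 * Real.sqrt (B * (1 + Real.log Λ)) with hs
  have hs2 : s ^ 2 = 384 * (B * (1 + Real.log Λ)) := by
    rw [hs, mul_pow, Real.sq_sqrt (by norm_num), Real.sq_sqrt (by positivity)]
  have hs0 : 0 ≤ s := by positivity
  have hs16 : 16 ≤ s := by
    have h1 : (1 : ℝ) ≤ B * (1 + Real.log Λ) := by nlinarith
    nlinarith
  have hsp : 0 < s := by linarith
  set J : ℕ := S.sup (fun w => ⌊|X w| / s⌋₊) with hJ
  have h1 : ∀ w ∈ S, (|X w| / s) ^ k ≤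
      ∑ j ∈ range (J + 1), (if (j : ℝ) * s ≤ |X w| then ((j : ℝ) + 1) ^ k else 0) := by
    intro w hw
    set j₀ : ℕ := ⌊|X w| / s⌋₊ with hj₀
    have hx : 0 ≤ |X w| / s := by positivity
    have h2 : |X w| / s ≤ (j₀ : ℝ) + 1 := (Nat.lt_floor_add_one _).le
    have h3 : (j₀ : ℝ) ≤ |X w| / s := Nat.floor_le hx
    have h4 : j₀ ∈ range (J + 1) := by
      rw [mem_range]
      have : j₀ ≤ J := by
        rw [hJ]
        exact Finset.le_sup (f := fun w => ⌊|X w| / s⌋₊) hw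
      omega
    have h5 : (j₀ : ℝ) * s ≤ |X w| := by
      rw [le_div_iff₀ hsp] at h3
      exact h3
    calc (|X w| / s) ^ k ≤ ((j₀ : ℝ) + 1) ^ k := pow_le_pow_left₀ hx h2 k
      _ = (if (j₀ : ℝ) * s ≤ |X w| then ((j₀ : ℝ) + 1) ^ k else 0) := by rw [if_pos h5]
      _ ≤ _ := Finset.single_le_sum (f := fun j : ℕ =>
          (if (j : ℝ) * s ≤ |X w| then ((j : ℝ) + 1) ^ k else 0))
          (fun j _ => by split_ifs <;> positivity) h4
  have h2 : ∀ j : ℕ, ((S.filter (fun w => (j : ℝ) * s ≤ |X w|)).card : ℝ) ≤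
      2 * Real.exp (-(j : ℝ)) * S.card := by
    intro j
    have hS : (0 : ℝ) ≤ S.card := Nat.cast_nonneg _
    rcases Nat.eq_zero_or_pos j with rfl | hj
    · have h3 : ((S.filter (fun w => ((0 : ℕ) : ℝ) * s ≤ |X w|)).card : ℝ) ≤ S.card := by
        exact_mod_cast Finset.card_filter_le _ _
      simp only [Nat.cast_zero, neg_zero, Real.exp_zero, mul_one] at h3 ⊢
      linarith
    · have hj1 : (1 : ℝ) ≤ j := by exact_mod_cast hj
      have h3 := htail (j * s) (by nlinarith)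
      refine h3.trans ?_
      apply mul_le_mul_of_nonneg_right _ hS
      rw [mul_assoc]
      apply mul_le_mul_of_nonneg_left _ (by norm_num)
      calc Λ * Real.exp (-((↑j * s) ^ 2 / (192 * B))) =
          Real.exp (Real.log Λ + -((↑j * s) ^ 2 / (192 * B))) := by
            rw [Real.exp_add, Real.exp_log hΛ0]
        _ ≤ Real.exp (-(j : ℝ)) := by
            apply Real.exp_le_exp.2
            have h4 : (↑j * s) ^ 2 / (192 * B) = 2 * j ^ 2 * (1 + Real.log Λ) := by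
              rw [mul_pow, hs2]
              field_simp
              ring
            rw [h4]
            have h5 : (1 : ℝ) ≤ (j : ℝ) ^ 2 := by nlinarith
            have h6 : (j : ℝ) ≤ (j : ℝ) ^ 2 := by nlinarith
            nlinarith
  have h3 : ∑ w ∈ S, (|X w| / s) ^ k ≤ 2 * G * S.card := by
    calc ∑ w ∈ S, (|X w| / s) ^ k ≤ ∑ w ∈ S,
          ∑ j ∈ range (J + 1), (if (j : ℝ) * s ≤ |X w| then ((j : ℝ) + 1) ^ k else 0) :=
          Finset.sum_le_sum h1
      _ = ∑ j ∈ range (J + 1), ∑ w ∈ S, (if (j : ℝ) * s ≤ |X w| then ((j : ℝ) + 1) ^ k else 0) :=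
          Finset.sum_comm
      _ = ∑ j ∈ range (J + 1), ((j : ℝ) + 1) ^ k *
          ((S.filter (fun w => (j : ℝ) * s ≤ |X w|)).card : ℝ) := by
          refine Finset.sum_congr rfl fun j _ => ?_
          rw [← Finset.sum_filter, Finset.sum_const, nsmul_eq_mul, mul_comm]
      _ ≤ ∑ j ∈ range (J + 1), ((j : ℝ) + 1) ^ k * (2 * Real.exp (-(j : ℝ)) * S.card) := by
          refine Finset.sum_le_sum fun j _ => ?_
          exact mul_le_mul_of_nonneg_left (h2 j) (by positivity)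
      _ = 2 * (∑ j ∈ range (J + 1), ((j : ℝ) + 1) ^ k * Real.exp (-(j : ℝ))) * S.card := by
          rw [Finset.mul_sum, Finset.sum_mul]
          refine Finset.sum_congr rfl fun j _ => ?_
          ring
      _ ≤ 2 * G * S.card := by
          have h4 : ∑ j ∈ range (J + 1), ((j : ℝ) + 1) ^ k * Real.exp (-(j : ℝ)) ≤ G :=
            hsum.sum_le_tsum _ (fun j _ => by positivity)
          have hS : (0 : ℝ) ≤ S.card := Nat.cast_nonneg _
          nlinarith
  have h4 : ∑ w ∈ S, |X w| ^ k = s ^ k * ∑ w ∈ S, (|X w| / s) ^ k := by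
    rw [Finset.mul_sum]
    refine Finset.sum_congr rfl fun w _ => ?_
    rw [div_pow]
    field_simp
  rw [h4]
  calc s ^ k * ∑ w ∈ S, (|X w| / s) ^ k ≤ s ^ k * (2 * G * S.card) :=
        mul_le_mul_of_nonneg_left h3 (by positivity)
    _ = 2 * G * Real.sqrt 384 ^ k * Real.sqrt (B * (1 + Real.log Λ)) ^ k * (S.card : ℝ) := by
        rw [hs, mul_pow]
        ring

end

end Pool.Agent.T6.H6.KS
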