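import Pool.Agent.T6.H92.TG.Core0
import Pool.Agent.T6.H92.TG.Dif
import Pool.Agent.T6.H6.KS.Mom

/-!
# The main estimate for a toggle system, for functions which do not change under the moves

Rate `√((1 + log Λ) / N)`, by moments of the balance of bumps and flat cells.
-/

set_option autoImplicit false

namespace Pool.Agent.T6.H6.KS

open Finset Filter Topology
open Pool.Agent.T6.H92.TG
open scoped Classical

noncomputable section

variable {α ι : Type} {K : ℕ → Finset α} {Fl Bu : α → Finset ι} {up dn : α → ι → α}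

/-- the differences of sums of functions which do not change under moves -/
theorem D_inv (T : Tog K Fl Bu up dn) {h : α → ℝ} (hh : Inv K Fl up h) (z : ℝ) (N k : ℕ) :
    D k (fun n => z ^ n * ∑ w ∈ K n, h w) N =
      z ^ N * ∑ w ∈ K N, h w * D k (fun i => z ^ i * rho i (Fl w).card (Bu w).card) 0 +
      D k (fun i => z ^ (N + i) * ∑ w ∈ (K (N + i)).filter (fun w => (Bu w).card < i), h w) 0 := by
  have e0 : D k (fun n => z ^ n * ∑ w ∈ K n, h w) N =
      D k (fun i => z ^ (N + i) * ∑ w ∈ K (N + i), h w) 0 := by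
    have := D_shift k (fun n => z ^ n * ∑ w ∈ K n, h w) N 0
    rw [add_zero] at this
    exact this.symm
  have e1 : ∀ w, h w * D k (fun i => z ^ i * rho i (Fl w).card (Bu w).card) 0 =
      D k (fun i => h w * (z ^ i * rho i (Fl w).card (Bu w).card)) 0 := fun w => (D_mul _ _ _ _).symm
  rw [e0, Finset.sum_congr rfl (fun w _ => e1 w), ← D_sum, ← D_mul, ← D_add]
  apply D_congr
  intro i _ _
  have h1 := count_up T hh N i (fun _ _ => 1)
  have h2 : ∑ w ∈ K (N + i), h w = ∑ w ∈ K (N + i), (if i ≤ (Bu w).card then h w * 1 else 0) +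
      ∑ w ∈ (K (N + i)).filter (fun w => (Bu w).card < i), h w := by
    rw [Finset.sum_filter, ← Finset.sum_add_distrib]
    refine Finset.sum_congr rfl fun w _ => ?_
    by_cases h : i ≤ (Bu w).card
    · rw [if_pos h, if_neg (by omega), mul_one, add_zero]
    · rw [if_neg h, if_pos (by omega), zero_add]
  rw [h2, h1, mul_add, pow_add]
  congr 1
  rw [mul_assoc, Finset.mul_sum]
  congr 1
  refine Finset.sum_congr rfl fun w _ => ?_
  ring

/-- quotients of binomial coefficients are at most powers -/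
theorem rho_le' (i f b : ℕ) {y : ℝ} (hy : (f : ℝ) ≤ y * ((b : ℝ) + 1)) (hy0 : 0 ≤ y) :
    rho i f b ≤ y ^ i := by
  unfold rho
  rw [← Finset.card_range i, ← Finset.prod_const, Finset.card_range]
  apply Finset.prod_le_prod
  · intro l _
    positivity
  · intro l _
    have h1 : ((f - l : ℕ) : ℝ) ≤ f := by
      have : f - l ≤ f := by omega
      exact_mod_cast this
    have hl : (0 : ℝ) ≤ l := Nat.cast_nonneg l
    have hb : (0 : ℝ) ≤ b := Nat.cast_nonneg b
    rw [div_le_iff₀ (by linarith)]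
    nlinarith

theorem D_rho_le (k : ℕ) {z : ℝ} (hz0 : 0 < z) (hz1 : z ≤ 1) {f b : ℕ} {y : ℝ} (hy1 : 1 ≤ y)
    (hy : (f : ℝ) ≤ y * ((b : ℝ) + 1)) : |D k (fun i => z ^ i * rho i f b) 0| ≤ 2 ^ k * y ^ k := by
  apply D_bound
  intro i _ hi
  have h1 := rho_le' i f b hy (by linarith)
  have h2 := rho_nonneg i f b
  have h3 : z ^ i ≤ 1 := pow_le_one₀ hz0.le hz1
  have h4 : y ^ i ≤ y ^ k := pow_le_pow_right₀ hy1 (by omega)
  have h5 : 0 ≤ z ^ i := by positivity
  rw [abs_of_nonneg (by positivity)]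
  calc z ^ i * rho i f b ≤ 1 * rho i f b := by gcongr
    _ ≤ y ^ k := by linarith

/-- powers are small against exponentials -/
theorem pow_exp_le (q : ℕ) {c : ℝ} (hc : 0 < c) : ∃ A : ℝ, 0 ≤ A ∧ ∀ N : ℕ,
    (N : ℝ) ^ q * Real.exp (-(c * N)) ≤ A := by
  refine ⟨(q.factorial : ℝ) / c ^ q, by positivity, fun N => ?_⟩
  have hN : (0 : ℝ) ≤ N := Nat.cast_nonneg N
  have h1 := Real.pow_div_factorial_le_exp (c * N) (by positivity) q
  have h2 : 0 < Real.exp (c * N) := Real.exp_pos _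
  have h3 : (0 : ℝ) < q.factorial := by exact_mod_cast q.factorial_pos
  rw [Real.exp_neg, ← div_eq_mul_inv, div_le_div_iff₀ h2 (by positivity)]
  rw [div_le_iff₀ h3, mul_pow] at h1
  linarith

theorem add_pow_le' (k : ℕ) {a b : ℝ} (ha : 0 ≤ a) (hb : 0 ≤ b) :
    (a + b) ^ k ≤ 2 ^ k * (a ^ k + b ^ k) := by
  rcases le_total a b with h | h
  · calc (a + b) ^ k ≤ (2 * b) ^ k := pow_le_pow_left₀ (by positivity) (by linarith) k
      _ = 2 ^ k * b ^ k := by rw [mul_pow]
      _ ≤ _ := by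
        apply mul_le_mul_of_nonneg_left _ (by positivity)
        have : 0 ≤ a ^ k := by positivity
        linarith
  · calc (a + b) ^ k ≤ (2 * a) ^ k := pow_le_pow_left₀ (by positivity) (by linarith) k
      _ = 2 ^ k * a ^ k := by rw [mul_pow]
      _ ≤ _ := by
        apply mul_le_mul_of_nonneg_left _ (by positivity)
        have : 0 ≤ b ^ k := by positivity
        linarith

/-- **the main estimate** -/
theorem core4 (hdif : StmDif) (k : ℕ) {z c₁ c₂ C₁ : ℝ} (hz0 : 0 < z) (hz1 : z ≤ 1) (hc₁ : 0 < c₁)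
    (hc₂ : 0 < c₂) (hC₁ : 0 ≤ C₁) :
    ∃ (C δ : ℝ) (N₀ : ℕ), 0 ≤ C ∧ 0 < δ ∧ ∀ N ≥ N₀, ∀ Λ : ℝ, 1 ≤ Λ → Real.log Λ ≤ δ * N →
      ∀ (α ι : Type) (K : ℕ → Finset α) (Fl Bu : α → Finset ι) (up dn : α → ι → α) (h : α → ℝ),
      Tog K Fl Bu up dn → Inv K Fl up h → (∀ n, ∀ w ∈ K n, |h w| ≤ 1) →
      (∀ w ∈ K N, (Fl w).card ≤ 8 * N ∧ (Bu w).card ≤ 8 * N) →
      (∀ n ≤ 10 * N, z ^ n * ((K n).card : ℝ) ≤ Λ * (z ^ N * ((K N).card : ℝ))) →
      (∀ i ≤ k, z ^ (N + i) * (((K (N + i)).filter (fun w => ((Bu w).card : ℝ) < c₁ * N)).card : ℝ) ≤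
        C₁ * Λ * Real.exp (-(c₂ * N)) * (z ^ N * ((K N).card : ℝ))) →
      |D k (fun n => z ^ n * ∑ w ∈ K n, h w) N| ≤
        C * (Real.sqrt ((1 + Real.log Λ) / N) ^ k * (z ^ N * ((K N).card : ℝ))) := by
  obtain ⟨Cd, hCd, hdif⟩ := hdif k
  obtain ⟨Cm, hCm, hmom⟩ := mom k
  obtain ⟨A₀, hA₀, hpe⟩ := pow_exp_le (2 * k) (c := c₂ / 2) (by positivity)
  set y₁ : ℝ := 1 + 8 / c₁ with hy₁
  have hy₁1 : 1 ≤ y₁ := by
    have : 0 ≤ 8 / c₁ := by positivity
    rw [hy₁]; linarith
  set A : ℝ := Cd + 2 ^ k * y₁ ^ k with hA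
  have hA0 : 0 ≤ A := by positivity
  set sc : ℝ := Real.sqrt c₁ with hsc
  have hsc0 : 0 < sc := Real.sqrt_pos.2 hc₁
  have hsc2 : sc ^ 2 = c₁ := Real.sq_sqrt hc₁.le
  -- constants of the three parts
  set E₁ : ℝ := 2 ^ k * 8 ^ k * C₁ * A₀ with hE₁
  set E₂ : ℝ := A * 2 ^ k * (Cm * Real.sqrt 8 ^ k / c₁ ^ k + 1 / sc ^ k) with hE₂
  set E₃ : ℝ := 2 ^ k * C₁ * A₀ with hE₃
  obtain ⟨N₁, hN₁⟩ : ∃ N₁ : ℕ, (k : ℝ) / c₁ ≤ N₁ := exists_nat_ge _
  refine ⟨E₁ + E₂ + E₃, c₂ / 2, max N₁ 1, by positivity, by positivity, ?_⟩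
  intro N hN Λ hΛ hδ α ι K Fl Bu up dn h T hinv hh hcard hcnt hfew
  have hN1 : 1 ≤ N := le_trans (le_max_right _ _) hN
  have hNN : N₁ ≤ N := le_trans (le_max_left _ _) hN
  have hNr : (1 : ℝ) ≤ N := by exact_mod_cast hN1
  have hNp : (0 : ℝ) < N := by linarith
  have hkN : (k : ℝ) ≤ c₁ * N := by
    have h1 : (N₁ : ℝ) ≤ N := by exact_mod_cast hNN
    have h2 : (k : ℝ) / c₁ ≤ N := hN₁.trans h1
    rw [div_le_iff₀ hc₁] at h2
    linarith
  have hL : 0 ≤ Real.log Λ := Real.log_nonneg hΛ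
  have hΛ0 : 0 < Λ := by linarith
  set r : ℝ := Real.sqrt ((1 + Real.log Λ) / N) with hr
  have hr2 : r ^ 2 = (1 + Real.log Λ) / N := Real.sq_sqrt (by positivity)
  have hr0 : 0 ≤ r := Real.sqrt_nonneg _
  set sN : ℝ := Real.sqrt N with hsN
  have hsN0 : 0 < sN := Real.sqrt_pos.2 hNp
  have hsN2 : sN ^ 2 = N := Real.sq_sqrt hNp.le
  have hrs : 1 / sN ≤ r := by
    rw [hr]
    apply Real.le_sqrt_of_sq_le
    rw [div_pow, hsN2, one_pow]
    gcongr
    linarith
  have hrN : 1 / (N : ℝ) ≤ r := by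
    refine le_trans ?_ hrs
    rw [div_le_div_iff₀ hNp hsN0]
    have : 1 ≤ sN := by
      rw [hsN, Real.one_le_sqrt]
      exact hNr
    nlinarith
  have hrk : 1 / (N : ℝ) ^ k ≤ r ^ k := by
    rw [← one_div_pow]
    exact pow_le_pow_left₀ (by positivity) hrN k
  set P : ℝ := z ^ N * ((K N).card : ℝ) with hP
  have hP0 : 0 ≤ P := by positivity
  have hzN : 0 < z ^ N := by positivity
  -- the exponentially small factor
  have hexp : Λ * Real.exp (-(c₂ * N)) ≤ Real.exp (-(c₂ / 2 * N)) := by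
    calc Λ * Real.exp (-(c₂ * N)) = Real.exp (Real.log Λ + -(c₂ * N)) := by
          rw [Real.exp_add, Real.exp_log hΛ0]
      _ ≤ _ := by
          apply Real.exp_le_exp.2
          linarith
  have hsmall : (N : ℝ) ^ k * (Λ * Real.exp (-(c₂ * N))) ≤ A₀ * r ^ k := by
    have h1 := hpe N
    have h2 : (N : ℝ) ^ (2 * k) = N ^ k * N ^ k := by rw [two_mul, pow_add]
    rw [h2] at h1
    have h3 : (N : ℝ) ^ k * (Λ * Real.exp (-(c₂ * N))) ≤
        (N : ℝ) ^ k * Real.exp (-(c₂ / 2 * N)) := by gcongr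
    have h4 : (N : ℝ) ^ k * Real.exp (-(c₂ / 2 * N)) ≤ A₀ * (1 / (N : ℝ) ^ k) := by
      rw [mul_one_div, le_div_iff₀ (by positivity)]
      calc (N : ℝ) ^ k * Real.exp (-(c₂ / 2 * N)) * N ^ k =
          (N : ℝ) ^ k * N ^ k * Real.exp (-(c₂ / 2 * N)) := by ring
        _ ≤ A₀ := h1
    exact h3.trans (h4.trans (mul_le_mul_of_nonneg_left hrk hA₀))
  have hfewR : ∀ i ≤ k, z ^ (N + i) * (((K (N + i)).filter
      (fun w => ((Bu w).card : ℝ) < c₁ * N)).card : ℝ) * N ^ k ≤ C₁ * A₀ * (r ^ k * P) := by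
    intro i hi
    have h1 := hfew i hi
    calc z ^ (N + i) * (((K (N + i)).filter
        (fun w => ((Bu w).card : ℝ) < c₁ * N)).card : ℝ) * N ^ k ≤
        C₁ * Λ * Real.exp (-(c₂ * N)) * P * N ^ k := by gcongr
      _ = C₁ * ((N : ℝ) ^ k * (Λ * Real.exp (-(c₂ * N)))) * P := by ring
      _ ≤ C₁ * (A₀ * r ^ k) * P := by gcongr
      _ = _ := by ring
  -- the second term
  have hsec : |D k (fun i => z ^ (N + i) * ∑ w ∈ (K (N + i)).filter
      (fun w => (Bu w).card < i), h w) 0| ≤ E₃ * (r ^ k * P) := by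
    have h1 : ∀ i, 0 ≤ i → i ≤ 0 + k → |z ^ (N + i) * ∑ w ∈ (K (N + i)).filter
        (fun w => (Bu w).card < i), h w| ≤ C₁ * A₀ * (r ^ k * P) := by
      intro i _ hi
      have hik : i ≤ k := by omega
      have h2 : |∑ w ∈ (K (N + i)).filter (fun w => (Bu w).card < i), h w| ≤
          (((K (N + i)).filter (fun w => ((Bu w).card : ℝ) < c₁ * N)).card : ℝ) := by
        refine (Finset.abs_sum_le_sum_abs _ _).trans ?_
        calc ∑ w ∈ (K (N + i)).filter (fun w => (Bu w).card < i), |h w| ≤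
            ∑ w ∈ (K (N + i)).filter (fun w => (Bu w).card < i), (1 : ℝ) :=
              Finset.sum_le_sum fun w hw => hh _ w (Finset.mem_filter.1 hw).1
          _ = (((K (N + i)).filter (fun w => (Bu w).card < i)).card : ℝ) := by simp
          _ ≤ _ := by
              have : (K (N + i)).filter (fun w => (Bu w).card < i) ⊆
                  (K (N + i)).filter (fun w => ((Bu w).card : ℝ) < c₁ * N) := by
                intro w hw
                rw [Finset.mem_filter] at hw ⊢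
                refine ⟨hw.1, ?_⟩
                have h3 : ((Bu w).card : ℝ) < i := by exact_mod_cast hw.2
                have h4 : (i : ℝ) ≤ k := by exact_mod_cast hik
                linarith
              exact_mod_cast Finset.card_le_card this
      rw [abs_mul, abs_of_pos (by positivity : 0 < z ^ (N + i))]
      have h5 := hfewR i hik
      have h6 : (1 : ℝ) ≤ (N : ℝ) ^ k := one_le_pow₀ hNr
      have h7 : 0 ≤ z ^ (N + i) * (((K (N + i)).filter
        (fun w => ((Bu w).card : ℝ) < c₁ * N)).card : ℝ) := by positivity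
      calc z ^ (N + i) * |∑ w ∈ (K (N + i)).filter (fun w => (Bu w).card < i), h w| ≤
          z ^ (N + i) * (((K (N + i)).filter (fun w => ((Bu w).card : ℝ) < c₁ * N)).card : ℝ) := by
            gcongr
        _ ≤ z ^ (N + i) * (((K (N + i)).filter
            (fun w => ((Bu w).card : ℝ) < c₁ * N)).card : ℝ) * N ^ k := by nlinarith
        _ ≤ _ := h5
    have h2 := D_bound k 0 h1
    calc _ ≤ _ := h2
      _ = _ := by rw [hE₃]; ring
  -- the tails
  have htail : ∀ t : ℝ, 16 ≤ t → (((K N).filter (fun w => t ≤ |z * (Fl w).card - (Bu w).card|)).card :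
      ℝ) ≤ 2 * Λ * Real.exp (-(t ^ 2 / (192 * ((8 * N : ℕ) : ℝ)))) * ((K N).card : ℝ) := by
    intro t ht
    exact tail T hz0 hz1 (N := N) (B := 8 * N) (by omega)
      (fun w hw => ⟨(hcard w hw).1, (hcard w hw).2, (hcard w hw).2⟩) (Λ := Λ)
      (fun n hn => hcnt n (by omega)) (t := t) ht
  have hm := hmom α (K N) (fun w => z * (Fl w).card - (Bu w).card) Λ ((8 * N : ℕ) : ℝ) hΛ
    (by push_cast; linarith) htail
  have hmr : Real.sqrt (((8 * N : ℕ) : ℝ) * (1 + Real.log Λ)) = Real.sqrt 8 * (N * r) := by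
    have h1 : ((8 * N : ℕ) : ℝ) * (1 + Real.log Λ) = (Real.sqrt 8 * (N * r)) ^ 2 := by
      rw [mul_pow, mul_pow, hr2, Real.sq_sqrt (by norm_num)]
      push_cast
      field_simp
    rw [h1, Real.sqrt_sq (by positivity)]
  rw [hmr] at hm
  -- the words
  have hw1 : ∀ w ∈ K N, |h w * D k (fun i => z ^ i * rho i (Fl w).card (Bu w).card) 0| ≤
      (if ((Bu w).card : ℝ) < c₁ * N then 2 ^ k * (8 * (N : ℝ)) ^ k else 0) +
      A * 2 ^ k * (|z * (Fl w).card - (Bu w).card| ^ k / (c₁ * N) ^ k + 1 / (sc * sN) ^ k) := by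
    intro w hw
    obtain ⟨g1, g2⟩ := hcard w hw
    have g1r : ((Fl w).card : ℝ) ≤ 8 * N := by exact_mod_cast g1
    set f := (Fl w).card with hf
    set b := (Bu w).card with hb
    have hb0 : (0 : ℝ) ≤ b := Nat.cast_nonneg b
    set X : ℝ := z * f - b with hX
    have h1 : |h w * D k (fun i => z ^ i * rho i f b) 0| ≤ |D k (fun i => z ^ i * rho i f b) 0| := by
      rw [abs_mul]
      have := hh N w hw
      have h2 := abs_nonneg (D k (fun i => z ^ i * rho i f b) 0)
      nlinarith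
    refine h1.trans ?_
    have h3 : 0 ≤ A * 2 ^ k * (|X| ^ k / (c₁ * N) ^ k + 1 / (sc * sN) ^ k) := by positivity
    by_cases hlt : (b : ℝ) < c₁ * N
    · rw [if_pos hlt]
      have h4 := D_rho_le k hz0 hz1 (f := f) (b := b) (y := 8 * N) (by linarith) (by nlinarith)
      linarith
    · rw [if_neg hlt, zero_add]
      rw [not_lt] at hlt
      set ε : ℝ := |X| / (c₁ * N) + 1 / (sc * sN) with hε
      have hcN : 0 < c₁ * N := by positivity
      have hε0 : 0 < ε := by positivity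
      have hA' : |D k (fun i => z ^ i * rho i f b) 0| ≤ A * ε ^ k := by
        by_cases he : ε ≤ 1
        · have h4 := hdif z f b ε hz0 hz1 hε0 he ?_ ?_ k le_rfl 0 (Nat.zero_le _)
          · refine h4.trans ?_
            apply mul_le_mul_of_nonneg_right _ (by positivity)
            rw [hA]
            have : 0 ≤ 2 ^ k * y₁ ^ k := by positivity
            linarith
          · show |X| ≤ ε * (b + 1)
            have h5 : |X| = |X| / (c₁ * N) * (c₁ * N) := by field_simp
            have h6 : |X| / (c₁ * N) ≤ ε := by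
              rw [hε]
              have : 0 ≤ 1 / (sc * sN) := by positivity
              linarith
            calc |X| = |X| / (c₁ * N) * (c₁ * N) := h5
              _ ≤ ε * (b + 1) := by
                apply mul_le_mul h6 (by linarith) (by positivity) hε0.le
          · have h6 : 1 / (sc * sN) ≤ ε := by
              rw [hε]
              have : 0 ≤ |X| / (c₁ * N) := by positivity
              linarith
            have h7 : (1 / (sc * sN)) ^ 2 = 1 / (c₁ * N) := by
              rw [div_pow, mul_pow, hsc2, hsN2, one_pow]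
            have h8 : 1 / (c₁ * N) ≤ ε ^ 2 := by
              rw [← h7]
              exact pow_le_pow_left₀ (by positivity) h6 2
            calc (1 : ℝ) = 1 / (c₁ * N) * (c₁ * N) := by field_simp
              _ ≤ ε ^ 2 * (b + 1) := mul_le_mul h8 (by linarith) (by positivity) (by positivity)
        · rw [not_le] at he
          have h4 := D_rho_le k hz0 hz1 (f := f) (b := b) (y := y₁) hy₁1 (by
            have h5 : 8 / c₁ * (c₁ * N) = 8 * N := by field_simp
            have h6 : 8 / c₁ * (c₁ * N) ≤ 8 / c₁ * (b + 1) :=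
              mul_le_mul_of_nonneg_left (by linarith) (by positivity)
            rw [hy₁]
            nlinarith)
          have h5 : (1 : ℝ) ≤ ε ^ k := one_le_pow₀ he.le
          have h6 : 0 ≤ 2 ^ k * y₁ ^ k := by positivity
          calc _ ≤ _ := h4
            _ ≤ (2 ^ k * y₁ ^ k) * ε ^ k := by nlinarith
            _ ≤ A * ε ^ k := by
                apply mul_le_mul_of_nonneg_right _ (by positivity)
                rw [hA]; linarith
      refine hA'.trans ?_
      have h7 := add_pow_le' k (a := |X| / (c₁ * N)) (b := 1 / (sc * sN)) (by positivity)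
        (by positivity)
      rw [← hε, div_pow, div_pow, one_pow] at h7
      calc A * ε ^ k ≤ A * (2 ^ k * (|X| ^ k / (c₁ * N) ^ k + 1 / (sc * sN) ^ k)) := by gcongr
        _ = _ := by ring
  -- the main term
  have hmain : |z ^ N * ∑ w ∈ K N, h w * D k (fun i => z ^ i * rho i (Fl w).card (Bu w).card) 0| ≤
      (E₁ + E₂) * (r ^ k * P) := by
    rw [abs_mul, abs_of_pos hzN]
    have h1 : |∑ w ∈ K N, h w * D k (fun i => z ^ i * rho i (Fl w).card (Bu w).card) 0| ≤
        ∑ w ∈ K N, ((if ((Bu w).card : ℝ) < c₁ * N then 2 ^ k * (8 * (N : ℝ)) ^ k else 0) +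
        A * 2 ^ k * (|z * (Fl w).card - (Bu w).card| ^ k / (c₁ * N) ^ k + 1 / (sc * sN) ^ k)) :=
      (Finset.abs_sum_le_sum_abs _ _).trans (Finset.sum_le_sum hw1)
    have h2 : ∑ w ∈ K N, ((if ((Bu w).card : ℝ) < c₁ * N then 2 ^ k * (8 * (N : ℝ)) ^ k else 0) +
        A * 2 ^ k * (|z * (Fl w).card - (Bu w).card| ^ k / (c₁ * N) ^ k + 1 / (sc * sN) ^ k)) =
        (((K N).filter (fun w => ((Bu w).card : ℝ) < c₁ * N)).card : ℝ) *
          (2 ^ k * (8 * (N : ℝ)) ^ k) +
        A * 2 ^ k * ((∑ w ∈ K N, |z * (Fl w).card - (Bu w).card| ^ k) / (c₁ * N) ^ k +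
          1 / (sc * sN) ^ k * ((K N).card : ℝ)) := by
      rw [Finset.sum_add_distrib, ← Finset.sum_filter, Finset.sum_const, nsmul_eq_mul,
        ← Finset.mul_sum, Finset.sum_add_distrib, Finset.sum_div, Finset.sum_const, nsmul_eq_mul]
      ring
    rw [h2] at h1
    have h3 : z ^ N * ((((K N).filter (fun w => ((Bu w).card : ℝ) < c₁ * N)).card : ℝ) *
        (2 ^ k * (8 * (N : ℝ)) ^ k)) ≤ E₁ * (r ^ k * P) := by
      have h4 := hfewR 0 (Nat.zero_le _)
      rw [add_zero] at h4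
      calc z ^ N * ((((K N).filter (fun w => ((Bu w).card : ℝ) < c₁ * N)).card : ℝ) *
          (2 ^ k * (8 * (N : ℝ)) ^ k)) = 2 ^ k * 8 ^ k * (z ^ N *
            (((K N).filter (fun w => ((Bu w).card : ℝ) < c₁ * N)).card : ℝ) * N ^ k) := by
            rw [mul_pow]; ring
        _ ≤ 2 ^ k * 8 ^ k * (C₁ * A₀ * (r ^ k * P)) := by gcongr
        _ = _ := by rw [hE₁]; ring
    have h5 : (∑ w ∈ K N, |z * (Fl w).card - (Bu w).card| ^ k) / (c₁ * N) ^ k ≤
        Cm * Real.sqrt 8 ^ k / c₁ ^ k * r ^ k * ((K N).card : ℝ) := by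
      rw [div_le_iff₀ (by positivity)]
      calc _ ≤ _ := hm
        _ = _ := by
          rw [mul_pow, mul_pow, mul_pow]
          field_simp
    have h6 : 1 / (sc * sN) ^ k * ((K N).card : ℝ) ≤ 1 / sc ^ k * r ^ k * ((K N).card : ℝ) := by
      apply mul_le_mul_of_nonneg_right _ (Nat.cast_nonneg _)
      have h7 : 1 / (sc * sN) ^ k = 1 / sc ^ k * (1 / sN) ^ k := by
        rw [mul_pow, one_div_pow]
        field_simp
      rw [h7]
      gcongr
    calc z ^ N * |∑ w ∈ K N, h w * D k (fun i => z ^ i * rho i (Fl w).card (Bu w).card) 0| ≤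
        z ^ N * ((((K N).filter (fun w => ((Bu w).card : ℝ) < c₁ * N)).card : ℝ) *
          (2 ^ k * (8 * (N : ℝ)) ^ k) +
        A * 2 ^ k * ((∑ w ∈ K N, |z * (Fl w).card - (Bu w).card| ^ k) / (c₁ * N) ^ k +
          1 / (sc * sN) ^ k * ((K N).card : ℝ))) := by gcongr
      _ ≤ z ^ N * ((((K N).filter (fun w => ((Bu w).card : ℝ) < c₁ * N)).card : ℝ) *
          (2 ^ k * (8 * (N : ℝ)) ^ k)) +
        z ^ N * (A * 2 ^ k * (Cm * Real.sqrt 8 ^ k / c₁ ^ k * r ^ k * ((K N).card : ℝ) +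
          1 / sc ^ k * r ^ k * ((K N).card : ℝ))) := by
          rw [mul_add]
          gcongr
      _ ≤ E₁ * (r ^ k * P) +
        z ^ N * (A * 2 ^ k * (Cm * Real.sqrt 8 ^ k / c₁ ^ k * r ^ k * ((K N).card : ℝ) +
          1 / sc ^ k * r ^ k * ((K N).card : ℝ))) := by linarith
      _ = _ := by rw [hE₂, hP]; ring
  rw [D_inv T hinv]
  refine (abs_add_le _ _).trans ?_
  calc _ ≤ (E₁ + E₂) * (r ^ k * P) + E₃ * (r ^ k * P) := add_le_add hmain hsec
    _ = _ := by ring

end

end Pool.Agent.T6.H6.KS
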