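import Pool.Agent.T6.H92.TG.Tail

/-!
# Gaussian tails for the balance of bumps and flat cells, local hypotheses on the growth

The proof is the one of `Pool.Agent.T6.H92.TG.tail`.
-/

set_option autoImplicit false

namespace Pool.Agent.T6.H6.KS

open Finset
open Pool.Agent.T6.H92.TG
open scoped Classical

noncomputable section

variable {α ι : Type} {K : ℕ → Finset α} {Fl Bu : α → Finset ι} {up dn : α → ι → α}

/-- **Gaussian tails.** -/
theorem tailL (T : Tog K Fl Bu up dn) {z : ℝ} (hz0 : 0 < z) (hz1 : z ≤ 1) {N B : ℕ} (hB : 1 ≤ B)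
    (hfb : ∀ w ∈ K N, (Fl w).card ≤ B ∧ (Bu w).card ≤ B ∧ (Bu w).card ≤ 8 * N)
    {Λ t : ℝ} (ht : 16 ≤ t) (hΛ : ∀ n : ℕ, (n : ℝ) ≤ N + t / 8 → (N : ℝ) ≤ n + t / 8 →
      z ^ n * ((K n).card : ℝ) ≤ Λ * (z ^ N * ((K N).card : ℝ))) :
    (((K N).filter (fun w => t ≤ |z * (Fl w).card - (Bu w).card|)).card : ℝ) ≤
      2 * Λ * Real.exp (-(t ^ 2 / (192 * B))) * ((K N).card : ℝ) := by
  have hinv : Inv K Fl up (fun _ => (1 : ℝ)) := fun _ _ _ _ _ => rfl
  have ht0 : 0 ≤ t / 8 := by linarith
  set i : ℕ := ⌊t / 8⌋₊ with hi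
  have hi1 : (i : ℝ) ≤ t / 8 := Nat.floor_le ht0
  have hi2 : t / 16 ≤ i := by
    have := Nat.lt_floor_add_one (t / 8)
    rw [← hi] at this
    linarith
  have hzN : 0 < z ^ N := by positivity
  have hE : 0 < Real.exp (t ^ 2 / (192 * B)) := Real.exp_pos _
  have hEi : Real.exp (-(t ^ 2 / (192 * B))) = 1 / Real.exp (t ^ 2 / (192 * B)) := by
    rw [Real.exp_neg]; simp
  -- upper tail
  have hU : (((K N).filter (fun w => t ≤ z * (Fl w).card - (Bu w).card)).card : ℝ) ≤
      Λ * Real.exp (-(t ^ 2 / (192 * B))) * ((K N).card : ℝ) := by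
    by_cases hne : ((K N).filter (fun w => t ≤ z * (Fl w).card - (Bu w).card)).Nonempty
    · obtain ⟨w₀, hw₀⟩ := hne
      rw [mem_filter] at hw₀
      have hiB : i ≤ B := by
        have h1 := hfb w₀ hw₀.1
        have h2 : ((Fl w₀).card : ℝ) ≤ B := by exact_mod_cast h1.1
        have h3 : (0 : ℝ) ≤ (Bu w₀).card := Nat.cast_nonneg _
        have h4 : z * ((Fl w₀).card : ℝ) ≤ (Fl w₀).card := by
          have : (0 : ℝ) ≤ (Fl w₀).card := Nat.cast_nonneg _
          nlinarith
        have h5 : (i : ℝ) ≤ B := by linarith [hw₀.2]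
        exact_mod_cast h5
      have h1 := count_up T hinv N i (fun _ _ => 1)
      have h2 : ∑ w ∈ K N, rho i (Fl w).card (Bu w).card ≤ ((K (N + i)).card : ℝ) := by
        have h3 : ∑ w ∈ K N, rho i (Fl w).card (Bu w).card =
            ∑ w ∈ K N, (1 : ℝ) * (rho i (Fl w).card (Bu w).card * 1) := by simp
        rw [h3, ← h1]
        calc ∑ w ∈ K (N + i), (if i ≤ (Bu w).card then (1 : ℝ) * 1 else 0) ≤
            ∑ w ∈ K (N + i), (1 : ℝ) := by
              refine Finset.sum_le_sum fun w _ => ?_
              split_ifs <;> norm_num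
          _ = _ := by simp
      have h3 : (((K N).filter (fun w => t ≤ z * (Fl w).card - (Bu w).card)).card : ℝ) *
          Real.exp (t ^ 2 / (192 * B)) ≤ z ^ i * ((K (N + i)).card : ℝ) := by
        refine le_trans ?_ (mul_le_mul_of_nonneg_left h2 (by positivity))
        rw [Finset.mul_sum]
        calc (((K N).filter (fun w => t ≤ z * (Fl w).card - (Bu w).card)).card : ℝ) *
            Real.exp (t ^ 2 / (192 * B)) =
            ∑ w ∈ (K N).filter (fun w => t ≤ z * (Fl w).card - (Bu w).card),
              Real.exp (t ^ 2 / (192 * B)) := by rw [Finset.sum_const, nsmul_eq_mul]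
          _ ≤ ∑ w ∈ (K N).filter (fun w => t ≤ z * (Fl w).card - (Bu w).card),
              z ^ i * rho i (Fl w).card (Bu w).card := by
                refine Finset.sum_le_sum fun w hw => ?_
                rw [mem_filter] at hw
                obtain ⟨g1, g2, _⟩ := hfb w hw.1
                exact rho_big hz0 hz1 hB g1 g2 ht hw.2 hi1 hi2
          _ ≤ _ := Finset.sum_le_sum_of_subset_of_nonneg (Finset.filter_subset _ _)
              (fun w _ _ => mul_nonneg (by positivity) (rho_nonneg _ _ _))
      have h4 := hΛ (N + i) (by push_cast; linarith) (by push_cast; linarith)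
      have h5 : z ^ (N + i) * ((K (N + i)).card : ℝ) = z ^ N * (z ^ i * ((K (N + i)).card : ℝ)) := by
        rw [pow_add]; ring
      rw [h5] at h4
      have h6 : z ^ i * ((K (N + i)).card : ℝ) ≤ Λ * ((K N).card : ℝ) := by
        have : z ^ N * (z ^ i * ((K (N + i)).card : ℝ)) ≤ z ^ N * (Λ * ((K N).card : ℝ)) := by
          linarith
        exact le_of_mul_le_mul_left this hzN
      rw [hEi]
      have h7 := h3.trans h6
      rw [← le_div_iff₀ hE] at h7
      refine h7.trans (le_of_eq ?_)
      ring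
    · rw [Finset.not_nonempty_iff_eq_empty] at hne
      rw [hne]
      have h4 := hΛ N (by linarith) (by linarith)
      have h5 : 0 ≤ Λ * ((K N).card : ℝ) := by
        have h6 : 0 ≤ z ^ N * ((K N).card : ℝ) := by positivity
        have h7 : 0 ≤ z ^ N * (Λ * ((K N).card : ℝ)) := by linarith
        exact nonneg_of_mul_nonneg_right h7 hzN
      have h8 : 0 < Real.exp (-(t ^ 2 / (192 * B))) := Real.exp_pos _
      simp only [Finset.card_empty, Nat.cast_zero]
      nlinarith
  -- lower tail
  have hL : (((K N).filter (fun w => z * (Fl w).card - (Bu w).card ≤ -t)).card : ℝ) ≤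
      Λ * Real.exp (-(t ^ 2 / (192 * B))) * ((K N).card : ℝ) := by
    by_cases hne : ((K N).filter (fun w => z * (Fl w).card - (Bu w).card ≤ -t)).Nonempty
    · obtain ⟨w₀, hw₀⟩ := hne
      rw [mem_filter] at hw₀
      have hiN : i ≤ N := by
        have h1 := hfb w₀ hw₀.1
        have h2 : ((Bu w₀).card : ℝ) ≤ 8 * N := by exact_mod_cast h1.2.2
        have h3 : (0 : ℝ) ≤ z * (Fl w₀).card := by positivity
        have h5 : (i : ℝ) ≤ N := by linarith [hw₀.2]
        exact_mod_cast h5
      obtain ⟨M, hM⟩ := Nat.exists_eq_add_of_le' hiN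
      have h1 := count_dn T hinv M i (fun _ _ => 1)
      rw [← hM] at h1
      have h2 : ∑ w ∈ K N, rho i (Bu w).card (Fl w).card ≤ ((K M).card : ℝ) := by
        have h3 : ∑ w ∈ K N, rho i (Bu w).card (Fl w).card =
            ∑ w ∈ K N, (1 : ℝ) * (rho i (Bu w).card (Fl w).card * 1) := by simp
        rw [h3, h1]
        calc ∑ w ∈ K M, (if i ≤ (Fl w).card then (1 : ℝ) * 1 else 0) ≤
            ∑ w ∈ K M, (1 : ℝ) := by
              refine Finset.sum_le_sum fun w _ => ?_
              split_ifs <;> norm_num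
          _ = _ := by simp
      have h3 : (((K N).filter (fun w => z * (Fl w).card - (Bu w).card ≤ -t)).card : ℝ) *
          Real.exp (t ^ 2 / (192 * B)) ≤ z⁻¹ ^ i * ((K M).card : ℝ) := by
        refine le_trans ?_ (mul_le_mul_of_nonneg_left h2 (by positivity))
        rw [Finset.mul_sum]
        calc (((K N).filter (fun w => z * (Fl w).card - (Bu w).card ≤ -t)).card : ℝ) *
            Real.exp (t ^ 2 / (192 * B)) =
            ∑ w ∈ (K N).filter (fun w => z * (Fl w).card - (Bu w).card ≤ -t),
              Real.exp (t ^ 2 / (192 * B)) := by rw [Finset.sum_const, nsmul_eq_mul]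
          _ ≤ ∑ w ∈ (K N).filter (fun w => z * (Fl w).card - (Bu w).card ≤ -t),
              z⁻¹ ^ i * rho i (Bu w).card (Fl w).card := by
                refine Finset.sum_le_sum fun w hw => ?_
                rw [mem_filter] at hw
                obtain ⟨g1, g2, _⟩ := hfb w hw.1
                exact rho_big' hz0 hz1 hB g1 g2 ht hw.2 hi1 hi2
          _ ≤ _ := Finset.sum_le_sum_of_subset_of_nonneg (Finset.filter_subset _ _)
              (fun w _ _ => mul_nonneg (by positivity) (rho_nonneg _ _ _))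
      have h4 := hΛ M (by rw [hM]; push_cast; linarith) (by rw [hM]; push_cast; linarith)
      have h5 : z ^ N * (z⁻¹ ^ i * ((K M).card : ℝ)) = z ^ M * ((K M).card : ℝ) := by
        have h9 : z ^ i ≠ 0 := (pow_pos hz0 i).ne'
        rw [hM, pow_add, inv_pow]
        field_simp
      rw [← h5] at h4
      have h6 : z⁻¹ ^ i * ((K M).card : ℝ) ≤ Λ * ((K N).card : ℝ) := by
        have : z ^ N * (z⁻¹ ^ i * ((K M).card : ℝ)) ≤ z ^ N * (Λ * ((K N).card : ℝ)) := by
          linarith
        exact le_of_mul_le_mul_left this hzN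
      rw [hEi]
      have h7 := h3.trans h6
      rw [← le_div_iff₀ hE] at h7
      refine h7.trans (le_of_eq ?_)
      ring
    · rw [Finset.not_nonempty_iff_eq_empty] at hne
      rw [hne]
      have h4 := hΛ N (by linarith) (by linarith)
      have h5 : 0 ≤ Λ * ((K N).card : ℝ) := by
        have h6 : 0 ≤ z ^ N * ((K N).card : ℝ) := by positivity
        have h7 : 0 ≤ z ^ N * (Λ * ((K N).card : ℝ)) := by linarith
        exact nonneg_of_mul_nonneg_right h7 hzN
      have h8 : 0 < Real.exp (-(t ^ 2 / (192 * B))) := Real.exp_pos _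
      simp only [Finset.card_empty, Nat.cast_zero]
      nlinarith
  have hsub : (K N).filter (fun w => t ≤ |z * (Fl w).card - (Bu w).card|) ⊆
      (K N).filter (fun w => t ≤ z * (Fl w).card - (Bu w).card) ∪
      (K N).filter (fun w => z * (Fl w).card - (Bu w).card ≤ -t) := by
    intro w hw
    rw [mem_filter] at hw
    rw [mem_union, mem_filter, mem_filter]
    rcases le_abs.1 hw.2 with h | h
    · exact Or.inl ⟨hw.1, h⟩
    · exact Or.inr ⟨hw.1, by linarith⟩
  have h1 : (((K N).filter (fun w => t ≤ |z * (Fl w).card - (Bu w).card|)).card : ℝ) ≤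
      (((K N).filter (fun w => t ≤ z * (Fl w).card - (Bu w).card)).card : ℝ) +
      (((K N).filter (fun w => z * (Fl w).card - (Bu w).card ≤ -t)).card : ℝ) := by
    have := (Finset.card_le_card hsub).trans (Finset.card_union_le _ _)
    exact_mod_cast this
  linarith

end

end Pool.Agent.T6.H6.KS
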