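import Pool.Agent.T6.H6.KS.Core4
import Pool.Agent.T6.H6.KS.TailL

/-!
# The main estimate for a toggle system, local hypotheses on the growth
-/

set_option autoImplicit false

namespace Pool.Agent.T6.H6.KS

open Finset Filter Topology
open Pool.Agent.T6.H92.TG
open scoped Classical

noncomputable section

/-- **the main estimate** -/
theorem core5 (hdif : StmDif) (k : ℕ) {z c₁ c₂ C₁ : ℝ} (hz0 : 0 < z) (hz1 : z ≤ 1) (hc₁ : 0 < c₁)
    (hc₂ : 0 < c₂) (hC₁ : 0 ≤ C₁) :
    ∃ (C : ℝ) (N₀ : ℕ), 0 ≤ C ∧ ∀ N ≥ N₀, ∀ Λ : ℝ, 1 ≤ Λ →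
      ∀ (α ι : Type) (K : ℕ → Finset α) (Fl Bu : α → Finset ι) (up dn : α → ι → α) (h : α → ℝ),
      Tog K Fl Bu up dn → Inv K Fl up h → (∀ n, ∀ w ∈ K n, |h w| ≤ 1) →
      (∀ w ∈ K N, (Fl w).card ≤ 8 * N ∧ (Bu w).card ≤ 8 * N) →
      (∀ n : ℕ, N ≤ 2 * n → n ≤ 2 * N →
        z ^ n * ((K n).card : ℝ) ≤ Λ * (z ^ N * ((K N).card : ℝ))) →
      (∀ n ≤ 10 * N, z ^ n * ((K n).card : ℝ) ≤
        Real.exp ((N : ℝ) / 192) * (z ^ N * ((K N).card : ℝ))) →
      (∀ i ≤ k, z ^ (N + i) * (((K (N + i)).filter (fun w => ((Bu w).card : ℝ) < c₁ * N)).card : ℝ) ≤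
        C₁ * Real.exp (-(c₂ * N)) * (z ^ N * ((K N).card : ℝ))) →
      |D k (fun n => z ^ n * ∑ w ∈ K n, h w) N| ≤
        C * (Real.sqrt ((1 + Real.log Λ) / N) ^ k * (z ^ N * ((K N).card : ℝ))) := by
  obtain ⟨Cd, hCd, hdif⟩ := hdif k
  obtain ⟨Cm, hCm, hmom⟩ := mom k
  obtain ⟨A₀, hA₀, hpe⟩ := pow_exp_le (2 * k) (c := c₂) hc₂
  set y₁ : ℝ := 1 + 8 / c₁ with hy₁
  have hy₁1 : 1 ≤ y₁ := by
    have : 0 ≤ 8 / c₁ := by positivity
    rw [hy₁]; linarith
  set A : ℝ := Cd + 2 ^ k * y₁ ^ k with hA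
  have hA0 : 0 ≤ A := by positivity
  set sc : ℝ := Real.sqrt c₁ with hsc
  have hsc0 : 0 < sc := Real.sqrt_pos.2 hc₁
  have hsc2 : sc ^ 2 = c₁ := Real.sq_sqrt hc₁.le
  -- constants of the three parts
  set E₁ : ℝ := 2 ^ k * 8 ^ k * C₁ * A₀ with hE₁
  set E₂ : ℝ := A * 2 ^ k * (Cm * 4 ^ k / c₁ ^ k + 1 / sc ^ k) with hE₂
  set E₃ : ℝ := 2 ^ k * C₁ * A₀ with hE₃
  obtain ⟨N₁, hN₁⟩ : ∃ N₁ : ℕ, (k : ℝ) / c₁ ≤ N₁ := exists_nat_ge _
  refine ⟨E₁ + E₂ + E₃, max N₁ 1, by positivity, ?_⟩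
  intro N hN Λ hΛ α ι K Fl Bu up dn h T hinv hh hcard hloc hcnt hfew
  have hN1 : 1 ≤ N := le_trans (le_max_right _ _) hN
  have hNN : N₁ ≤ N := le_trans (le_max_left _ _) hN
  have hNr : (1 : ℝ) ≤ N := by exact_mod_cast hN1
  have hNp : (0 : ℝ) < N := by linarith
  have hkN : (k : ℝ) ≤ c₁ * N := by
    have h1 : (N₁ : ℝ) ≤ N := by exact_mod_cast hNN
    have h2 : (k : ℝ) / c₁ ≤ N := hN₁.trans h1
    rw [div_le_iff₀ hc₁] at h2
    linarith
  have hL : 0 ≤ Real.log Λ := Real.log_nonneg hΛ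
  have hΛ0 : 0 < Λ := by linarith
  set r : ℝ := Real.sqrt ((1 + Real.log Λ) / N) with hr
  have hr2 : r ^ 2 = (1 + Real.log Λ) / N := Real.sq_sqrt (by positivity)
  have hr0 : 0 ≤ r := Real.sqrt_nonneg _
  set sN : ℝ := Real.sqrt N with hsN
  have hsN0 : 0 < sN := Real.sqrt_pos.2 hNp
  have hsN2 : sN ^ 2 = N := Real.sq_sqrt hNp.le
  have hrs : 1 / sN ≤ r := by
    rw [hr]
    apply Real.le_sqrt_of_sq_le
    rw [div_pow, hsN2, one_pow]
    gcongr
    linarith
  have hrN : 1 / (N : ℝ) ≤ r := by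
    refine le_trans ?_ hrs
    rw [div_le_div_iff₀ hNp hsN0]
    have : 1 ≤ sN := by
      rw [hsN, Real.one_le_sqrt]
      exact hNr
    nlinarith
  have hrk : 1 / (N : ℝ) ^ k ≤ r ^ k := by
    rw [← one_div_pow]
    exact pow_le_pow_left₀ (by positivity) hrN k
  set P : ℝ := z ^ N * ((K N).card : ℝ) with hP
  have hP0 : 0 ≤ P := by positivity
  have hzN : 0 < z ^ N := by positivity
  -- the exponentially small factor
  have hsmall : (N : ℝ) ^ k * Real.exp (-(c₂ * N)) ≤ A₀ * r ^ k := by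
    have h1 := hpe N
    have h2 : (N : ℝ) ^ (2 * k) = N ^ k * N ^ k := by rw [two_mul, pow_add]
    rw [h2] at h1
    have h4 : (N : ℝ) ^ k * Real.exp (-(c₂ * N)) ≤ A₀ * (1 / (N : ℝ) ^ k) := by
      rw [mul_one_div, le_div_iff₀ (by positivity)]
      calc (N : ℝ) ^ k * Real.exp (-(c₂ * N)) * N ^ k =
          (N : ℝ) ^ k * N ^ k * Real.exp (-(c₂ * N)) := by ring
        _ ≤ A₀ := h1
    exact h4.trans (mul_le_mul_of_nonneg_left hrk hA₀)
  have hfewR : ∀ i ≤ k, z ^ (N + i) * (((K (N + i)).filter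
      (fun w => ((Bu w).card : ℝ) < c₁ * N)).card : ℝ) * N ^ k ≤ C₁ * A₀ * (r ^ k * P) := by
    intro i hi
    have h1 := hfew i hi
    calc z ^ (N + i) * (((K (N + i)).filter
        (fun w => ((Bu w).card : ℝ) < c₁ * N)).card : ℝ) * N ^ k ≤
        C₁ * Real.exp (-(c₂ * N)) * P * N ^ k := by gcongr
      _ = C₁ * ((N : ℝ) ^ k * Real.exp (-(c₂ * N))) * P := by ring
      _ ≤ C₁ * (A₀ * r ^ k) * P := by gcongr
      _ = _ := by ring
  -- the second term
  have hsec : |D k (fun i => z ^ (N + i) * ∑ w ∈ (K (N + i)).filter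
      (fun w => (Bu w).card < i), h w) 0| ≤ E₃ * (r ^ k * P) := by
    have h1 : ∀ i, 0 ≤ i → i ≤ 0 + k → |z ^ (N + i) * ∑ w ∈ (K (N + i)).filter
        (fun w => (Bu w).card < i), h w| ≤ C₁ * A₀ * (r ^ k * P) := by
      intro i _ hi
      have hik : i ≤ k := by omega
      have h2 : |∑ w ∈ (K (N + i)).filter (fun w => (Bu w).card < i), h w| ≤
          (((K (N + i)).filter (fun w => ((Bu w).card : ℝ) < c₁ * N)).card : ℝ) := by
        refine (Finset.abs_sum_le_sum_abs _ _).trans ?_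
        calc ∑ w ∈ (K (N + i)).filter (fun w => (Bu w).card < i), |h w| ≤
            ∑ w ∈ (K (N + i)).filter (fun w => (Bu w).card < i), (1 : ℝ) :=
              Finset.sum_le_sum fun w hw => hh _ w (Finset.mem_filter.1 hw).1
          _ = (((K (N + i)).filter (fun w => (Bu w).card < i)).card : ℝ) := by simp
          _ ≤ _ := by
              have : (K (N + i)).filter (fun w => (Bu w).card < i) ⊆
                  (K (N + i)).filter (fun w => ((Bu w).card : ℝ) < c₁ * N) := by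
                intro w hw
                rw [Finset.mem_filter] at hw ⊢
                refine ⟨hw.1, ?_⟩
                have h3 : ((Bu w).card : ℝ) < i := by exact_mod_cast hw.2
                have h4 : (i : ℝ) ≤ k := by exact_mod_cast hik
                linarith
              exact_mod_cast Finset.card_le_card this
      rw [abs_mul, abs_of_pos (by positivity : 0 < z ^ (N + i))]
      have h5 := hfewR i hik
      have h6 : (1 : ℝ) ≤ (N : ℝ) ^ k := one_le_pow₀ hNr
      have h7 : 0 ≤ z ^ (N + i) * (((K (N + i)).filter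
        (fun w => ((Bu w).card : ℝ) < c₁ * N)).card : ℝ) := by positivity
      calc z ^ (N + i) * |∑ w ∈ (K (N + i)).filter (fun w => (Bu w).card < i), h w| ≤
          z ^ (N + i) * (((K (N + i)).filter (fun w => ((Bu w).card : ℝ) < c₁ * N)).card : ℝ) := by
            gcongr
        _ ≤ z ^ (N + i) * (((K (N + i)).filter
            (fun w => ((Bu w).card : ℝ) < c₁ * N)).card : ℝ) * N ^ k := by nlinarith
        _ ≤ _ := h5
    have h2 := D_bound k 0 h1
    calc _ ≤ _ := h2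
      _ = _ := by rw [hE₃]; ring
  -- the tails
  have hK0 : (0 : ℝ) ≤ (K N).card := Nat.cast_nonneg _
  have htail : ∀ t : ℝ, 16 ≤ t → (((K N).filter (fun w => t ≤ |z * (Fl w).card - (Bu w).card|)).card :
      ℝ) ≤ 2 * Λ * Real.exp (-(t ^ 2 / (192 * (16 * (N : ℝ))))) * ((K N).card : ℝ) := by
    intro t ht
    have hfb : ∀ w ∈ K N, (Fl w).card ≤ 8 * N ∧ (Bu w).card ≤ 8 * N ∧ (Bu w).card ≤ 8 * N :=
      fun w hw => ⟨(hcard w hw).1, (hcard w hw).2, (hcard w hw).2⟩
    rcases le_or_gt t (4 * N) with h4 | h4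
    · have h1 := tailL T hz0 hz1 (N := N) (B := 8 * N) (by omega) hfb (Λ := Λ) (t := t) ht
        (fun n hn1 hn2 => hloc n
          (by have h5 : (N : ℝ) ≤ 2 * n := by linarith
              exact_mod_cast h5)
          (by have h5 : (n : ℝ) ≤ 2 * N := by linarith
              exact_mod_cast h5))
      refine h1.trans ?_
      apply mul_le_mul_of_nonneg_right _ hK0
      apply mul_le_mul_of_nonneg_left _ (by positivity)
      apply Real.exp_le_exp.2
      apply neg_le_neg
      push_cast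
      apply div_le_div_of_nonneg_left (by positivity) (by positivity)
      linarith
    · have h1 := tail T hz0 hz1 (N := N) (B := 8 * N) (by omega) hfb
        (Λ := Real.exp ((N : ℝ) / 192)) (fun n hn => hcnt n (by omega)) (t := t) ht
      refine h1.trans ?_
      apply mul_le_mul_of_nonneg_right _ hK0
      rw [mul_assoc, mul_assoc]
      apply mul_le_mul_of_nonneg_left _ (by norm_num)
      rw [← Real.exp_add]
      have h5 : Real.exp ((N : ℝ) / 192 + -(t ^ 2 / (192 * ((8 * N : ℕ) : ℝ)))) ≤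
          Real.exp (-(t ^ 2 / (192 * (16 * (N : ℝ))))) := by
        apply Real.exp_le_exp.2
        push_cast
        have h6 : (16 : ℝ) * N ^ 2 ≤ t ^ 2 := by nlinarith
        have h7 : t ^ 2 / (192 * (8 * (N : ℝ))) = 2 * (t ^ 2 / (192 * (16 * (N : ℝ)))) := by
          field_simp
          ring
        have h8 : (N : ℝ) / 192 ≤ t ^ 2 / (192 * (16 * (N : ℝ))) := by
          rw [div_le_div_iff₀ (by norm_num) (by positivity)]
          nlinarith
        rw [h7]
        linarith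
      have h9 : 0 ≤ Real.exp (-(t ^ 2 / (192 * (16 * (N : ℝ))))) := (Real.exp_pos _).le
      nlinarith
  have hm := hmom α (K N) (fun w => z * (Fl w).card - (Bu w).card) Λ (16 * (N : ℝ)) hΛ
    (by linarith) htail
  have hmr : Real.sqrt ((16 * (N : ℝ)) * (1 + Real.log Λ)) = 4 * (N * r) := by
    have h1 : (16 * (N : ℝ)) * (1 + Real.log Λ) = (4 * (N * r)) ^ 2 := by
      rw [mul_pow, mul_pow, hr2]
      field_simp
      ring
    rw [h1, Real.sqrt_sq (by positivity)]
  rw [hmr] at hm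
  -- the words
  have hw1 : ∀ w ∈ K N, |h w * D k (fun i => z ^ i * rho i (Fl w).card (Bu w).card) 0| ≤
      (if ((Bu w).card : ℝ) < c₁ * N then 2 ^ k * (8 * (N : ℝ)) ^ k else 0) +
      A * 2 ^ k * (|z * (Fl w).card - (Bu w).card| ^ k / (c₁ * N) ^ k + 1 / (sc * sN) ^ k) := by
    intro w hw
    obtain ⟨g1, g2⟩ := hcard w hw
    have g1r : ((Fl w).card : ℝ) ≤ 8 * N := by exact_mod_cast g1
    set f := (Fl w).card with hf
    set b := (Bu w).card with hb
    have hb0 : (0 : ℝ) ≤ b := Nat.cast_nonneg b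
    set X : ℝ := z * f - b with hX
    have h1 : |h w * D k (fun i => z ^ i * rho i f b) 0| ≤ |D k (fun i => z ^ i * rho i f b) 0| := by
      rw [abs_mul]
      have := hh N w hw
      have h2 := abs_nonneg (D k (fun i => z ^ i * rho i f b) 0)
      nlinarith
    refine h1.trans ?_
    have h3 : 0 ≤ A * 2 ^ k * (|X| ^ k / (c₁ * N) ^ k + 1 / (sc * sN) ^ k) := by positivity
    by_cases hlt : (b : ℝ) < c₁ * N
    · rw [if_pos hlt]
      have h4 := D_rho_le k hz0 hz1 (f := f) (b := b) (y := 8 * N) (by linarith) (by nlinarith)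
      linarith
    · rw [if_neg hlt, zero_add]
      rw [not_lt] at hlt
      set ε : ℝ := |X| / (c₁ * N) + 1 / (sc * sN) with hε
      have hcN : 0 < c₁ * N := by positivity
      have hε0 : 0 < ε := by positivity
      have hA' : |D k (fun i => z ^ i * rho i f b) 0| ≤ A * ε ^ k := by
        by_cases he : ε ≤ 1
        · have h4 := hdif z f b ε hz0 hz1 hε0 he ?_ ?_ k le_rfl 0 (Nat.zero_le _)
          · refine h4.trans ?_
            apply mul_le_mul_of_nonneg_right _ (by positivity)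
            rw [hA]
            have : 0 ≤ 2 ^ k * y₁ ^ k := by positivity
            linarith
          · show |X| ≤ ε * (b + 1)
            have h5 : |X| = |X| / (c₁ * N) * (c₁ * N) := by field_simp
            have h6 : |X| / (c₁ * N) ≤ ε := by
              rw [hε]
              have : 0 ≤ 1 / (sc * sN) := by positivity
              linarith
            calc |X| = |X| / (c₁ * N) * (c₁ * N) := h5
              _ ≤ ε * (b + 1) := by
                apply mul_le_mul h6 (by linarith) (by positivity) hε0.le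
          · have h6 : 1 / (sc * sN) ≤ ε := by
              rw [hε]
              have : 0 ≤ |X| / (c₁ * N) := by positivity
              linarith
            have h7 : (1 / (sc * sN)) ^ 2 = 1 / (c₁ * N) := by
              rw [div_pow, mul_pow, hsc2, hsN2, one_pow]
            have h8 : 1 / (c₁ * N) ≤ ε ^ 2 := by
              rw [← h7]
              exact pow_le_pow_left₀ (by positivity) h6 2
            calc (1 : ℝ) = 1 / (c₁ * N) * (c₁ * N) := by field_simp
              _ ≤ ε ^ 2 * (b + 1) := mul_le_mul h8 (by linarith) (by positivity) (by positivity)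
        · rw [not_le] at he
          have h4 := D_rho_le k hz0 hz1 (f := f) (b := b) (y := y₁) hy₁1 (by
            have h5 : 8 / c₁ * (c₁ * N) = 8 * N := by field_simp
            have h6 : 8 / c₁ * (c₁ * N) ≤ 8 / c₁ * (b + 1) :=
              mul_le_mul_of_nonneg_left (by linarith) (by positivity)
            rw [hy₁]
            nlinarith)
          have h5 : (1 : ℝ) ≤ ε ^ k := one_le_pow₀ he.le
          have h6 : 0 ≤ 2 ^ k * y₁ ^ k := by positivity
          calc _ ≤ _ := h4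
            _ ≤ (2 ^ k * y₁ ^ k) * ε ^ k := by nlinarith
            _ ≤ A * ε ^ k := by
                apply mul_le_mul_of_nonneg_right _ (by positivity)
                rw [hA]; linarith
      refine hA'.trans ?_
      have h7 := add_pow_le' k (a := |X| / (c₁ * N)) (b := 1 / (sc * sN)) (by positivity)
        (by positivity)
      rw [← hε, div_pow, div_pow, one_pow] at h7
      calc A * ε ^ k ≤ A * (2 ^ k * (|X| ^ k / (c₁ * N) ^ k + 1 / (sc * sN) ^ k)) := by gcongr
        _ = _ := by ring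
  -- the main term
  have hmain : |z ^ N * ∑ w ∈ K N, h w * D k (fun i => z ^ i * rho i (Fl w).card (Bu w).card) 0| ≤
      (E₁ + E₂) * (r ^ k * P) := by
    rw [abs_mul, abs_of_pos hzN]
    have h1 : |∑ w ∈ K N, h w * D k (fun i => z ^ i * rho i (Fl w).card (Bu w).card) 0| ≤
        ∑ w ∈ K N, ((if ((Bu w).card : ℝ) < c₁ * N then 2 ^ k * (8 * (N : ℝ)) ^ k else 0) +
        A * 2 ^ k * (|z * (Fl w).card - (Bu w).card| ^ k / (c₁ * N) ^ k + 1 / (sc * sN) ^ k)) :=
      (Finset.abs_sum_le_sum_abs _ _).trans (Finset.sum_le_sum hw1)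
    have h2 : ∑ w ∈ K N, ((if ((Bu w).card : ℝ) < c₁ * N then 2 ^ k * (8 * (N : ℝ)) ^ k else 0) +
        A * 2 ^ k * (|z * (Fl w).card - (Bu w).card| ^ k / (c₁ * N) ^ k + 1 / (sc * sN) ^ k)) =
        (((K N).filter (fun w => ((Bu w).card : ℝ) < c₁ * N)).card : ℝ) *
          (2 ^ k * (8 * (N : ℝ)) ^ k) +
        A * 2 ^ k * ((∑ w ∈ K N, |z * (Fl w).card - (Bu w).card| ^ k) / (c₁ * N) ^ k +
          1 / (sc * sN) ^ k * ((K N).card : ℝ)) := by
      rw [Finset.sum_add_distrib, ← Finset.sum_filter, Finset.sum_const, nsmul_eq_mul,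
        ← Finset.mul_sum, Finset.sum_add_distrib, Finset.sum_div, Finset.sum_const, nsmul_eq_mul]
      ring
    rw [h2] at h1
    have h3 : z ^ N * ((((K N).filter (fun w => ((Bu w).card : ℝ) < c₁ * N)).card : ℝ) *
        (2 ^ k * (8 * (N : ℝ)) ^ k)) ≤ E₁ * (r ^ k * P) := by
      have h4 := hfewR 0 (Nat.zero_le _)
      rw [add_zero] at h4
      calc z ^ N * ((((K N).filter (fun w => ((Bu w).card : ℝ) < c₁ * N)).card : ℝ) *
          (2 ^ k * (8 * (N : ℝ)) ^ k)) = 2 ^ k * 8 ^ k * (z ^ N *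
            (((K N).filter (fun w => ((Bu w).card : ℝ) < c₁ * N)).card : ℝ) * N ^ k) := by
            rw [mul_pow]; ring
        _ ≤ 2 ^ k * 8 ^ k * (C₁ * A₀ * (r ^ k * P)) := by gcongr
        _ = _ := by rw [hE₁]; ring
    have h5 : (∑ w ∈ K N, |z * (Fl w).card - (Bu w).card| ^ k) / (c₁ * N) ^ k ≤
        Cm * 4 ^ k / c₁ ^ k * r ^ k * ((K N).card : ℝ) := by
      rw [div_le_iff₀ (by positivity)]
      calc _ ≤ _ := hm
        _ = _ := by
          rw [mul_pow, mul_pow, mul_pow]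
          field_simp
    have h6 : 1 / (sc * sN) ^ k * ((K N).card : ℝ) ≤ 1 / sc ^ k * r ^ k * ((K N).card : ℝ) := by
      apply mul_le_mul_of_nonneg_right _ (Nat.cast_nonneg _)
      have h7 : 1 / (sc * sN) ^ k = 1 / sc ^ k * (1 / sN) ^ k := by
        rw [mul_pow, one_div_pow]
        field_simp
      rw [h7]
      gcongr
    calc z ^ N * |∑ w ∈ K N, h w * D k (fun i => z ^ i * rho i (Fl w).card (Bu w).card) 0| ≤
        z ^ N * ((((K N).filter (fun w => ((Bu w).card : ℝ) < c₁ * N)).card : ℝ) *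
          (2 ^ k * (8 * (N : ℝ)) ^ k) +
        A * 2 ^ k * ((∑ w ∈ K N, |z * (Fl w).card - (Bu w).card| ^ k) / (c₁ * N) ^ k +
          1 / (sc * sN) ^ k * ((K N).card : ℝ))) := by gcongr
      _ ≤ z ^ N * ((((K N).filter (fun w => ((Bu w).card : ℝ) < c₁ * N)).card : ℝ) *
          (2 ^ k * (8 * (N : ℝ)) ^ k)) +
        z ^ N * (A * 2 ^ k * (Cm * 4 ^ k / c₁ ^ k * r ^ k * ((K N).card : ℝ) +
          1 / sc ^ k * r ^ k * ((K N).card : ℝ))) := by
          rw [mul_add]
          gcongr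
      _ ≤ E₁ * (r ^ k * P) +
        z ^ N * (A * 2 ^ k * (Cm * 4 ^ k / c₁ ^ k * r ^ k * ((K N).card : ℝ) +
          1 / sc ^ k * r ^ k * ((K N).card : ℝ))) := by linarith
      _ = _ := by rw [hE₂, hP]; ring
  rw [D_inv T hinv]
  refine (abs_add_le _ _).trans ?_
  calc _ ≤ (E₁ + E₂) * (r ^ k * P) + E₃ * (r ^ k * P) := add_le_add hmain hsec
    _ = _ := by ring

end

end Pool.Agent.T6.H6.KS
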