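import Pool.Agent.H246KN.Stubs
import Pool.Agent.H246KN.Cls
import Pool.Agent.T6.H92.TG.Sys

/-!
# Smoothness in the length for lattice knots: cells, moves, statements of the modules

A cell is the set of the four vertices of a unit square.  In a closed word `w` a bump can be
inserted across the cells `FL R w` and removed at the cells `BU R w`, where `R` is a finite set of
pairwise disjoint cells.
-/

set_option autoImplicit false

namespace Pool.Agent.T6.H6.KS

open Finset KN
open Pool.Agent.T6.H92.TG (Tog)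
open scoped Classical

noncomputable section

/-- finite sets of lattice points -/
abbrev Cell := Finset Z3

/-- the vertices of the square at `p` with the sides `e` and `d` -/
def sqr (p : Z3) (e d : Dir) : Cell := {p, p + vec e, p + vec d, p + vec d + vec e}

/-- the square across which the `i`-th edge is pushed in direction `d` -/
def acell (w : List Dir) (i : ℕ) (d : Dir) : Cell := sqr (pos (w.drop (i + 1))) (w.getD i .xp) d

/-- the square of the bump number `j` -/
def bcell (w : List Dir) (j : ℕ) : Cell :=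
  {pos (w.drop j), pos (w.drop (j + 1)), pos (w.drop (j + 2)), pos (w.drop (j + 3))}

/-- a bump can be inserted across the cell -/
def IsF (w : List Dir) (c : Cell) : Prop := ∃ q : ℕ × Dir, site w q.1 q.2 ∧ acell w q.1 q.2 = c

/-- the cell is the cell of a bump -/
def IsB (w : List Dir) (c : Cell) : Prop := ∃ j : ℕ, 6 ≤ w.length ∧ bump w j ∧ bcell w j = c

/-- the flat cells in `R` -/
def FL (R : Finset Cell) (w : List Dir) : Finset Cell := R.filter (fun c => IsF w c)

/-- the bump cells in `R` -/
def BU (R : Finset Cell) (w : List Dir) : Finset Cell := R.filter (fun c => IsB w c)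

/-- insertion of a bump across the cell `c` -/
def UP (w : List Dir) (c : Cell) : List Dir :=
  if h : IsF w c then ins w h.choose.1 h.choose.2 else w

/-- deletion of the bump at the cell `c` -/
def DN (w : List Dir) (c : Cell) : List Dir := if h : IsB w c then rem w h.choose else w

/-- the cells of `R` are pairwise disjoint -/
def Sep (R : Finset Cell) : Prop := ∀ c ∈ R, ∀ d ∈ R, c ≠ d → Disjoint c d

/-! ## LOC, UNI, TOG -/

/-- LOC: local facts.  In `ins w i d` the cell of `(i, d)` is a bump cell and not flat; the cells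
which are disjoint from it are flat (bump cells) before if and only if after the insertion. -/
def StmLoc : Prop := ∀ (w : List Dir) (i : ℕ) (d : Dir), SAP w → site w i d →
  bcell (ins w i d) i = acell w i d ∧ ¬ IsB w (acell w i d) ∧ ¬ IsF (ins w i d) (acell w i d) ∧
  ∀ c : Cell, Disjoint (acell w i d) c →
    (IsF (ins w i d) c ↔ IsF w c) ∧ (IsB (ins w i d) c ↔ IsB w c)

/-- UNI: the cell determines the position -/
def StmUni : Prop :=
  (∀ (w : List Dir) (i j : ℕ) (d e : Dir), SAP w → site w i d → site w j e →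
    acell w i d = acell w j e → i = j ∧ d = e) ∧
  ∀ (w : List Dir) (i j : ℕ), SAP w → 6 ≤ w.length → bump w i → bump w j →
    bcell w i = bcell w j → i = j

/-- TOG: the closed words of class `Q` with the insertions and removals at separated cells -/
def StmTog : Prop := ∀ Q : List Dir → Prop, Inv Q → ∀ R : Finset Cell, Sep R →
  Tog (fun n => K Q (2 * n)) (FL R) (BU R) UP DN

/-! ## SELA, SEL -/

/-- unit squares -/
def IsSq (c : Cell) : Prop := ∃ (p : Z3) (e d : Dir), c = sqr p e d

/-- the cells of `S` which are disjoint from all other cells of `S` -/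
def sel (S : Finset Cell) : Finset Cell := S.filter (fun c => ∀ d ∈ S, d ≠ c → Disjoint c d)

/-- SELA: all but an exponentially small proportion of the subsets `S'` of `S` have many selected
cells in `T` -/
def StmFewSel : Prop := ∃ κ θ : ℝ, 0 < κ ∧ 0 < θ ∧ θ < 1 ∧ ∀ T S : Finset Cell, T ⊆ S →
  (∀ c ∈ S, IsSq c) →
  ((S.powerset.filter (fun S' => ((T.filter (fun c => c ∈ sel S')).card : ℝ) < κ * T.card)).card :
    ℝ) ≤ 2 ^ S.card * θ ^ T.card

/-- `μ⁻²` -/
def zz (Q : List Dir → Prop) : ℝ := (gr Q ^ 2)⁻¹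

/-- the normalized number of closed words with `2 n` letters -/
def PP (Q : List Dir → Prop) (n : ℕ) : ℝ := zz Q ^ n * ((K Q (2 * n)).card : ℝ)

/-- SEL: a separated set of cells with many bumps for most words -/
def StmSel : Prop := ∀ Q : List Dir → Prop, KClass Q → (∃ w, SAP w ∧ Q w) → ∀ k : ℕ,
  ∃ (C c c₁ : ℝ) (N₀ : ℕ), 0 ≤ C ∧ 0 < c ∧ 0 < c₁ ∧ ∀ n ≥ N₀, ∃ R : Finset Cell, Sep R ∧
    ∀ Λ : ℝ, 1 ≤ Λ → (∀ m ≤ 13 * n, PP Q m ≤ Λ * PP Q n) → ∀ i ≤ k,
      zz Q ^ (n + i) *
        (((K Q (2 * (n + i))).filter (fun w => ((BU R w).card : ℝ) < c₁ * n)).card : ℝ) ≤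
          C * Λ * Real.exp (-(c * n)) * PP Q n

/-! ## MOM -/

/-- MOM: moments from Gaussian tails -/
def StmMom : Prop := ∀ k : ℕ, ∃ C : ℝ, 0 ≤ C ∧ ∀ (α : Type) (S : Finset α) (X : α → ℝ) (Λ B : ℝ),
  1 ≤ Λ → 1 ≤ B →
  (∀ t : ℝ, 16 ≤ t → ((S.filter (fun w => t ≤ |X w|)).card : ℝ) ≤
    2 * Λ * Real.exp (-(t ^ 2 / (192 * B))) * (S.card : ℝ)) →
  ∑ w ∈ S, |X w| ^ k ≤ C * Real.sqrt (B * (1 + Real.log Λ)) ^ k * (S.card : ℝ)

end

end Pool.Agent.T6.H6.KS
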