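import Pool.Agent.T6.H6.KS.Words
import Pool.Agent.T6.H92.TG.Qul

/-!
# Lattice knots: all-order smoothness in the length of the law of the knot type
-/

set_option autoImplicit false

namespace Pool.Agent.T6.H6.KS

open Finset Filter Topology KN
open Pool.Agent.T6.H92.TG (Tog D StmDif dif)
open Pool.Agent.T6.H92.TK (zq)
open scoped Classical

noncomputable section

theorem exists_pos_le (k : ℕ) (f : ℕ → ℝ) (hf : ∀ j, 0 < f j) : ∃ δ : ℝ, 0 < δ ∧ ∀ j ≤ k, δ ≤ f j := by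
  induction k with
  | zero => exact ⟨f 0, hf 0, fun j hj => by rw [Nat.le_zero.1 hj]⟩
  | succ k ih =>
    obtain ⟨δ, h1, h2⟩ := ih
    refine ⟨min δ (f (k + 1)), lt_min h1 (hf _), fun j hj => ?_⟩
    rcases Nat.lt_or_ge j (k + 1) with h | h
    · exact (min_le_left _ _).trans (h2 j (by omega))
    · have : j = k + 1 := by omega
      rw [this]; exact min_le_right _ _

theorem exists_nat_ge (k : ℕ) (f : ℕ → ℕ) : ∃ M : ℕ, ∀ j ≤ k, f j ≤ M := by
  induction k with
  | zero => exact ⟨f 0, fun j hj => by rw [Nat.le_zero.1 hj]⟩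
  | succ k ih =>
    obtain ⟨M, h2⟩ := ih
    refine ⟨max M (f (k + 1)), fun j hj => ?_⟩
    rcases Nat.lt_or_ge j (k + 1) with h | h
    · exact (h2 j (by omega)).trans (le_max_left _ _)
    · have : j = k + 1 := by omega
      rw [this]; exact le_max_right _ _

theorem exists_real_ge (k : ℕ) (f : ℕ → ℝ) : ∃ M : ℝ, 0 ≤ M ∧ ∀ j ≤ k, f j ≤ M := by
  refine ⟨∑ j ∈ range (k + 1), |f j|, Finset.sum_nonneg fun _ _ => abs_nonneg _, fun j hj => ?_⟩
  exact (le_abs_self _).trans (Finset.single_le_sum (f := fun j => |f j|)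
    (fun _ _ => abs_nonneg _) (Finset.mem_range.2 (by omega)))

/-- the hypotheses on the growth at the length `2 N` relative to the set `A` -/
structure Gro (Q A : List Dir → Prop) (δ Λ : ℝ) (N : ℕ) : Prop where
  one : 1 ≤ Λ
  log : Real.log Λ ≤ δ * N
  loc : ∀ n : ℕ, N ≤ 2 * n → n ≤ 3 * N → vq Q n ≤ Λ * vv Q A N
  glob : ∀ n ≤ 20 * N, vq Q n ≤ Real.exp (δ * N) * vv Q A N

theorem Gro.mono {Q A : List Dir → Prop} {δ δ' Λ : ℝ} {N : ℕ} (h : Gro Q A δ Λ N) (hv : 0 ≤ vv Q A N)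
    (hd : δ ≤ δ') : Gro Q A δ' Λ N := by
  have hN : (0 : ℝ) ≤ N := Nat.cast_nonneg N
  refine ⟨h.one, h.log.trans (mul_le_mul_of_nonneg_right hd hN), h.loc, fun n hn => ?_⟩
  refine (h.glob n hn).trans ?_
  apply mul_le_mul_of_nonneg_right _ hv
  exact Real.exp_le_exp.2 (mul_le_mul_of_nonneg_right hd hN)

theorem D_one (u : ℕ → ℝ) (n : ℕ) : D 1 u n = u (n + 1) - u n := rfl

/-- consecutive numbers are comparable -/
theorem shiftA {Q : List Dir → Prop} (hQ : KClass Q) (hne : ∃ w, SAP w ∧ Q w) (k : ℕ) :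
    ∃ (δ : ℝ) (N₀ : ℕ), 0 < δ ∧ ∀ N ≥ N₀, ∀ Λ : ℝ, ∀ A : List Dir → Prop, TSet A →
      Gro Q A δ Λ N → ∀ l ≤ k, vv Q A N ≤ 2 ^ l * vv Q A (N + l) ∧
        vv Q A (N + l) ≤ 2 ^ l * vv Q A N := by
  obtain ⟨C, δ₁, N₁, hC, hδ₁, hmain⟩ := mainA hQ hne 1
  set η : ℝ := 1 / (8 * (C ^ 2 + 1)) with hη
  have hη0 : 0 < η := by positivity
  set δ : ℝ := min (δ₁ / 2) η with hδ
  have hδ0 : 0 < δ := lt_min (by positivity) hη0
  have hδa : δ ≤ δ₁ / 2 := min_le_left _ _
  have hδb : δ ≤ η := min_le_right _ _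
  have hl2 : 0 ≤ Real.log 2 := Real.log_nonneg (by norm_num)
  obtain ⟨N₂, hN₂⟩ : ∃ M : ℕ, (1 + k * Real.log 2) / η ≤ M := _root_.exists_nat_ge _
  obtain ⟨N₃, hN₃⟩ : ∃ M : ℕ, (k * Real.log 2) / (δ₁ / 2) ≤ M := _root_.exists_nat_ge _
  refine ⟨δ, max (max N₁ (2 * k + 1)) (max N₂ N₃), hδ0, ?_⟩
  intro N hN Λ A hA hG l
  have a1 : N₁ ≤ N := (le_max_left _ _).trans ((le_max_left _ _).trans hN)
  have a2 : 2 * k + 1 ≤ N := (le_max_right _ _).trans ((le_max_left _ _).trans hN)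
  have a3 : (N₂ : ℝ) ≤ N := by
    exact_mod_cast (le_max_left _ _).trans ((le_max_right _ _).trans hN)
  have a4 : (N₃ : ℝ) ≤ N := by
    exact_mod_cast (le_max_right _ _).trans ((le_max_right _ _).trans hN)
  have hNp : (0 : ℝ) < N := by
    have : 0 < N := by omega
    exact_mod_cast this
  have hL0 : 0 ≤ Real.log Λ := Real.log_nonneg hG.one
  have hΛ0 : 0 < Λ := by linarith [hG.one]
  have b1 : 1 + k * Real.log 2 ≤ η * N := by
    have := hN₂.trans a3
    rw [div_le_iff₀ hη0] at this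
    linarith
  have b2 : k * Real.log 2 ≤ δ₁ / 2 * N := by
    have := hN₃.trans a4
    rw [div_le_iff₀ (by positivity)] at this
    linarith
  have hv := vv_nonneg hQ hne A
  induction l with
  | zero => intro _; simp
  | succ l ih =>
    intro hl
    obtain ⟨i1, i2⟩ := ih (by omega)
    have hlk : (2 : ℝ) ^ l ≤ 2 ^ k := pow_le_pow_right₀ (by norm_num) (by omega)
    have h2k : (2 : ℝ) ^ k = Real.exp (k * Real.log 2) := by
      rw [Real.exp_nat_mul, Real.exp_log (by norm_num)]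
    have hvl := hv (N + l)
    have i1' : vv Q A N ≤ 2 ^ k * vv Q A (N + l) :=
      i1.trans (mul_le_mul_of_nonneg_right hlk hvl)
    have h1k : (1 : ℝ) ≤ 2 ^ k := one_le_pow₀ (by norm_num)
    have hNl : (N : ℝ) ≤ ((N + l : ℕ) : ℝ) := by push_cast; linarith [(Nat.cast_nonneg l : (0 : ℝ) ≤ l)]
    have h1 := hmain (N + l) (by omega) (2 ^ k * Λ) (by nlinarith [hG.one]) A hA
      (fun n hn1 hn2 => by
        refine (hG.loc n (by omega) (by omega)).trans ?_
        calc Λ * vv Q A N ≤ Λ * (2 ^ k * vv Q A (N + l)) := by gcongr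
          _ = _ := by ring)
      (fun n hn => by
        refine (hG.glob n (by omega)).trans ?_
        calc Real.exp (δ * N) * vv Q A N ≤ Real.exp (δ * N) * (2 ^ k * vv Q A (N + l)) := by gcongr
          _ = Real.exp (δ * N + k * Real.log 2) * vv Q A (N + l) := by
              rw [Real.exp_add, h2k]; ring
          _ ≤ _ := by
              apply mul_le_mul_of_nonneg_right _ hvl
              apply Real.exp_le_exp.2
              calc δ * N + k * Real.log 2 ≤ δ₁ / 2 * N + δ₁ / 2 * N := by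
                    have : δ * N ≤ δ₁ / 2 * N := mul_le_mul_of_nonneg_right hδa hNp.le
                    linarith
                _ = δ₁ * N := by ring
                _ ≤ _ := by gcongr)
      (fun _ => 1) (fun _ _ _ _ _ => rfl) (fun _ => by simp)
    have h2 : ∀ n, zq Q ^ n * ∑ w ∈ K (IA Q A) (2 * n), (1 : ℝ) = vv Q A n := by
      intro n
      unfold vv a
      simp
    rw [D_one, pow_one] at h1
    simp only [h2] at h1
    have h3 : C * Real.sqrt ((1 + Real.log (2 ^ k * Λ)) / ((N + l : ℕ) : ℝ)) ≤ 1 / 2 := by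
      have e1 : Real.log (2 ^ k * Λ) = k * Real.log 2 + Real.log Λ := by
        rw [Real.log_mul (by positivity) hΛ0.ne', Real.log_pow]
      have e2 : (1 + Real.log (2 ^ k * Λ)) / ((N + l : ℕ) : ℝ) ≤ 2 * η := by
        rw [div_le_iff₀ (by linarith), e1]
        have : Real.log Λ ≤ η * N := hG.log.trans (mul_le_mul_of_nonneg_right hδb hNp.le)
        nlinarith
      have e3 : C ^ 2 * (2 * η) ≤ (1 / 2) ^ 2 := by
        rw [hη]
        have : C ^ 2 * (2 * (1 / (8 * (C ^ 2 + 1)))) = (1 / 4) * (C ^ 2 / (C ^ 2 + 1)) := by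
          field_simp
          ring
        rw [this]
        have h4 : C ^ 2 / (C ^ 2 + 1) ≤ 1 := by
          rw [div_le_one (by positivity)]; linarith
        linarith
      calc C * Real.sqrt ((1 + Real.log (2 ^ k * Λ)) / ((N + l : ℕ) : ℝ)) ≤
          C * Real.sqrt (2 * η) := by gcongr
        _ = Real.sqrt (C ^ 2 * (2 * η)) := by
            rw [Real.sqrt_mul (sq_nonneg C) (2 * η), Real.sqrt_sq hC]
        _ ≤ Real.sqrt ((1 / 2) ^ 2) := Real.sqrt_le_sqrt e3
        _ = 1 / 2 := by rw [Real.sqrt_sq (by norm_num)]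
    have h4 : |vv Q A (N + l + 1) - vv Q A (N + l)| ≤ 1 / 2 * vv Q A (N + l) := by
      refine h1.trans ?_
      rw [← mul_assoc]
      exact mul_le_mul_of_nonneg_right h3 hvl
    rw [abs_le] at h4
    have e : N + (l + 1) = N + l + 1 := by ring
    rw [e, pow_succ]
    have h2l : (0 : ℝ) < 2 ^ l := by positivity
    constructor
    · calc vv Q A N ≤ 2 ^ l * vv Q A (N + l) := i1
        _ ≤ 2 ^ l * (2 * vv Q A (N + l + 1)) := by
            apply mul_le_mul_of_nonneg_left _ h2l.le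
            linarith [h4.1]
        _ = _ := by ring
    · calc vv Q A (N + l + 1) ≤ 2 * vv Q A (N + l) := by linarith [h4.2]
        _ ≤ 2 * (2 ^ l * vv Q A N) := by linarith
        _ = _ := by ring

/-- the main estimate at the lengths `2 (N + l)`, `l ≤ k` -/
theorem mainS {Q : List Dir → Prop} (hQ : KClass Q) (hne : ∃ w, SAP w ∧ Q w) (k : ℕ) :
    ∃ (C δ : ℝ) (N₀ : ℕ), 0 ≤ C ∧ 0 < δ ∧ ∀ N ≥ N₀, ∀ Λ : ℝ, ∀ A : List Dir → Prop, TSet A →
      Gro Q A δ Λ N → (∀ l ≤ k, vv Q A N ≤ 2 ^ k * vv Q A (N + l)) ∧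
      ∀ F : List Dir → ℝ, TFun F → (∀ w, |F w| ≤ 1) → ∀ j ≤ k, ∀ l ≤ k,
        |D j (fun n => zq Q ^ n * ∑ w ∈ K (IA Q A) (2 * n), F w) (N + l)| ≤
          C * (Real.sqrt ((1 + Real.log Λ) / N) ^ j * vv Q A N) := by
  choose Cj δj Nj hCj hδj hmain using fun j => mainA hQ hne j
  obtain ⟨δ₁, hδ₁, hδ₁'⟩ := exists_pos_le k δj hδj
  obtain ⟨N₁, hN₁⟩ := exists_nat_ge k Nj
  obtain ⟨C₁, hC₁0, hC₁⟩ := exists_real_ge k Cj
  obtain ⟨δ₂, N₂, hδ₂, hshift⟩ := shiftA hQ hne k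
  have hl2 : 0 ≤ Real.log 2 := Real.log_nonneg (by norm_num)
  obtain ⟨N₃, hN₃⟩ : ∃ M : ℕ, (k * Real.log 2) / (δ₁ / 2) ≤ M := _root_.exists_nat_ge _
  set δ : ℝ := min (δ₁ / 2) δ₂ with hδ
  have hδ0 : 0 < δ := lt_min (by positivity) hδ₂
  have hδa : δ ≤ δ₁ / 2 := min_le_left _ _
  have hδb : δ ≤ δ₂ := min_le_right _ _
  set κ : ℝ := 1 + k * Real.log 2 with hκ
  have hκ1 : 1 ≤ κ := by
    have : 0 ≤ k * Real.log 2 := by positivity
    rw [hκ]; linarith
  refine ⟨C₁ * (κ ^ k * 2 ^ k), δ, max (max N₁ (2 * k + 1)) (max N₂ N₃), by positivity, hδ0, ?_⟩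
  intro N hN Λ A hA hG
  have a1 : N₁ ≤ N := (le_max_left _ _).trans ((le_max_left _ _).trans hN)
  have a2 : 2 * k + 1 ≤ N := (le_max_right _ _).trans ((le_max_left _ _).trans hN)
  have a3 : N₂ ≤ N := (le_max_left _ _).trans ((le_max_right _ _).trans hN)
  have a4 : (N₃ : ℝ) ≤ N := by
    exact_mod_cast (le_max_right _ _).trans ((le_max_right _ _).trans hN)
  have hNp : (0 : ℝ) < N := by
    have : 0 < N := by omega
    exact_mod_cast this
  have hL0 : 0 ≤ Real.log Λ := Real.log_nonneg hG.one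
  have hΛ0 : 0 < Λ := by linarith [hG.one]
  have b2 : k * Real.log 2 ≤ δ₁ / 2 * N := by
    have := hN₃.trans a4
    rw [div_le_iff₀ (by positivity)] at this
    linarith
  have hv := vv_nonneg hQ hne A
  have hs := hshift N a3 Λ A hA (hG.mono (hv N) hδb)
  have h2k : (2 : ℝ) ^ k = Real.exp (k * Real.log 2) := by
    rw [Real.exp_nat_mul, Real.exp_log (by norm_num)]
  have h1k : (1 : ℝ) ≤ 2 ^ k := one_le_pow₀ (by norm_num)
  have hlo : ∀ l ≤ k, vv Q A N ≤ 2 ^ k * vv Q A (N + l) := fun l hl =>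
    (hs l hl).1.trans (mul_le_mul_of_nonneg_right
      (pow_le_pow_right₀ (by norm_num) hl) (hv _))
  refine ⟨hlo, ?_⟩
  intro F hF hF1 j hj l hl
  have hNl : (N : ℝ) ≤ ((N + l : ℕ) : ℝ) := by push_cast; linarith [(Nat.cast_nonneg l : (0 : ℝ) ≤ l)]
  have h1 := hmain j (N + l) ((hN₁ j hj).trans (by omega)) (2 ^ k * Λ) (by nlinarith [hG.one]) A hA
    (fun n hn1 hn2 => by
      refine (hG.loc n (by omega) (by omega)).trans ?_
      calc Λ * vv Q A N ≤ Λ * (2 ^ k * vv Q A (N + l)) :=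
            mul_le_mul_of_nonneg_left (hlo l hl) hΛ0.le
        _ = _ := by ring)
    (fun n hn => by
      refine (hG.glob n (by omega)).trans ?_
      calc Real.exp (δ * N) * vv Q A N ≤ Real.exp (δ * N) * (2 ^ k * vv Q A (N + l)) :=
            mul_le_mul_of_nonneg_left (hlo l hl) (Real.exp_pos _).le
        _ = Real.exp (δ * N + k * Real.log 2) * vv Q A (N + l) := by
            rw [Real.exp_add, h2k]; ring
        _ ≤ _ := by
            apply mul_le_mul_of_nonneg_right _ (hv _)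
            apply Real.exp_le_exp.2
            calc δ * N + k * Real.log 2 ≤ δ₁ / 2 * N + δ₁ / 2 * N := by
                  have : δ * N ≤ δ₁ / 2 * N := mul_le_mul_of_nonneg_right hδa hNp.le
                  linarith
              _ = δ₁ * N := by ring
              _ ≤ δj j * ((N + l : ℕ) : ℝ) :=
                  mul_le_mul (hδ₁' j hj) hNl hNp.le (hδj j).le)
    F hF hF1
  refine h1.trans ?_
  have e1 : Real.log (2 ^ k * Λ) = k * Real.log 2 + Real.log Λ := by
    rw [Real.log_mul (by positivity) hΛ0.ne', Real.log_pow]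
  have e2 : Real.sqrt ((1 + Real.log (2 ^ k * Λ)) / ((N + l : ℕ) : ℝ)) ≤
      κ * Real.sqrt ((1 + Real.log Λ) / N) := by
    have e3 : (1 + Real.log (2 ^ k * Λ)) / ((N + l : ℕ) : ℝ) ≤
        κ ^ 2 * ((1 + Real.log Λ) / N) := by
      rw [e1]
      calc (1 + (k * Real.log 2 + Real.log Λ)) / ((N + l : ℕ) : ℝ) ≤
          (1 + (k * Real.log 2 + Real.log Λ)) / N := by
            apply div_le_div_of_nonneg_left _ hNp hNl
            positivity
        _ ≤ (κ ^ 2 * (1 + Real.log Λ)) / N := by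
            apply div_le_div_of_nonneg_right _ hNp.le
            have h5 : κ ≤ κ ^ 2 := by nlinarith
            have h6 : 1 + (k * Real.log 2 + Real.log Λ) ≤ κ * (1 + Real.log Λ) := by
              have : 0 ≤ k * Real.log 2 := by positivity
              rw [hκ]
              nlinarith
            nlinarith
        _ = _ := by ring
    calc Real.sqrt ((1 + Real.log (2 ^ k * Λ)) / ((N + l : ℕ) : ℝ)) ≤
        Real.sqrt (κ ^ 2 * ((1 + Real.log Λ) / N)) := Real.sqrt_le_sqrt e3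
      _ = κ * Real.sqrt ((1 + Real.log Λ) / N) := by
          rw [Real.sqrt_mul (by positivity), Real.sqrt_sq (by linarith)]
  have e4 : Real.sqrt ((1 + Real.log (2 ^ k * Λ)) / ((N + l : ℕ) : ℝ)) ^ j ≤
      κ ^ k * Real.sqrt ((1 + Real.log Λ) / N) ^ j := by
    calc _ ≤ (κ * Real.sqrt ((1 + Real.log Λ) / N)) ^ j :=
          pow_le_pow_left₀ (Real.sqrt_nonneg _) e2 j
      _ = κ ^ j * Real.sqrt ((1 + Real.log Λ) / N) ^ j := by rw [mul_pow]
      _ ≤ _ := by
          apply mul_le_mul_of_nonneg_right _ (by positivity)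
          exact pow_le_pow_right₀ hκ1 hj
  have e5 : vv Q A (N + l) ≤ 2 ^ k * vv Q A N :=
    (hs l hl).2.trans (mul_le_mul_of_nonneg_right
      (pow_le_pow_right₀ (by norm_num) hl) (hv _))
  calc Cj j * (Real.sqrt ((1 + Real.log (2 ^ k * Λ)) / ((N + l : ℕ) : ℝ)) ^ j * vv Q A (N + l)) ≤
      C₁ * ((κ ^ k * Real.sqrt ((1 + Real.log Λ) / N) ^ j) * (2 ^ k * vv Q A N)) := by
        apply mul_le_mul (hC₁ j hj) _ (by have := hv (N + l); positivity) hC₁0
        apply mul_le_mul e4 e5 (hv _) (by positivity)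
    _ = _ := by ring

/-- **the law of the knot type** -/
theorem law {Q : List Dir → Prop} (hQ : KClass Q) (hne : ∃ w, SAP w ∧ Q w) (k : ℕ) :
    ∃ (C δ : ℝ) (N₀ : ℕ), 0 ≤ C ∧ 0 < δ ∧ ∀ N ≥ N₀, ∀ Λ : ℝ, ∀ A B : List Dir → Prop,
      TSet A → TSet B → (∀ w, A w → B w) → 0 < vv Q A N → Gro Q A δ Λ N →
      ∀ F : List Dir → ℝ, TFun F → (∀ w, |F w| ≤ 1) →
        |D k (fun n => (∑ w ∈ K (IA Q A) (2 * n), F w) / (a (IA Q B) (2 * n) : ℝ)) N| ≤
          C * (Real.sqrt ((1 + Real.log Λ) / N) ^ k *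
            ((a (IA Q A) (2 * N) : ℝ) / (a (IA Q B) (2 * N) : ℝ))) := by
  obtain ⟨Cm, δ, N₀, hCm, hδ, hmain⟩ := mainS hQ hne k
  obtain ⟨C, hqul⟩ := Pool.Agent.T6.H92.TG.qul k Cm (1 / 2 ^ k) (by positivity)
  refine ⟨|C|, δ, N₀, abs_nonneg _, hδ, ?_⟩
  intro N hN Λ A B hA hB hAB hpos hG F hF hF1
  have hz0 := (zq_pos hQ hne).1
  have hAB' : ∀ n, K (IA Q A) n ⊆ K (IA Q B) n := by
    intro n w hw
    rw [K_IA, Finset.mem_filter] at hw ⊢
    exact ⟨hw.1, hAB w hw.2⟩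
  have hvAB : ∀ n, vv Q A n ≤ vv Q B n := by
    intro n
    unfold vv
    apply mul_le_mul_of_nonneg_left _ (by positivity)
    have : a (IA Q A) (2 * n) ≤ a (IA Q B) (2 * n) := Finset.card_le_card (hAB' _)
    exact_mod_cast this
  have hΛ0 : 0 < Λ := by linarith [hG.one]
  have hGB : Gro Q B δ Λ N := by
    refine ⟨hG.one, hG.log, fun n h1 h2 => (hG.loc n h1 h2).trans ?_,
      fun n hn => (hG.glob n hn).trans ?_⟩
    · exact mul_le_mul_of_nonneg_left (hvAB N) hΛ0.le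
    · exact mul_le_mul_of_nonneg_left (hvAB N) (Real.exp_pos _).le
  obtain ⟨s1, m1⟩ := hmain N hN Λ B hB hGB
  obtain ⟨-, m2⟩ := hmain N hN Λ A hA hG
  have hvB : 0 < vv Q B N := lt_of_lt_of_le hpos (hvAB N)
  set ε : ℝ := Real.sqrt ((1 + Real.log Λ) / N) with hε
  have hε0 : 0 ≤ ε := Real.sqrt_nonneg _
  set Bc : ℝ := vv Q A N / vv Q B N with hBc
  have hBc0 : 0 ≤ Bc := by positivity
  have hone : ∀ n, zq Q ^ n * ∑ w ∈ K (IA Q B) (2 * n), (1 : ℝ) = vv Q B n := by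
    intro n
    unfold vv a
    simp
  have hprod : ∀ n, (∑ w ∈ K (IA Q A) (2 * n), F w) / (a (IA Q B) (2 * n) : ℝ) * vv Q B n =
      zq Q ^ n * ∑ w ∈ K (IA Q A) (2 * n), F w := by
    intro n
    unfold vv
    by_cases h0 : (a (IA Q B) (2 * n) : ℝ) = 0
    · have h1 : K (IA Q B) (2 * n) = ∅ := by
        have : a (IA Q B) (2 * n) = 0 := by exact_mod_cast h0
        exact Finset.card_eq_zero.1 this
      have h2 : K (IA Q A) (2 * n) = ∅ := by
        have := hAB' (2 * n)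
        rw [h1] at this
        exact Finset.subset_empty.1 this
      rw [h2]
      simp
    · field_simp
  have h := hqul (fun n => (∑ w ∈ K (IA Q A) (2 * n), F w) / (a (IA Q B) (2 * n) : ℝ))
    (fun n => vv Q B n) N ε Bc hε0 hBc0 hvB
    (fun l hl => by
      have := s1 l hl
      have h2 : (0 : ℝ) < 2 ^ k := by positivity
      rw [one_div, inv_mul_le_iff₀ h2]
      exact this)
    (fun j hj l hl => by
      have := m1 (fun _ => 1) (fun _ _ _ _ _ => rfl) (fun _ => by simp) j hj l hl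
      simp only [hone] at this
      exact this)
    (fun j hj => by
      have h1 := m2 F hF hF1 j hj 0 (Nat.zero_le _)
      rw [add_zero] at h1
      have h2 : (fun m => (∑ w ∈ K (IA Q A) (2 * m), F w) / (a (IA Q B) (2 * m) : ℝ) * vv Q B m) =
          fun m => zq Q ^ m * ∑ w ∈ K (IA Q A) (2 * m), F w := funext hprod
      have h3 : Bc * vv Q B N = vv Q A N := by
        rw [hBc]; field_simp
      rw [h3]
      rw [h2]
      exact h1) k le_rfl
  have hBc' : Bc = (a (IA Q A) (2 * N) : ℝ) / (a (IA Q B) (2 * N) : ℝ) := by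
    rw [hBc]
    unfold vv
    have : zq Q ^ N ≠ 0 := (pow_pos hz0 N).ne'
    rw [mul_div_mul_left _ _ this]
  rw [← hBc']
  calc _ ≤ _ := h
    _ ≤ _ := mul_le_mul_of_nonneg_right (le_abs_self C) (by positivity)

end

end Pool.Agent.T6.H6.KS
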