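import Pool.Agent.T6.H6.KS.Long

/-!
# Lattice knots: all-order smoothness in the length of quotients
-/

set_option autoImplicit false

namespace Pool.Agent.T6.H6.KS

open Finset Filter Topology KN
open Pool.Agent.T6.H92.TG (Tog D StmDif dif)
open Pool.Agent.T6.H92.TK (zq)
open scoped Classical

noncomputable section

/-- **the law of the knot type** -/
theorem law2 {Q : List Dir → Prop} (hQ : KClass Q) (hne : ∃ w, SAP w ∧ Q w) (k : ℕ) :
    ∃ (C δ : ℝ) (N₀ : ℕ), 0 ≤ C ∧ 0 < δ ∧ ∀ N ≥ N₀, ∀ Λ : ℝ, ∀ A B : List Dir → Prop,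
      TSet A → TSet B → 0 < vv Q B N → Gro Q A δ Λ N → Gro Q B δ Λ N →
      ∀ F : List Dir → ℝ, TFun F → (∀ w, |F w| ≤ 1) →
        |D k (fun n => (∑ w ∈ K (IA Q A) (2 * n), F w) / (a (IA Q B) (2 * n) : ℝ)) N| ≤
          C * (Real.sqrt ((1 + Real.log Λ) / N) ^ k *
            ((a (IA Q A) (2 * N) : ℝ) / (a (IA Q B) (2 * N) : ℝ))) := by
  obtain ⟨Cm, δ, N₀, hCm, hδ, hmain⟩ := mainS hQ hne k
  obtain ⟨C, hqul⟩ := Pool.Agent.T6.H92.TG.qul k Cm (1 / 2 ^ k) (by positivity)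
  refine ⟨|C|, δ, N₀, abs_nonneg _, hδ, ?_⟩
  intro N hN Λ A B hA hB hvB hG hGB F hF hF1
  have hz0 := (zq_pos hQ hne).1
  obtain ⟨s1, m1⟩ := hmain N hN Λ B hB hGB
  obtain ⟨-, m2⟩ := hmain N hN Λ A hA hG
  have hvA := vv_nonneg hQ hne A N
  set ε : ℝ := Real.sqrt ((1 + Real.log Λ) / N) with hε
  have hε0 : 0 ≤ ε := Real.sqrt_nonneg _
  set Bc : ℝ := vv Q A N / vv Q B N with hBc
  have hBc0 : 0 ≤ Bc := by positivity
  have hone : ∀ n, zq Q ^ n * ∑ w ∈ K (IA Q B) (2 * n), (1 : ℝ) = vv Q B n := by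
    intro n
    unfold vv a
    simp
  have hprod : ∀ n, 0 < vv Q B n →
      (∑ w ∈ K (IA Q A) (2 * n), F w) / (a (IA Q B) (2 * n) : ℝ) * vv Q B n =
      zq Q ^ n * ∑ w ∈ K (IA Q A) (2 * n), F w := by
    intro n hn
    unfold vv at hn ⊢
    have h0 : (a (IA Q B) (2 * n) : ℝ) ≠ 0 := by
      intro h0
      rw [h0, mul_zero] at hn
      exact lt_irrefl _ hn
    field_simp
  have h := hqul (fun n => (∑ w ∈ K (IA Q A) (2 * n), F w) / (a (IA Q B) (2 * n) : ℝ))
    (fun n => vv Q B n) N ε Bc hε0 hBc0 hvB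
    (fun l hl => by
      have := s1 l hl
      have h2 : (0 : ℝ) < 2 ^ k := by positivity
      rw [one_div, inv_mul_le_iff₀ h2]
      exact this)
    (fun j hj l hl => by
      have := m1 (fun _ => 1) (fun _ _ _ _ _ => rfl) (fun _ => by simp) j hj l hl
      simp only [hone] at this
      exact this)
    (fun j hj => by
      have h1 := m2 F hF hF1 j hj 0 (Nat.zero_le _)
      rw [add_zero] at h1
      have h2 : D j (fun m => (∑ w ∈ K (IA Q A) (2 * m), F w) / (a (IA Q B) (2 * m) : ℝ) *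
          vv Q B m) N = D j (fun m => zq Q ^ m * ∑ w ∈ K (IA Q A) (2 * m), F w) N := by
        apply Pool.Agent.T6.H92.TG.D_congr
        intro i hi1 hi2
        apply hprod
        obtain ⟨l, rfl⟩ := Nat.exists_eq_add_of_le hi1
        have h5 := s1 l (by omega)
        by_contra hcon
        have h6 : vv Q B (N + l) ≤ 0 := not_lt.1 hcon
        have h7 : (0 : ℝ) < 2 ^ k := by positivity
        nlinarith
      have h3 : Bc * vv Q B N = vv Q A N := by
        rw [hBc]; field_simp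
      rw [h3]
      rw [h2]
      exact h1) k le_rfl
  have hBc' : Bc = (a (IA Q A) (2 * N) : ℝ) / (a (IA Q B) (2 * N) : ℝ) := by
    rw [hBc]
    unfold vv
    have : zq Q ^ N ≠ 0 := (pow_pos hz0 N).ne'
    rw [mul_div_mul_left _ _ this]
  rw [← hBc']
  calc _ ≤ _ := h
    _ ≤ _ := mul_le_mul_of_nonneg_right (le_abs_self C) (by positivity)

/-- **the law in long windows** -/
theorem lawL2 {Q : List Dir → Prop} (hQ : KClass Q) (hne : ∃ w, SAP w ∧ Q w) (k : ℕ) (W : ℝ) :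
    ∃ (C δ : ℝ) (N₀ : ℕ), 0 ≤ C ∧ 0 < δ ∧ ∀ N ≥ N₀, ∀ Λ : ℝ, ∀ A B : List Dir → Prop,
      TSet A → TSet B → 0 < vv Q B N → GroL Q A δ Λ N → GroL Q B δ Λ N →
      ∀ F : List Dir → ℝ, TFun F → (∀ w, |F w| ≤ 1) →
        ∀ l : ℕ, (l : ℝ) * Real.sqrt ((1 + Real.log Λ) / N) ≤ W → 2 * l ≤ N ∧
        |D k (fun n => (∑ w ∈ K (IA Q A) (2 * n), F w) / (a (IA Q B) (2 * n) : ℝ)) (N + l)| ≤
          C * (Real.sqrt ((1 + Real.log Λ) / N) ^ k *
            ((a (IA Q A) (2 * N) : ℝ) / (a (IA Q B) (2 * N) : ℝ))) := by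
  obtain ⟨C₁, δ₁, N₁, hC₁, hδ₁, hlaw⟩ := law2 hQ hne k
  obtain ⟨K₀, δ₂, N₂, hK₀, hδ₂, hshift⟩ := shiftL hQ hne W
  set x : ℝ := Real.log K₀ with hx
  have hK₀p : 0 < K₀ := by linarith
  have hx0 : 0 ≤ x := Real.log_nonneg hK₀
  have hxe : Real.exp x = K₀ := Real.exp_log hK₀p
  set δ : ℝ := min (δ₁ / 2) δ₂ with hδ
  have hδ0 : 0 < δ := lt_min (by positivity) hδ₂
  have hδa : δ ≤ δ₁ / 2 := min_le_left _ _
  have hδb : δ ≤ δ₂ := min_le_right _ _
  obtain ⟨N₃, hN₃⟩ : ∃ M : ℕ, x / (δ₁ / 2) ≤ M := _root_.exists_nat_ge _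
  set κ : ℝ := 1 + x with hκ
  have hκ1 : 1 ≤ κ := by rw [hκ]; linarith
  refine ⟨C₁ * (κ ^ k * K₀ ^ 2), δ, max (max N₁ 1) (max N₂ N₃), by positivity, hδ0, ?_⟩
  intro N hN Λ A B hA hB hvB hG hG2 F hF hF1 l hl
  have a1 : N₁ ≤ N := (le_max_left _ _).trans ((le_max_left _ _).trans hN)
  have a2 : 1 ≤ N := (le_max_right _ _).trans ((le_max_left _ _).trans hN)
  have a3 : N₂ ≤ N := (le_max_left _ _).trans ((le_max_right _ _).trans hN)
  have a4 : (N₃ : ℝ) ≤ N := by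
    exact_mod_cast (le_max_right _ _).trans ((le_max_right _ _).trans hN)
  have hNp : (0 : ℝ) < N := by exact_mod_cast (by omega : 0 < N)
  have hL0 : 0 ≤ Real.log Λ := Real.log_nonneg hG.one
  have hΛ0 : 0 < Λ := by linarith [hG.one]
  have b2 : x ≤ δ₁ / 2 * N := by
    have := hN₃.trans a4
    rw [div_le_iff₀ (by positivity)] at this
    linarith
  have hv := vv_nonneg hQ hne
  have hz0 := (zq_pos hQ hne).1
  have hd : δ * N ≤ δ₂ * N := mul_le_mul_of_nonneg_right hδb hNp.le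
  have hGA : GroL Q A δ₂ Λ N := ⟨hG.one, hG.log.trans hd, hG.loc, fun n hn =>
    (hG.glob n hn).trans (mul_le_mul_of_nonneg_right (Real.exp_le_exp.2 hd) (hv A N))⟩
  have hGB : GroL Q B δ₂ Λ N := ⟨hG2.one, hG2.log.trans hd, hG2.loc, fun n hn =>
    (hG2.glob n hn).trans (mul_le_mul_of_nonneg_right (Real.exp_le_exp.2 hd) (hv B N))⟩
  obtain ⟨s0, s1, s2⟩ := hshift N a3 Λ A hA hGA l hl
  obtain ⟨-, t1, t2⟩ := hshift N a3 Λ B hB hGB l hl
  refine ⟨s0, ?_⟩
  have hNl : (N : ℝ) ≤ ((N + l : ℕ) : ℝ) := by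
    push_cast; linarith [(Nat.cast_nonneg l : (0 : ℝ) ≤ l)]
  have hvBl : 0 < vv Q B (N + l) := by
    by_contra hcon
    have : vv Q B (N + l) = 0 := le_antisymm (not_lt.1 hcon) (hv B _)
    rw [this, mul_zero] at t1
    linarith
  have e1 : Real.log (K₀ * Λ) = x + Real.log Λ := by
    rw [Real.log_mul hK₀p.ne' hΛ0.ne']
  have hGen : ∀ A : List Dir → Prop, GroL Q A δ Λ N → vv Q A N ≤ K₀ * vv Q A (N + l) →
      Gro Q A δ₁ (K₀ * Λ) (N + l) := by
      intro A hG s1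
      refine ⟨by nlinarith [hG.one], ?_, ?_, ?_⟩
      · rw [e1]
        calc x + Real.log Λ ≤ δ₁ / 2 * N + δ₁ / 2 * N := by
              have : Real.log Λ ≤ δ₁ / 2 * N := hG.log.trans (mul_le_mul_of_nonneg_right hδa hNp.le)
              linarith
          _ = δ₁ * N := by ring
          _ ≤ _ := by gcongr
      · intro n hn1 hn2
        refine (hG.loc n (by omega) (by omega)).trans ?_
        calc Λ * vv Q A N ≤ Λ * (K₀ * vv Q A (N + l)) := mul_le_mul_of_nonneg_left s1 hΛ0.le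
          _ = _ := by ring
      · intro n hn
        refine (hG.glob n (by omega)).trans ?_
        calc Real.exp (δ * N) * vv Q A N ≤ Real.exp (δ * N) * (K₀ * vv Q A (N + l)) :=
              mul_le_mul_of_nonneg_left s1 (Real.exp_pos _).le
          _ = Real.exp (δ * N + x) * vv Q A (N + l) := by
              rw [Real.exp_add, hxe]; ring
          _ ≤ _ := by
              apply mul_le_mul_of_nonneg_right _ (hv A _)
              apply Real.exp_le_exp.2
              calc δ * N + x ≤ δ₁ / 2 * N + δ₁ / 2 * N := by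
                    have : δ * N ≤ δ₁ / 2 * N := mul_le_mul_of_nonneg_right hδa hNp.le
                    linarith
                _ = δ₁ * N := by ring
                _ ≤ _ := by gcongr
  have h := hlaw (N + l) (by omega) (K₀ * Λ) A B hA hB hvBl (hGen A hG s1) (hGen B hG2 t1) F hF hF1
  refine h.trans ?_
  have e2 : Real.sqrt ((1 + Real.log (K₀ * Λ)) / ((N + l : ℕ) : ℝ)) ≤
      κ * Real.sqrt ((1 + Real.log Λ) / N) := by
    have e3 : (1 + Real.log (K₀ * Λ)) / ((N + l : ℕ) : ℝ) ≤ κ ^ 2 * ((1 + Real.log Λ) / N) := by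
      rw [e1]
      calc (1 + (x + Real.log Λ)) / ((N + l : ℕ) : ℝ) ≤ (1 + (x + Real.log Λ)) / N := by
            apply div_le_div_of_nonneg_left _ hNp hNl
            positivity
        _ ≤ (κ ^ 2 * (1 + Real.log Λ)) / N := by
            apply div_le_div_of_nonneg_right _ hNp.le
            have h5 : κ ≤ κ ^ 2 := by nlinarith
            have h6 : 1 + (x + Real.log Λ) ≤ κ * (1 + Real.log Λ) := by
              rw [hκ]
              nlinarith
            nlinarith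
        _ = _ := by ring
    calc _ ≤ Real.sqrt (κ ^ 2 * ((1 + Real.log Λ) / N)) := Real.sqrt_le_sqrt e3
      _ = κ * Real.sqrt ((1 + Real.log Λ) / N) := by
          rw [Real.sqrt_mul (sq_nonneg κ), Real.sqrt_sq (by linarith)]
  have e4 : Real.sqrt ((1 + Real.log (K₀ * Λ)) / ((N + l : ℕ) : ℝ)) ^ k ≤
      κ ^ k * Real.sqrt ((1 + Real.log Λ) / N) ^ k := by
    calc _ ≤ (κ * Real.sqrt ((1 + Real.log Λ) / N)) ^ k :=
          pow_le_pow_left₀ (Real.sqrt_nonneg _) e2 k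
      _ = _ := by rw [mul_pow]
  have hvA := hv A N
  have hrat : ∀ n, (a (IA Q A) (2 * n) : ℝ) / (a (IA Q B) (2 * n) : ℝ) = vv Q A n / vv Q B n := by
    intro n
    unfold vv
    have : zq Q ^ n ≠ 0 := (pow_pos hz0 n).ne'
    rw [mul_div_mul_left _ _ this]
  rw [hrat, hrat]
  have e5 : vv Q A (N + l) / vv Q B (N + l) ≤ K₀ ^ 2 * (vv Q A N / vv Q B N) := by
    rw [← mul_div_assoc, div_le_div_iff₀ hvBl hvB]
    calc vv Q A (N + l) * vv Q B N ≤ (K₀ * vv Q A N) * (K₀ * vv Q B (N + l)) :=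
          mul_le_mul s2 t1 hvB.le (by positivity)
      _ = _ := by ring
  calc C₁ * (Real.sqrt ((1 + Real.log (K₀ * Λ)) / ((N + l : ℕ) : ℝ)) ^ k *
      (vv Q A (N + l) / vv Q B (N + l))) ≤
      C₁ * ((κ ^ k * Real.sqrt ((1 + Real.log Λ) / N) ^ k) * (K₀ ^ 2 * (vv Q A N / vv Q B N))) := by
        apply mul_le_mul_of_nonneg_left _ hC₁
        exact mul_le_mul e4 e5 (div_nonneg (hv A _) (hv B _)) (by positivity)
    _ = _ := by ring

end

end Pool.Agent.T6.H6.KS
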