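import Pool.Agent.T6.H6.KS.Law

/-!
# Lattice knots: windows of the length `√(n / log Λ)`
-/

set_option autoImplicit false

namespace Pool.Agent.T6.H6.KS

open Finset Filter Topology KN
open Pool.Agent.T6.H92.TG (Tog D StmDif dif)
open Pool.Agent.T6.H92.TK (zq)
open scoped Classical

noncomputable section

/-- the hypotheses on the growth, larger windows -/
structure GroL (Q A : List Dir → Prop) (δ Λ : ℝ) (N : ℕ) : Prop where
  one : 1 ≤ Λ
  log : Real.log Λ ≤ δ * N
  loc : ∀ n : ℕ, N ≤ 2 * n → n ≤ 5 * N → vq Q n ≤ Λ * vv Q A N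
  glob : ∀ n ≤ 40 * N, vq Q n ≤ Real.exp (δ * N) * vv Q A N

/-- the numbers are comparable in long windows -/
theorem shiftL {Q : List Dir → Prop} (hQ : KClass Q) (hne : ∃ w, SAP w ∧ Q w) (W : ℝ) :
    ∃ (K δ : ℝ) (N₀ : ℕ), 1 ≤ K ∧ 0 < δ ∧ ∀ N ≥ N₀, ∀ Λ : ℝ, ∀ A : List Dir → Prop, TSet A →
      GroL Q A δ Λ N → ∀ l : ℕ, (l : ℝ) * Real.sqrt ((1 + Real.log Λ) / N) ≤ W →
        2 * l ≤ N ∧ vv Q A N ≤ K * vv Q A (N + l) ∧ vv Q A (N + l) ≤ K * vv Q A N := by
  obtain ⟨C, δ₁, N₁, hC, hδ₁, hmain⟩ := mainA hQ hne 1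
  set x : ℝ := 4 * (C * W) ^ 2 + 2 with hx
  have hx0 : 0 < x := by positivity
  set κ : ℝ := Real.sqrt (1 + x) with hκ
  have hκ0 : 0 < κ := Real.sqrt_pos.2 (by linarith)
  have hκ2 : κ ^ 2 = 1 + x := Real.sq_sqrt (by linarith)
  have hxk : 2 * (C * κ) * W ≤ x := by
    have h1 : (2 * (C * κ) * W) ^ 2 ≤ x ^ 2 := by
      have : (2 * (C * κ) * W) ^ 2 = 4 * (C * W) ^ 2 * (1 + x) := by rw [← hκ2]; ring
      rw [this, hx]
      nlinarith [sq_nonneg (C * W)]
    exact le_of_sq_le_sq h1 hx0.le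
  set K : ℝ := Real.exp x with hK
  have hK1 : 1 ≤ K := Real.one_le_exp hx0.le
  set η : ℝ := 1 / (8 * (C ^ 2 * κ ^ 2 + 1)) with hη
  have hη0 : 0 < η := by positivity
  set δ : ℝ := min (δ₁ / 2) η with hδ
  have hδ0 : 0 < δ := lt_min (by positivity) hη0
  have hδa : δ ≤ δ₁ / 2 := min_le_left _ _
  have hδb : δ ≤ η := min_le_right _ _
  obtain ⟨N₂, hN₂⟩ : ∃ M : ℕ, 1 / η ≤ M := _root_.exists_nat_ge _
  obtain ⟨N₃, hN₃⟩ : ∃ M : ℕ, x / (δ₁ / 2) ≤ M := _root_.exists_nat_ge _
  obtain ⟨N₄, hN₄⟩ : ∃ M : ℕ, 4 * W ^ 2 ≤ M := _root_.exists_nat_ge _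
  refine ⟨K, δ, max (max N₁ (max 4 N₄)) (max N₂ N₃), hK1, hδ0, ?_⟩
  intro N hN Λ A hA hG
  have a1 : N₁ ≤ N := (le_max_left _ _).trans ((le_max_left _ _).trans hN)
  have a2 : 4 ≤ N := (le_max_left _ _).trans ((le_max_right _ _).trans ((le_max_left _ _).trans hN))
  have a5 : (N₄ : ℝ) ≤ N := by
    exact_mod_cast (le_max_right _ _).trans ((le_max_right _ _).trans ((le_max_left _ _).trans hN))
  have a3 : (N₂ : ℝ) ≤ N := by
    exact_mod_cast (le_max_left _ _).trans ((le_max_right _ _).trans hN)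
  have a4 : (N₃ : ℝ) ≤ N := by
    exact_mod_cast (le_max_right _ _).trans ((le_max_right _ _).trans hN)
  have hN4 : (4 : ℝ) ≤ N := by exact_mod_cast a2
  have hNp : (0 : ℝ) < N := by linarith
  have hL0 : 0 ≤ Real.log Λ := Real.log_nonneg hG.one
  have hΛ0 : 0 < Λ := by linarith [hG.one]
  have b1 : 1 ≤ η * N := by
    have := hN₂.trans a3
    rw [div_le_iff₀ hη0] at this
    linarith
  have b2 : x ≤ δ₁ / 2 * N := by
    have := hN₃.trans a4
    rw [div_le_iff₀ (by positivity)] at this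
    linarith
  set r : ℝ := Real.sqrt ((1 + Real.log Λ) / N) with hr
  have hr2 : r ^ 2 = (1 + Real.log Λ) / N := Real.sq_sqrt (by positivity)
  have hr0 : 0 < r := Real.sqrt_pos.2 (by positivity)
  have hrN : 1 ≤ r ^ 2 * N := by
    rw [hr2]
    have : (1 + Real.log Λ) / N * N = 1 + Real.log Λ := by field_simp
    rw [this]; linarith
  set q : ℝ := C * κ * r with hq
  have hq0 : 0 ≤ q := by positivity
  have hq1 : q ≤ 1 / 2 := by
    have h1 : q ^ 2 ≤ (1 / 2) ^ 2 := by
      have e1 : q ^ 2 = C ^ 2 * κ ^ 2 * r ^ 2 := by rw [hq]; ring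
      have e2 : r ^ 2 ≤ 2 * η := by
        rw [hr2, div_le_iff₀ hNp]
        have : Real.log Λ ≤ η * N := hG.log.trans (mul_le_mul_of_nonneg_right hδb hNp.le)
        linarith
      have e3 : C ^ 2 * κ ^ 2 * (2 * η) = (1 / 4) * (C ^ 2 * κ ^ 2 / (C ^ 2 * κ ^ 2 + 1)) := by
        rw [hη]
        field_simp
        ring
      have e4 : C ^ 2 * κ ^ 2 / (C ^ 2 * κ ^ 2 + 1) ≤ 1 := by
        rw [div_le_one (by positivity)]; linarith
      have e5 : C ^ 2 * κ ^ 2 * r ^ 2 ≤ C ^ 2 * κ ^ 2 * (2 * η) := by gcongr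
      rw [e1]
      linarith
    exact le_of_sq_le_sq h1 (by norm_num)
  have hv := vv_nonneg hQ hne A
  have hlN : ∀ l : ℕ, (l : ℝ) * r ≤ W → 2 * l ≤ N := by
    intro l hl
    have h1 : ((l : ℝ) * r) ^ 2 ≤ W ^ 2 := by
      have h2 : 0 ≤ (l : ℝ) * r := by positivity
      exact pow_le_pow_left₀ h2 hl 2
    have h2 : (l : ℝ) ^ 2 ≤ W ^ 2 * N := by
      have h3 : (l : ℝ) ^ 2 * 1 ≤ (l : ℝ) ^ 2 * (r ^ 2 * N) := by gcongr
      have h4 : (l : ℝ) ^ 2 * (r ^ 2 * N) = ((l : ℝ) * r) ^ 2 * N := by ring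
      rw [h4, mul_one] at h3
      exact h3.trans (mul_le_mul_of_nonneg_right h1 hNp.le)
    have h3 : (2 * (l : ℝ)) ^ 2 ≤ (N : ℝ) ^ 2 := by
      have h5 : 4 * W ^ 2 * N ≤ N * N := mul_le_mul_of_nonneg_right (hN₄.trans a5) hNp.le
      nlinarith
    have h4 : 2 * (l : ℝ) ≤ N := le_of_sq_le_sq h3 hNp.le
    exact_mod_cast h4
  have key : ∀ l : ℕ, (l : ℝ) * r ≤ W → vv Q A N ≤ Real.exp (2 * q * l) * vv Q A (N + l) ∧
      vv Q A (N + l) ≤ Real.exp (2 * q * l) * vv Q A N := by
    intro l
    induction l with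
    | zero => intro _; simp
    | succ l ih =>
      intro hl
      have hl' : (l : ℝ) * r ≤ W := by
        push_cast at hl
        nlinarith
      obtain ⟨i1, i2⟩ := ih hl'
      have hl2 := hlN l hl'
      have hvl := hv (N + l)
      have hql : 2 * q * l ≤ x := by
        calc 2 * q * l = 2 * (C * κ) * (l * r) := by rw [hq]; ring
          _ ≤ 2 * (C * κ) * W := by gcongr
          _ ≤ x := hxk
      have hexp : Real.exp (2 * q * l) ≤ K := Real.exp_le_exp.2 hql
      have i1' : vv Q A N ≤ K * vv Q A (N + l) :=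
        i1.trans (mul_le_mul_of_nonneg_right hexp hvl)
      have hNl : (N : ℝ) ≤ ((N + l : ℕ) : ℝ) := by
        push_cast; linarith [(Nat.cast_nonneg l : (0 : ℝ) ≤ l)]
      have h1 := hmain (N + l) (by omega) (K * Λ) (by nlinarith [hG.one]) A hA
        (fun n hn1 hn2 => by
          refine (hG.loc n (by omega) (by omega)).trans ?_
          calc Λ * vv Q A N ≤ Λ * (K * vv Q A (N + l)) :=
                mul_le_mul_of_nonneg_left i1' hΛ0.le
            _ = _ := by ring)
        (fun n hn => by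
          refine (hG.glob n (by omega)).trans ?_
          calc Real.exp (δ * N) * vv Q A N ≤ Real.exp (δ * N) * (K * vv Q A (N + l)) :=
                mul_le_mul_of_nonneg_left i1' (Real.exp_pos _).le
            _ = Real.exp (δ * N + x) * vv Q A (N + l) := by
                rw [Real.exp_add, hK]; ring
            _ ≤ _ := by
                apply mul_le_mul_of_nonneg_right _ hvl
                apply Real.exp_le_exp.2
                calc δ * N + x ≤ δ₁ / 2 * N + δ₁ / 2 * N := by
                      have : δ * N ≤ δ₁ / 2 * N := mul_le_mul_of_nonneg_right hδa hNp.le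
                      linarith
                  _ = δ₁ * N := by ring
                  _ ≤ _ := by gcongr)
        (fun _ => 1) (fun _ _ _ _ _ => rfl) (fun _ => by simp)
      have h2 : ∀ n, zq Q ^ n * ∑ w ∈ KN.K (IA Q A) (2 * n), (1 : ℝ) = vv Q A n := by
        intro n
        unfold vv a
        simp
      rw [D_one, pow_one] at h1
      simp only [h2] at h1
      have h3 : C * Real.sqrt ((1 + Real.log (K * Λ)) / ((N + l : ℕ) : ℝ)) ≤ q := by
        have e1 : Real.log (K * Λ) = x + Real.log Λ := by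
          rw [Real.log_mul (by positivity) hΛ0.ne', hK, Real.log_exp]
        have e2 : (1 + Real.log (K * Λ)) / ((N + l : ℕ) : ℝ) ≤ κ ^ 2 * r ^ 2 := by
          rw [e1, hκ2, hr2]
          calc (1 + (x + Real.log Λ)) / ((N + l : ℕ) : ℝ) ≤ (1 + (x + Real.log Λ)) / N := by
                apply div_le_div_of_nonneg_left _ hNp hNl
                positivity
            _ ≤ ((1 + x) * (1 + Real.log Λ)) / N := by
                apply div_le_div_of_nonneg_right _ hNp.le
                nlinarith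
            _ = _ := by ring
        calc C * Real.sqrt ((1 + Real.log (K * Λ)) / ((N + l : ℕ) : ℝ)) ≤
            C * Real.sqrt (κ ^ 2 * r ^ 2) := by gcongr
          _ = q := by
              rw [← mul_pow, Real.sqrt_sq (by positivity), hq]
              ring
      have h4 : |vv Q A (N + l + 1) - vv Q A (N + l)| ≤ q * vv Q A (N + l) := by
        refine h1.trans ?_
        rw [← mul_assoc]
        exact mul_le_mul_of_nonneg_right h3 hvl
      rw [abs_le] at h4
      have e : N + (l + 1) = N + l + 1 := by ring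
      have e' : Real.exp (2 * q * ((l + 1 : ℕ) : ℝ)) = Real.exp (2 * q * l) * Real.exp (2 * q) := by
        rw [← Real.exp_add]
        congr 1
        push_cast
        ring
      rw [e, e']
      have h5 : 1 + 2 * q ≤ Real.exp (2 * q) := by
        have := Real.add_one_le_exp (2 * q)
        linarith
      have h6 : 1 ≤ (1 + 2 * q) * (1 - q) := by nlinarith
      have hE : 0 < Real.exp (2 * q * l) := Real.exp_pos _
      have hv1 := hv (N + l + 1)
      constructor
      · have h7 : vv Q A (N + l) ≤ Real.exp (2 * q) * vv Q A (N + l + 1) := by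
          calc vv Q A (N + l) ≤ (1 + 2 * q) * (1 - q) * vv Q A (N + l) := by nlinarith
            _ = (1 + 2 * q) * ((1 - q) * vv Q A (N + l)) := by ring
            _ ≤ (1 + 2 * q) * vv Q A (N + l + 1) := by
                apply mul_le_mul_of_nonneg_left _ (by linarith)
                linarith [h4.1]
            _ ≤ _ := mul_le_mul_of_nonneg_right h5 hv1
        calc vv Q A N ≤ Real.exp (2 * q * l) * vv Q A (N + l) := i1
          _ ≤ Real.exp (2 * q * l) * (Real.exp (2 * q) * vv Q A (N + l + 1)) :=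
              mul_le_mul_of_nonneg_left h7 hE.le
          _ = _ := by ring
      · have h7 : vv Q A (N + l + 1) ≤ Real.exp (2 * q) * vv Q A (N + l) := by
          calc vv Q A (N + l + 1) ≤ (1 + 2 * q) * vv Q A (N + l) := by nlinarith [h4.2]
            _ ≤ _ := mul_le_mul_of_nonneg_right h5 hvl
        calc vv Q A (N + l + 1) ≤ Real.exp (2 * q) * vv Q A (N + l) := h7
          _ ≤ Real.exp (2 * q) * (Real.exp (2 * q * l) * vv Q A N) :=
              mul_le_mul_of_nonneg_left i2 (Real.exp_pos _).le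
          _ = _ := by ring
  intro l hl
  obtain ⟨k1, k2⟩ := key l hl
  have hql : 2 * q * l ≤ x := by
    calc 2 * q * l = 2 * (C * κ) * (l * r) := by rw [hq]; ring
      _ ≤ 2 * (C * κ) * W := by gcongr
      _ ≤ x := hxk
  have hexp : Real.exp (2 * q * l) ≤ K := Real.exp_le_exp.2 hql
  exact ⟨hlN l hl, k1.trans (mul_le_mul_of_nonneg_right hexp (hv _)),
    k2.trans (mul_le_mul_of_nonneg_right hexp (hv _))⟩
where
  le_of_sq_le_sq {a b : ℝ} (h : a ^ 2 ≤ b ^ 2) (hb : 0 ≤ b) : a ≤ b := by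
    nlinarith [abs_nonneg a, le_abs_self a, sq_abs a, abs_le_of_sq_le_sq h hb]

/-- Newton's formula with remainder -/
theorem newton (k : ℕ) : ∀ (u : ℕ → ℝ) (n L : ℕ) (M : ℝ), 0 ≤ M → (∀ i ≤ L, |D k u (n + i)| ≤ M) →
    ∀ h ≤ L, |u (n + h) - ∑ j ∈ range k, (h.choose j : ℝ) * D j u n| ≤ (h : ℝ) ^ k * M := by
  induction k with
  | zero =>
    intro u n L M hM hD h hh
    have h1 : |u (n + h)| ≤ M := hD h hh
    simpa using h1
  | succ k ih =>
    intro u n L M hM hD h
    induction h with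
    | zero =>
      intro _
      rw [Finset.sum_range_succ']
      simp only [Nat.choose_zero_succ, Nat.cast_zero, zero_mul, Finset.sum_const_zero, zero_add,
        Nat.choose_zero_right, Nat.cast_one, one_mul, add_zero, pow_succ, mul_zero]
      have : D 0 u n = u n := rfl
      rw [this]
      simp
    | succ h ihh =>
      intro hh
      have h1 := ihh (by omega)
      have h2 := ih (fun i => u (i + 1) - u i) n L M hM (fun i hi => by
        rw [← Pool.Agent.T6.H92.TG.D_succ']
        exact hD i hi) h (by omega)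
      have h3 : u (n + (h + 1)) - ∑ j ∈ range (k + 1), ((h + 1).choose j : ℝ) * D j u n =
          (u (n + h) - ∑ j ∈ range (k + 1), (h.choose j : ℝ) * D j u n) +
          ((u (n + h + 1) - u (n + h)) -
            ∑ j ∈ range k, (h.choose j : ℝ) * D j (fun i => u (i + 1) - u i) n) := by
        rw [Finset.sum_range_succ' (fun j => ((h + 1).choose j : ℝ) * D j u n),
          Finset.sum_range_succ' (fun j => (h.choose j : ℝ) * D j u n)]
        have e1 : ∑ j ∈ range k, ((h + 1).choose (j + 1) : ℝ) * D (j + 1) u n =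
            ∑ j ∈ range k, (h.choose j : ℝ) * D j (fun i => u (i + 1) - u i) n +
            ∑ j ∈ range k, (h.choose (j + 1) : ℝ) * D (j + 1) u n := by
          rw [← Finset.sum_add_distrib]
          refine Finset.sum_congr rfl fun j _ => ?_
          rw [Nat.choose_succ_succ, ← Pool.Agent.T6.H92.TG.D_succ']
          push_cast
          ring
        rw [e1, ← add_assoc n h 1]
        simp only [Nat.choose_zero_right]
        ring
      rw [h3]
      refine (abs_add_le _ _).trans ?_
      calc _ ≤ (h : ℝ) ^ (k + 1) * M + (h : ℝ) ^ k * M := add_le_add h1 h2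
        _ = (h : ℝ) ^ k * ((h : ℝ) + 1) * M := by ring
        _ ≤ ((h : ℝ) + 1) ^ k * ((h : ℝ) + 1) * M := by
            gcongr
            linarith
        _ = _ := by push_cast; ring

end

end Pool.Agent.T6.H6.KS
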