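import Pool.Agent.T6.H6.KS.Law2
import Pool.Agent.T6.H92.TK.Cnt

/-!
# Lattice knots: smoothness of quotients, in terms of the numbers of polygons
-/

set_option autoImplicit false

namespace Pool.Agent.T6.H6.KS

open Finset Filter Topology KN
open Pool.Agent.T6.H92.TG (Tog D StmDif dif D_bound D_mul D_congr)
open Pool.Agent.T6.H92.TK (zq)
open Pool.Agent.T6.H92.TK.ModKCNT (u_eq)
open TH966.KS (yq yq_nonneg)
open scoped Classical

noncomputable section

/-- the sum of `F` over the words with knot type in `A`, divided by the number of words with knot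
type in `B` -/
def qm (Q A B : List Dir → Prop) (F : List Dir → ℝ) (n : ℕ) : ℝ :=
  (∑ w ∈ (K Q (2 * n)).filter A, F w) / (((K Q (2 * n)).filter B).card : ℝ)

/-- quotients of numbers of words -/
def qc (Q A B : List Dir → Prop) (n : ℕ) : ℝ :=
  (((K Q (2 * n)).filter A).card : ℝ) / (((K Q (2 * n)).filter B).card : ℝ)

/-- truncation -/
def clamp (M : ℝ) (x : ℝ) : ℝ := max (-M) (min x M)

theorem clamp_abs {M : ℝ} (hM : 0 ≤ M) (x : ℝ) : |clamp M x| ≤ M := by
  unfold clamp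
  rw [abs_le]
  exact ⟨le_max_left _ _, max_le (by linarith) (min_le_right _ _)⟩

theorem clamp_eq {M x : ℝ} (h : |x| ≤ M) : clamp M x = x := by
  unfold clamp
  rw [abs_le] at h
  rw [min_eq_left h.2, max_eq_right h.1]

theorem qc_nonneg (Q A B : List Dir → Prop) (n : ℕ) : 0 ≤ qc Q A B n := by
  unfold qc
  positivity

/-- **smoothness in long windows**, functions with values in `[-M, M]` -/
theorem lawM {Q : List Dir → Prop} (hQ : KClass Q) (hne : ∃ w, SAP w ∧ Q w) (k : ℕ) (W : ℝ) :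
    ∃ (C δ : ℝ) (N₀ : ℕ), 0 ≤ C ∧ 0 < δ ∧ ∀ N ≥ N₀, ∀ Λ : ℝ, ∀ A B : List Dir → Prop,
      TSet A → TSet B → 0 < vv Q A N → 0 < vv Q B N → GroL Q A δ Λ N → GroL Q B δ Λ N →
      ∀ (F : List Dir → ℝ) (M : ℝ), TFun F →
      (∀ w, SAP w → Q w → A w → w.length ≤ 4 * N → |F w| ≤ M) → 0 ≤ M ∧
        (∀ l : ℕ, (l : ℝ) * Real.sqrt ((1 + Real.log Λ) / N) ≤ W →
          |D k (qm Q A B F) (N + l)| ≤
            C * (Real.sqrt ((1 + Real.log Λ) / N) ^ k * (M * qc Q A B N))) ∧
        ∀ l : ℕ, (l : ℝ) * Real.sqrt ((1 + Real.log Λ) / N) ≤ W →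
          |qm Q A B F (N + l) - ∑ j ∈ range k, (l.choose j : ℝ) * D j (qm Q A B F) N| ≤
            C * (((l : ℝ) * Real.sqrt ((1 + Real.log Λ) / N)) ^ k * (M * qc Q A B N)) := by
  obtain ⟨C, δ, N₁, hC, hδ, hlaw⟩ := lawL2 hQ hne k W
  refine ⟨C, δ, max N₁ (2 * k + 1), hC, hδ, ?_⟩
  intro N hN Λ A B hA hB hpos hposB hG hGB F M hF hFM
  have a1 : N₁ ≤ N := (le_max_left _ _).trans hN
  have a2 : 2 * k + 1 ≤ N := (le_max_right _ _).trans hN
  have hz0 := (zq_pos hQ hne).1
  set r := Real.sqrt ((1 + Real.log Λ) / N) with hr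
  have hr0 : 0 ≤ r := Real.sqrt_nonneg _
  -- a word
  obtain ⟨w₀, hw₀⟩ : (K (IA Q A) (2 * N)).Nonempty := by
    rw [← Finset.card_pos]
    by_contra hcon
    have h1 : (K (IA Q A) (2 * N)).card = 0 := by omega
    unfold vv a at hpos
    rw [h1] at hpos
    simp at hpos
  rw [mem_K] at hw₀
  have hM0 : 0 ≤ M := (abs_nonneg _).trans (hFM w₀ hw₀.2.1 hw₀.2.2.1 hw₀.2.2.2 (by omega))
  have hcp : qc Q A B N = (a (IA Q A) (2 * N) : ℝ) / (a (IA Q B) (2 * N) : ℝ) := by
    unfold qc a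
    rw [K_IA, K_IA]
  have hcm : ∀ n, qm Q A B F n =
      (∑ w ∈ K (IA Q A) (2 * n), F w) / (a (IA Q B) (2 * n) : ℝ) := by
    intro n
    unfold qm a
    rw [K_IA, K_IA]
  have hcpn := qc_nonneg Q A B N
  have hD : ∀ l : ℕ, (l : ℝ) * r ≤ W →
      |D k (qm Q A B F) (N + l)| ≤ C * (r ^ k * (M * qc Q A B N)) := by
    intro l hl
    rcases hM0.eq_or_lt with h0 | h0
    · have h1 := (hlaw N a1 Λ A B hA hB hposB hG hGB (fun _ => 0) (fun _ _ _ _ _ => rfl)
        (fun _ => by simp) l hl).1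
      have h2 : |D k (qm Q A B F) (N + l)| ≤ 2 ^ k * 0 := by
        apply D_bound
        intro i hi1 hi2
        rw [hcm i, Finset.sum_eq_zero, zero_div, abs_zero]
        intro w hw
        rw [mem_K] at hw
        have := hFM w hw.2.1 hw.2.2.1 hw.2.2.2 (by omega)
        rw [← h0] at this
        exact abs_eq_zero.1 (le_antisymm this (abs_nonneg _))
      rw [mul_zero] at h2
      exact h2.trans (by positivity)
    · obtain ⟨h1, h2⟩ := hlaw N a1 Λ A B hA hB hposB hG hGB (fun w => clamp M (F w) / M)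
        (fun w w' h3 h4 h5 => by simp only; rw [hF w w' h3 h4 h5])
        (fun w => by
          rw [abs_div, abs_of_pos h0, div_le_one h0]
          exact clamp_abs hM0 _) l hl
      have h3 : D k (qm Q A B F) (N + l) = D k (fun n => M * ((∑ w ∈ K (IA Q A) (2 * n),
          (clamp M (F w) / M)) / (a (IA Q B) (2 * n) : ℝ))) (N + l) := by
        apply D_congr
        intro i hi1 hi2
        rw [hcm i, ← mul_div_assoc, Finset.mul_sum]
        congr 1
        refine Finset.sum_congr rfl fun w hw => ?_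
        rw [mem_K] at hw
        rw [clamp_eq (hFM w hw.2.1 hw.2.2.1 hw.2.2.2 (by omega))]
        field_simp
      rw [h3, D_mul, abs_mul, abs_of_pos h0, hcp]
      calc M * _ ≤ M * (C * (r ^ k * ((a (IA Q A) (2 * N) : ℝ) / (a (IA Q B) (2 * N) : ℝ)))) :=
            mul_le_mul_of_nonneg_left h2 hM0
        _ = _ := by ring
  refine ⟨hM0, hD, ?_⟩
  intro l hl
  have h1 := newton k (qm Q A B F) N l (C * (r ^ k * (M * qc Q A B N))) (by positivity)
    (fun i hi => hD i (le_trans (by gcongr) hl)) l le_rfl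
  refine h1.trans (le_of_eq ?_)
  rw [mul_pow]
  ring

/-- smoothness at the length `2 n`: order `k`, windows `h r ≤ W` -/
def Smooth (Q : List Dir → Prop) (k : ℕ) (C W r : ℝ) (n : ℕ) (A B : List Dir → Prop) : Prop :=
  ∀ (F : List Dir → ℝ) (M : ℝ), TFun F →
    (∀ w, SAP w → Q w → A w → w.length ≤ 4 * n → |F w| ≤ M) →
    ∀ h : ℕ, (h : ℝ) * r ≤ W →
      |D k (qm Q A B F) (n + h)| ≤ C * r ^ k * (M * qc Q A B n) ∧
      |qm Q A B F (n + h) - ∑ j ∈ range k, (h.choose j : ℝ) * D j (qm Q A B F) n| ≤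
        C * ((h : ℝ) * r) ^ k * (M * qc Q A B n)

/-- the normalized number of polygons of length `2 n` with knot type in `A` -/
def ya (Q A : List Dir → Prop) (n : ℕ) : ℝ := pq (IA Q A) (2 * n) / gr Q ^ (2 * n)

theorem vv_eq (Q A : List Dir → Prop) (hμ : 0 < gr Q) (n : ℕ) (hn : 1 ≤ n) :
    vv Q A n = 4 * n * ya Q A n := by
  have hn0 : (0 : ℝ) < n := by exact_mod_cast hn
  have h1 : gr Q ^ (2 * n) ≠ 0 := (pow_pos hμ _).ne'
  unfold vv ya zq
  rw [GEN.pn_eq, inv_pow, ← pow_mul]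
  field_simp
  ring

theorem vq_zero (Q : List Dir → Prop) : vq Q 0 = 0 := by
  unfold vq a
  have : K Q (2 * 0) = ∅ := by
    rw [Finset.eq_empty_iff_forall_notMem]
    intro w hw
    rw [mem_K] at hw
    have := hw.2.1.1
    omega
  rw [this]
  simp

theorem ya_le {Q : List Dir → Prop} (hμ : 0 < gr Q) (A : List Dir → Prop) (n : ℕ) :
    ya Q A n ≤ yq Q n := by
  unfold ya yq
  apply div_le_div_of_nonneg_right _ (by positivity)
  unfold pq
  apply div_le_div_of_nonneg_right _ (by positivity)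
  have : a (IA Q A) (2 * n) ≤ a Q (2 * n) := Finset.card_le_card (K_IA_sub Q A _)
  exact_mod_cast this

/-- the hypothesis of the general theorem -/
def Hyp (Q A : List Dir → Prop) (δ lam : ℝ) (n : ℕ) : Prop :=
  Real.exp (-(δ * n)) ≤ ya Q A n ∧
    ∀ m : ℕ, n ≤ 2 * m → m ≤ 5 * n → yq Q m ≤ Real.exp lam * ya Q A n

/-- **general classes** -/
theorem smooth_gen {Q : List Dir → Prop} (hQ : KClass Q) (hne : ∃ w, SAP w ∧ Q w) (k : ℕ) (W : ℝ) :
    ∃ (C δ : ℝ) (N₀ : ℕ), 0 ≤ C ∧ 0 < δ ∧ ∀ n ≥ N₀, ∀ (lam : ℝ) (A B : List Dir → Prop), TSet A →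
      TSet B → 1 ≤ lam → lam ≤ δ * n → Hyp Q A δ lam n → Hyp Q B δ lam n →
      Smooth Q k C W (Real.sqrt (lam / n)) n A B := by
  obtain ⟨g1, -, -⟩ := gr_bounds Q hQ hne
  have hμ : 0 < gr Q := by linarith
  obtain ⟨C, δ₁, N₁, hC, hδ₁, hlaw⟩ := lawM hQ hne k (3 * W)
  obtain ⟨Cu, hup⟩ := GEN.upper S_five_proof Q hμ (δ₁ / 640) (by positivity)
  set L : ℝ := Real.log (|Cu| + 1) with hL
  have hL0 : 0 ≤ L := Real.log_nonneg (by linarith [abs_nonneg Cu])
  obtain ⟨N₂, hN₂⟩ : ∃ M : ℕ, (L + 4) / (δ₁ / 8) ≤ M := _root_.exists_nat_ge _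
  refine ⟨C * 3 ^ k, δ₁ / 4, max N₁ (max 1 N₂), by positivity, by positivity, ?_⟩
  intro n hn lam A B hA hB hlam hlamn hyA hyB
  have a1 : N₁ ≤ n := (le_max_left _ _).trans hn
  have a2 : 1 ≤ n := (le_max_left _ _).trans ((le_max_right _ _).trans hn)
  have a3 : (N₂ : ℝ) ≤ n := by exact_mod_cast (le_max_right _ _).trans ((le_max_right _ _).trans hn)
  have hnp : (0 : ℝ) < n := by exact_mod_cast (by omega : 0 < n)
  have b1 : L + 4 ≤ δ₁ / 8 * n := by
    have := hN₂.trans a3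
    rw [div_le_iff₀ (by positivity)] at this
    linarith
  have hδn : 0 ≤ δ₁ * n := by positivity
  have hl5 : Real.log 5 ≤ 3 := by
    rw [Real.log_le_iff_le_exp (by norm_num)]
    have h3 : Real.exp 3 = (Real.exp 1) ^ 3 := by rw [← Real.exp_nat_mul]; norm_num
    have h4 := Real.add_one_le_exp (1 : ℝ)
    have h5 : (2 : ℝ) ≤ Real.exp 1 := by linarith
    rw [h3]
    calc (5 : ℝ) ≤ 2 ^ 3 := by norm_num
      _ ≤ _ := pow_le_pow_left₀ (by norm_num) h5 3
  have hl50 : 0 ≤ Real.log 5 := Real.log_nonneg (by norm_num)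
  have h40 : (40 : ℝ) ≤ Real.exp 4 := by
    have h5 : Real.exp 4 = (Real.exp 1) ^ 4 := by rw [← Real.exp_nat_mul]; norm_num
    have h6 : (2.7 : ℝ) ≤ Real.exp 1 := by
      have := Real.exp_one_gt_d9
      linarith
    rw [h5]
    calc (40 : ℝ) ≤ 2.7 ^ 4 := by norm_num
      _ ≤ _ := pow_le_pow_left₀ (by norm_num) h6 4
  have h3 : Cu ≤ Real.exp L := by
    calc Cu ≤ |Cu| + 1 := by linarith [le_abs_self Cu]
      _ = Real.exp L := (Real.exp_log (by linarith [abs_nonneg Cu])).symm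
  have hΛ0 : 0 < 5 * Real.exp lam := by positivity
  have e1 : Real.log (5 * Real.exp lam) = Real.log 5 + lam := by
    rw [Real.log_mul (by norm_num) (Real.exp_pos _).ne', Real.log_exp]
  have hG : ∀ A : List Dir → Prop, Hyp Q A (δ₁ / 4) lam n → 0 < vv Q A n ∧
      GroL Q A δ₁ (5 * Real.exp lam) n := by
    intro A hy
    obtain ⟨hya, hloc⟩ := hy
    have hya0 : 0 < ya Q A n := (Real.exp_pos _).trans_le hya
    have hv := vv_eq Q A hμ n a2
    refine ⟨by rw [hv]; positivity, ?_, ?_, ?_, ?_⟩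
    · have := Real.one_le_exp (show 0 ≤ lam by linarith)
      linarith
    · rw [e1]
      have h4 : (3 : ℝ) ≤ δ₁ / 8 * n := by linarith
      linarith
    · intro m hm1 hm2
      have hm : 1 ≤ m := by omega
      have h3 : vq Q m = 4 * m * yq Q m := u_eq Q hμ m hm
      rw [h3, hv]
      have hm5 : (m : ℝ) ≤ 5 * n := by exact_mod_cast hm2
      calc 4 * (m : ℝ) * yq Q m ≤ 4 * (5 * n) * (Real.exp lam * ya Q A n) := by
            apply mul_le_mul (by linarith) (hloc m hm1 hm2) (yq_nonneg _ hμ.le _) (by positivity)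
        _ = _ := by ring
    · intro m hm1
      rcases Nat.eq_zero_or_pos m with rfl | hm
      · rw [vq_zero, hv]
        positivity
      · have e3 : vq Q m = 4 * m * yq Q m := u_eq Q hμ m hm
        rw [e3, hv]
        have hm5 : (m : ℝ) ≤ 40 * n := by exact_mod_cast hm1
        have hg : 0 < gr Q ^ (2 * m) := pow_pos hμ _
        have h1 : yq Q m ≤ Cu * (1 + δ₁ / 640) ^ (2 * m) := by
          unfold yq
          rw [div_le_iff₀ hg]
          calc pq Q (2 * m) ≤ a Q (2 * m) := GEN.pn_le_a Q m (by omega)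
            _ ≤ Cu * ((1 + δ₁ / 640) * gr Q) ^ (2 * m) := hup (2 * m)
            _ = _ := by rw [mul_pow]; ring
        have h2 : (1 + δ₁ / 640) ^ (2 * m) ≤ Real.exp (δ₁ / 8 * n) := by
          calc (1 + δ₁ / 640) ^ (2 * m) ≤ (Real.exp (δ₁ / 640)) ^ (2 * m) := by
                apply pow_le_pow_left₀ (by positivity)
                have := Real.add_one_le_exp (δ₁ / 640)
                linarith
            _ = Real.exp (((2 * m : ℕ) : ℝ) * (δ₁ / 640)) := by rw [Real.exp_nat_mul]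
            _ ≤ _ := by
                apply Real.exp_le_exp.2
                push_cast
                nlinarith
        have hp : 0 ≤ (1 + δ₁ / 640) ^ (2 * m) := by positivity
        have h4 : yq Q m ≤ Real.exp (δ₁ / 8 * n + L) := by
          rw [Real.exp_add]
          refine h1.trans ((mul_le_mul_of_nonneg_right h3 hp).trans ?_)
          rw [mul_comm]
          exact mul_le_mul_of_nonneg_right h2 (Real.exp_pos _).le
        have h5 : 40 * Real.exp (δ₁ / 8 * n + L) ≤ Real.exp (δ₁ * n) * ya Q A n := by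
          calc 40 * Real.exp (δ₁ / 8 * n + L) ≤ Real.exp 4 * Real.exp (δ₁ / 8 * n + L) :=
                mul_le_mul_of_nonneg_right h40 (Real.exp_pos _).le
            _ = Real.exp (4 + (δ₁ / 8 * n + L)) := by rw [← Real.exp_add]
            _ ≤ Real.exp (δ₁ * n + -(δ₁ / 4 * n)) := by
                apply Real.exp_le_exp.2
                linarith
            _ = Real.exp (δ₁ * n) * Real.exp (-(δ₁ / 4 * n)) := by rw [Real.exp_add]
            _ ≤ _ := mul_le_mul_of_nonneg_left hya (Real.exp_pos _).le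
        calc 4 * (m : ℝ) * yq Q m ≤ 4 * (40 * n) * Real.exp (δ₁ / 8 * n + L) := by
              apply mul_le_mul (by linarith) h4 (yq_nonneg _ hμ.le _) (by positivity)
          _ = 4 * n * (40 * Real.exp (δ₁ / 8 * n + L)) := by ring
          _ ≤ 4 * n * (Real.exp (δ₁ * n) * ya Q A n) :=
              mul_le_mul_of_nonneg_left h5 (by positivity)
          _ = _ := by ring
  obtain ⟨hvA, hGA⟩ := hG A hyA
  obtain ⟨hvB, hGB⟩ := hG B hyB
  have hr : Real.sqrt ((1 + Real.log (5 * Real.exp lam)) / n) ≤ 3 * Real.sqrt (lam / n) := by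
    have h3 : (1 + Real.log (5 * Real.exp lam)) / n ≤ 3 ^ 2 * (lam / n) := by
      rw [e1, ← mul_div_assoc]
      apply div_le_div_of_nonneg_right _ hnp.le
      linarith
    calc _ ≤ Real.sqrt (3 ^ 2 * (lam / n)) := Real.sqrt_le_sqrt h3
      _ = _ := by rw [Real.sqrt_mul (by norm_num), Real.sqrt_sq (by norm_num)]
  set r := Real.sqrt (lam / n) with hrdef
  set r' := Real.sqrt ((1 + Real.log (5 * Real.exp lam)) / n) with hr'def
  have hr0 : 0 ≤ r := Real.sqrt_nonneg _
  have hr'0 : 0 ≤ r' := Real.sqrt_nonneg _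
  intro F M hF hFM h hh
  obtain ⟨hM0, c1, c2⟩ := hlaw n a1 (5 * Real.exp lam) A B hA hB hvA hvB hGA hGB F M hF hFM
  have hh' : (h : ℝ) * r' ≤ 3 * W := by
    calc (h : ℝ) * r' ≤ h * (3 * r) := mul_le_mul_of_nonneg_left hr (Nat.cast_nonneg h)
      _ = 3 * (h * r) := by ring
      _ ≤ 3 * W := by linarith
  have hcpn := qc_nonneg Q A B n
  have hMq : 0 ≤ M * qc Q A B n := mul_nonneg hM0 hcpn
  constructor
  · refine (c1 h hh').trans ?_
    have h4 : r' ^ k ≤ (3 * r) ^ k := pow_le_pow_left₀ hr'0 hr k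
    calc C * (r' ^ k * (M * qc Q A B n)) ≤ C * ((3 * r) ^ k * (M * qc Q A B n)) :=
          mul_le_mul_of_nonneg_left (mul_le_mul_of_nonneg_right h4 hMq) hC
      _ = _ := by rw [mul_pow]; ring
  · refine (c2 h hh').trans ?_
    have h4 : ((h : ℝ) * r') ^ k ≤ ((h : ℝ) * (3 * r)) ^ k :=
      pow_le_pow_left₀ (by positivity) (mul_le_mul_of_nonneg_left hr (Nat.cast_nonneg h)) k
    calc C * (((h : ℝ) * r') ^ k * (M * qc Q A B n)) ≤
        C * (((h : ℝ) * (3 * r)) ^ k * (M * qc Q A B n)) :=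
          mul_le_mul_of_nonneg_left (mul_le_mul_of_nonneg_right h4 hMq) hC
      _ = _ := by
        have : (h : ℝ) * (3 * r) = 3 * (h * r) := by ring
        rw [this, mul_pow]; ring

end

end Pool.Agent.T6.H6.KS
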