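import Pool.Agent.T6.H6.KS.Sm

/-!
# Lattice knots: smoothness of quotients, classes closed under connected sums, asymptotic form
-/

set_option autoImplicit false

namespace Pool.Agent.T6.H6.KS

open Finset Filter Topology KN
open TH966.KS (yq yq_nonneg)
open scoped Classical

noncomputable section

/-- change of the rate -/
theorem Smooth.scale {Q : List Dir → Prop} {k : ℕ} {C W r r' κ : ℝ} {n : ℕ} {A B : List Dir → Prop}
    (hne : ∃ w, SAP w ∧ Q w ∧ A w ∧ w.length ≤ 4 * n) (hC : 0 ≤ C) (hr' : 0 ≤ r')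
    (hκ : 0 ≤ κ) (h : Smooth Q k C (κ * W) r' n A B) (hr : r' ≤ κ * r) :
    Smooth Q k (C * κ ^ k) W r n A B := by
  intro F M hF hFM l hl
  obtain ⟨w, w1, w2, w3, w4⟩ := hne
  have hM0 : 0 ≤ M := (abs_nonneg _).trans (hFM w w1 w2 w3 w4)
  have hcpn := qc_nonneg Q A B n
  have hMq : 0 ≤ M * qc Q A B n := mul_nonneg hM0 hcpn
  have hl' : (l : ℝ) * r' ≤ κ * W := by
    calc (l : ℝ) * r' ≤ l * (κ * r) := mul_le_mul_of_nonneg_left hr (Nat.cast_nonneg l)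
      _ = κ * (l * r) := by ring
      _ ≤ κ * W := mul_le_mul_of_nonneg_left hl hκ
  obtain ⟨c1, c2⟩ := h F M hF hFM l hl'
  constructor
  · refine c1.trans ?_
    have h4 : r' ^ k ≤ (κ * r) ^ k := pow_le_pow_left₀ hr' hr k
    calc C * r' ^ k * (M * qc Q A B n) ≤ C * (κ * r) ^ k * (M * qc Q A B n) :=
          mul_le_mul_of_nonneg_right (mul_le_mul_of_nonneg_left h4 hC) hMq
      _ = _ := by rw [mul_pow]; ring
  · refine c2.trans ?_
    have h4 : ((l : ℝ) * r') ^ k ≤ ((l : ℝ) * (κ * r)) ^ k :=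
      pow_le_pow_left₀ (by positivity) (mul_le_mul_of_nonneg_left hr (Nat.cast_nonneg l)) k
    calc C * ((l : ℝ) * r') ^ k * (M * qc Q A B n) ≤
        C * ((l : ℝ) * (κ * r)) ^ k * (M * qc Q A B n) :=
          mul_le_mul_of_nonneg_right (mul_le_mul_of_nonneg_left h4 hC) hMq
      _ = _ := by
        have : (l : ℝ) * (κ * r) = κ * (l * r) := by ring
        rw [this, mul_pow]; ring

theorem ya_word {Q A : List Dir → Prop} {n : ℕ} (h : 0 < ya Q A n) :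
    ∃ w, SAP w ∧ Q w ∧ A w ∧ w.length ≤ 4 * n := by
  have h1 : (K (IA Q A) (2 * n)).Nonempty := by
    rw [← Finset.card_pos]
    by_contra hcon
    have h1 : (K (IA Q A) (2 * n)).card = 0 := by omega
    unfold ya pq a at h
    rw [h1] at h
    simp at h
  obtain ⟨w, hw⟩ := h1
  rw [mem_K] at hw
  exact ⟨w, hw.2.1, hw.2.2.1, hw.2.2.2, by omega⟩

/-- the rates -/
theorem rate_le {lM lam : ℝ} {n : ℕ} (hlM : 0 ≤ lM) (hlam : 1 ≤ lam) (hn : (0 : ℝ) < n) :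
    Real.sqrt ((lam + lM) / n) ≤ (1 + lM) * Real.sqrt (lam / n) := by
  have h3 : (lam + lM) / n ≤ (1 + lM) ^ 2 * (lam / n) := by
    rw [← mul_div_assoc]
    apply div_le_div_of_nonneg_right _ hn.le
    have h4 : lam + lM ≤ (1 + lM) * lam := by nlinarith
    have h5 : (1 + lM) ≤ (1 + lM) ^ 2 := by nlinarith
    nlinarith
  calc _ ≤ Real.sqrt ((1 + lM) ^ 2 * (lam / n)) := Real.sqrt_le_sqrt h3
    _ = _ := by rw [Real.sqrt_mul (sq_nonneg _), Real.sqrt_sq (by linarith)]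

/-- **classes closed under connected sums** -/
theorem smooth_csum {Q : List Dir → Prop} (hQ : KClass Q) (hne : ∃ w, SAP w ∧ Q w) (hc : CSum Q)
    (k : ℕ) (W : ℝ) :
    ∃ (C δ : ℝ) (N₀ : ℕ), 0 ≤ C ∧ 0 < δ ∧ ∀ n ≥ N₀, ∀ (lam : ℝ) (A B : List Dir → Prop), TSet A →
      TSet B → 1 ≤ lam → lam ≤ δ * n → Real.exp (-lam) ≤ ya Q A n → Real.exp (-lam) ≤ ya Q B n →
      Smooth Q k C W (Real.sqrt (lam / n)) n A B := by
  obtain ⟨g1, -, -⟩ := gr_bounds Q hQ hne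
  have hμ : 0 < gr Q := by linarith
  have hub := Pool.Agent.R945.KR.ub_csum Q hQ hne hc
  obtain ⟨s, hs⟩ := eventually_atTop.1 hub
  obtain ⟨M₀, hM₀⟩ : ∃ M₀ : ℝ, M₀ = 16 + ∑ m ∈ range s, yq Q m := ⟨_, rfl⟩
  have hM₀16 : 16 ≤ M₀ := by
    have : 0 ≤ ∑ m ∈ range s, yq Q m := Finset.sum_nonneg fun _ _ => yq_nonneg _ hμ.le _
    rw [hM₀]; linarith
  have hM : ∀ m, yq Q m ≤ M₀ := by
    intro m
    rcases lt_or_ge m s with h | h
    · have h1 := Finset.single_le_sum (f := fun m => yq Q m) (fun m _ => yq_nonneg Q hμ.le m)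
        (Finset.mem_range.2 h)
      rw [hM₀]
      linarith
    · linarith [hs m h]
  obtain ⟨lM, hlM⟩ : ∃ lM : ℝ, lM = Real.log M₀ := ⟨_, rfl⟩
  have hlM0 : 0 ≤ lM := by rw [hlM]; exact Real.log_nonneg (by linarith)
  have hMe : Real.exp lM = M₀ := by rw [hlM]; exact Real.exp_log (by linarith)
  obtain ⟨C, δ₁, N₁, hC, hδ₁, hgen⟩ := smooth_gen hQ hne k ((1 + lM) * W)
  obtain ⟨N₂, hN₂⟩ : ∃ M : ℕ, lM / (δ₁ / 2) ≤ M := _root_.exists_nat_ge _
  refine ⟨C * (1 + lM) ^ k, δ₁ / 2, max N₁ (max 1 N₂), by positivity, by positivity, ?_⟩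
  intro n hn lam A B hA hB hlam hlamn hyA hyB
  have a1 : N₁ ≤ n := (le_max_left _ _).trans hn
  have a2 : 1 ≤ n := (le_max_left _ _).trans ((le_max_right _ _).trans hn)
  have a3 : (N₂ : ℝ) ≤ n := by
    exact_mod_cast (le_max_right _ _).trans ((le_max_right _ _).trans hn)
  have hnp : (0 : ℝ) < n := by exact_mod_cast (by omega : 0 < n)
  have b1 : lM ≤ δ₁ / 2 * n := by
    have := hN₂.trans a3
    rw [div_le_iff₀ (by positivity)] at this
    linarith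
  have hyp : ∀ A : List Dir → Prop, Real.exp (-lam) ≤ ya Q A n → Hyp Q A δ₁ (lam + lM) n := by
    intro A hy
    have hy0 : 0 < ya Q A n := (Real.exp_pos _).trans_le hy
    refine ⟨(Real.exp_le_exp.2 (by linarith)).trans hy, fun m _ _ => (hM m).trans ?_⟩
    rw [Real.exp_add, hMe]
    calc M₀ = Real.exp lam * M₀ * Real.exp (-lam) := by
          rw [mul_comm (Real.exp lam), mul_assoc, ← Real.exp_add]
          simp
      _ ≤ _ := mul_le_mul_of_nonneg_left hy (by positivity)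
  have h := hgen n a1 (lam + lM) A B hA hB (by linarith) (by linarith) (hyp A hyA) (hyp B hyB)
  have hw := ya_word ((Real.exp_pos (-lam)).trans_le hyA)
  have hrate := rate_le hlM0 hlam hnp
  have hκ : (0 : ℝ) ≤ 1 + lM := by linarith
  exact Smooth.scale (κ := 1 + lM) hw hC (Real.sqrt_nonneg _) hκ h hrate

theorem poly_le_exp (c b : ℝ) {δ : ℝ} (hδ : 0 < δ) : ∃ N₀ : ℕ, ∀ n ≥ N₀, c * (n : ℝ) ^ b ≤ Real.exp (δ * n) := by
  have h1 := isLittleO_rpow_exp_pos_mul_atTop b hδ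
  have h2 := h1.bound (show (0 : ℝ) < 1 / (|c| + 1) by positivity)
  have h3 := (tendsto_natCast_atTop_atTop (R := ℝ)).eventually h2
  obtain ⟨N₀, hN₀⟩ := eventually_atTop.1 h3
  refine ⟨N₀, fun n hn => ?_⟩
  have h4 := hN₀ n hn
  rw [Real.norm_eq_abs, Real.norm_eq_abs, abs_of_pos (Real.exp_pos _)] at h4
  have h5 : (0 : ℝ) ≤ (n : ℝ) ^ b := by positivity
  rw [abs_of_nonneg h5] at h4
  have h6 : |c| + 1 ≠ 0 := by positivity
  have h7 : (0 : ℝ) ≤ |c| + 1 := by positivity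
  calc c * (n : ℝ) ^ b ≤ (|c| + 1) * (n : ℝ) ^ b := by
        apply mul_le_mul_of_nonneg_right _ h5
        linarith [le_abs_self c]
    _ ≤ (|c| + 1) * (1 / (|c| + 1) * Real.exp (δ * n)) := mul_le_mul_of_nonneg_left h4 h7
    _ = Real.exp (δ * n) := by field_simp

/-- the probability of `A` -/
def pr (Q A : List Dir → Prop) (n : ℕ) : ℝ := (((K Q (2 * n)).filter A).card : ℝ) / (a Q (2 * n) : ℝ)

theorem pr_eq {Q : List Dir → Prop} (hμ : 0 < gr Q) (A : List Dir → Prop) {n : ℕ} (hn : 1 ≤ n)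
    (h : 0 < yq Q n) : ya Q A n = pr Q A n * yq Q n := by
  have hn0 : (0 : ℝ) < n := by exact_mod_cast hn
  have h1 : gr Q ^ (2 * n) ≠ 0 := (pow_pos hμ _).ne'
  have h0 : (a Q (2 * n) : ℝ) ≠ 0 := by
    intro h0
    unfold yq pq at h
    rw [h0] at h
    simp at h
  have e2 : (((K Q (2 * n)).filter A).card : ℝ) = (a (IA Q A) (2 * n) : ℝ) := by
    unfold a
    rw [K_IA]
  unfold ya pr yq pq
  rw [e2]
  field_simp

theorem rpow_ratio {β x y : ℝ} (hx : 0 < x) (hy : 0 < y) (h1 : x ≤ 2 * y) (h2 : y ≤ 5 * x) :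
    y ^ β ≤ 5 ^ |β| * x ^ β := by
  have e1 : y ^ β = (y / x) ^ β * x ^ β := by
    rw [← Real.mul_rpow (by positivity) hx.le]
    congr 1
    field_simp
  rw [e1]
  apply mul_le_mul_of_nonneg_right _ (by positivity)
  have h3 : y / x ≤ 5 := by rw [div_le_iff₀ hx]; linarith
  have h4 : x / y ≤ 5 := by rw [div_le_iff₀ hy]; linarith
  rcases le_or_gt 0 β with h | h
  · rw [abs_of_nonneg h]
    exact Real.rpow_le_rpow (by positivity) h3 h
  · rw [abs_of_neg h]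
    have e2 : (y / x) ^ β = (x / y) ^ (-β) := by
      rw [Real.rpow_neg (by positivity), ← Real.inv_rpow (by positivity), inv_div]
    rw [e2]
    exact Real.rpow_le_rpow (by positivity) h4 (by linarith)

theorem smooth_form {Q : List Dir → Prop} (hQ : KClass Q) (hne : ∃ w, SAP w ∧ Q w) {A₀ α : ℝ}
    (hA₀ : 0 < A₀)
    (hform : Tendsto (fun j : ℕ => pq Q (2 * j) / ((2 * j : ℝ) ^ (α - 3) * gr Q ^ (2 * j))) atTop
      (𝓝 A₀)) (k : ℕ) (W : ℝ) :
    ∃ (C δ : ℝ) (N₀ : ℕ), 0 ≤ C ∧ 0 < δ ∧ ∀ n ≥ N₀, ∀ (lam : ℝ) (A B : List Dir → Prop), TSet A →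
      TSet B → 1 ≤ lam → lam ≤ δ * n → Real.exp (-lam) ≤ pr Q A n → Real.exp (-lam) ≤ pr Q B n →
      Smooth Q k C W (Real.sqrt (lam / n)) n A B := by
  obtain ⟨g1, -, -⟩ := gr_bounds Q hQ hne
  have hμ : 0 < gr Q := by linarith
  obtain ⟨β, hβ⟩ : ∃ β : ℝ, β = α - 3 := ⟨_, rfl⟩
  rw [← hβ] at hform
  have hy : ∀ j : ℕ, pq Q (2 * j) / ((2 * j : ℝ) ^ β * gr Q ^ (2 * j)) =
      yq Q j / (2 * j : ℝ) ^ β := by
    intro j
    unfold yq
    rw [div_div, mul_comm (gr Q ^ (2 * j))]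
  have hev : ∀ᶠ j : ℕ in atTop, A₀ / 2 * (2 * j : ℝ) ^ β ≤ yq Q j ∧
      yq Q j ≤ 2 * A₀ * (2 * j : ℝ) ^ β := by
    have h1 := hform.eventually_lt_const (show A₀ < 2 * A₀ by linarith)
    have h2 := hform.eventually_const_lt (show A₀ / 2 < A₀ by linarith)
    filter_upwards [h1, h2, eventually_ge_atTop 1] with j h3 h4 h5
    rw [hy j] at h3 h4
    have h6 : (0 : ℝ) < j := by exact_mod_cast h5
    have h7 : (0 : ℝ) < (2 * j : ℝ) ^ β := by positivity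
    rw [div_lt_iff₀ h7] at h3
    rw [lt_div_iff₀ h7] at h4
    exact ⟨h4.le, h3.le⟩
  clear hform hy
  obtain ⟨s, hs⟩ := eventually_atTop.1 hev
  clear hev
  obtain ⟨M₁, hM₁⟩ : ∃ M₁ : ℝ, M₁ = 4 * 5 ^ |β| := ⟨_, rfl⟩
  have h5β : (1 : ℝ) ≤ 5 ^ |β| := Real.one_le_rpow (by norm_num) (abs_nonneg _)
  have hM₁1 : 1 ≤ M₁ := by rw [hM₁]; linarith
  obtain ⟨lM, hlM⟩ : ∃ lM : ℝ, lM = Real.log M₁ := ⟨_, rfl⟩
  have hlM0 : 0 ≤ lM := by rw [hlM]; exact Real.log_nonneg hM₁1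
  have hMe : Real.exp lM = M₁ := by rw [hlM]; exact Real.exp_log (by linarith)
  obtain ⟨C, δ₁, N₁, hC, hδ₁, hgen⟩ := smooth_gen hQ hne k ((1 + lM) * W)
  obtain ⟨N₂, hN₂⟩ : ∃ M : ℕ, lM / (δ₁ / 2) ≤ M := _root_.exists_nat_ge _
  obtain ⟨N₃, hN₃⟩ := poly_le_exp (2 / A₀ * 2 ^ |β|) |β| (show 0 < δ₁ / 2 by positivity)
  refine ⟨C * (1 + lM) ^ k, δ₁ / 2, max (max N₁ (2 * s)) (max 1 (max N₂ N₃)), by positivity,
    by positivity, ?_⟩
  intro n hn lam A B hA hB hlam hlamn hyA hyB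
  have a1 : N₁ ≤ n := (le_max_left _ _).trans ((le_max_left _ _).trans hn)
  have a0 : 2 * s ≤ n := (le_max_right _ _).trans ((le_max_left _ _).trans hn)
  have a2 : 1 ≤ n := (le_max_left _ _).trans ((le_max_right _ _).trans hn)
  have a3 : (N₂ : ℝ) ≤ n := by
    exact_mod_cast (le_max_left _ _).trans ((le_max_right _ _).trans ((le_max_right _ _).trans hn))
  have a4 : N₃ ≤ n :=
    (le_max_right _ _).trans ((le_max_right _ _).trans ((le_max_right _ _).trans hn))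
  have hn1 : (1 : ℝ) ≤ n := by exact_mod_cast a2
  have hnp : (0 : ℝ) < n := by linarith
  have b1 : lM ≤ δ₁ / 2 * n := by
    have := hN₂.trans a3
    rw [div_le_iff₀ (by positivity)] at this
    linarith
  obtain ⟨y1, y2⟩ := hs n (by omega)
  have hyn : 0 < yq Q n := lt_of_lt_of_le (by positivity) y1
  have hylow : 1 ≤ Real.exp (δ₁ / 2 * n) * yq Q n := by
    have h3 : (2 * n : ℝ) ^ (-|β|) ≤ (2 * n : ℝ) ^ β :=
      Real.rpow_le_rpow_of_exponent_le (by linarith) (neg_abs_le _)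
    have h4 : (2 * n : ℝ) ^ |β| * (2 * n : ℝ) ^ (-|β|) = 1 := by
      rw [← Real.rpow_add (by positivity)]
      simp
    have h5 : (2 * n : ℝ) ^ |β| = (2 : ℝ) ^ |β| * (n : ℝ) ^ |β| :=
      Real.mul_rpow (by norm_num) hnp.le
    have h6 := hN₃ n a4
    have h7 : 0 ≤ (2 * n : ℝ) ^ |β| := by positivity
    calc (1 : ℝ) = (2 * n : ℝ) ^ |β| * (2 * n : ℝ) ^ (-|β|) := h4.symm
      _ ≤ (2 * n : ℝ) ^ |β| * (2 * n : ℝ) ^ β := mul_le_mul_of_nonneg_left h3 h7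
      _ = (2 / A₀ * ((2 : ℝ) ^ |β| * (n : ℝ) ^ |β|)) * (A₀ / 2 * (2 * n : ℝ) ^ β) := by
          rw [h5]; field_simp
      _ ≤ (2 / A₀ * ((2 : ℝ) ^ |β| * (n : ℝ) ^ |β|)) * yq Q n :=
          mul_le_mul_of_nonneg_left y1 (by positivity)
      _ = (2 / A₀ * 2 ^ |β| * (n : ℝ) ^ |β|) * yq Q n := by ring
      _ ≤ _ := mul_le_mul_of_nonneg_right h6 hyn.le
  have hloc : ∀ m : ℕ, n ≤ 2 * m → m ≤ 5 * n → yq Q m ≤ M₁ * yq Q n := by
    intro m hm1 hm2
    have hms : s ≤ m := by omega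
    have hmp : (0 : ℝ) < m := by
      have : 0 < m := by omega
      exact_mod_cast this
    have hm1' : (n : ℝ) ≤ 2 * m := by exact_mod_cast hm1
    have hm2' : (m : ℝ) ≤ 5 * n := by exact_mod_cast hm2
    have h1 := (hs m hms).2
    have h2 := rpow_ratio (β := β) (x := 2 * (n : ℝ)) (y := 2 * (m : ℝ)) (by positivity)
      (by positivity) (by linarith) (by linarith)
    calc yq Q m ≤ 2 * A₀ * (2 * m : ℝ) ^ β := h1
      _ ≤ 2 * A₀ * (5 ^ |β| * (2 * n : ℝ) ^ β) := mul_le_mul_of_nonneg_left h2 (by positivity)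
      _ = M₁ * (A₀ / 2 * (2 * n : ℝ) ^ β) := by rw [hM₁]; ring
      _ ≤ M₁ * yq Q n := mul_le_mul_of_nonneg_left y1 (by linarith)
  have hyp : ∀ A : List Dir → Prop, Real.exp (-lam) ≤ pr Q A n → Hyp Q A δ₁ (lam + lM) n ∧
      0 < ya Q A n := by
    intro A hP
    have hP0 : 0 < pr Q A n := (Real.exp_pos _).trans_le hP
    have hya := pr_eq hμ A a2 hyn
    refine ⟨⟨?_, fun m hm1 hm2 => (hloc m hm1 hm2).trans ?_⟩, by rw [hya]; positivity⟩
    · rw [hya]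
      have h1 : Real.exp (-(δ₁ / 2 * n)) ≤ yq Q n := by
        calc Real.exp (-(δ₁ / 2 * n)) = Real.exp (-(δ₁ / 2 * n)) * 1 := by ring
          _ ≤ Real.exp (-(δ₁ / 2 * n)) * (Real.exp (δ₁ / 2 * n) * yq Q n) :=
              mul_le_mul_of_nonneg_left hylow (Real.exp_pos _).le
          _ = yq Q n := by rw [← mul_assoc, ← Real.exp_add]; simp
      calc Real.exp (-(δ₁ * n)) = Real.exp (-(δ₁ / 2 * n)) * Real.exp (-(δ₁ / 2 * n)) := by
            rw [← Real.exp_add]; congr 1; ring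
        _ ≤ Real.exp (-lam) * Real.exp (-(δ₁ / 2 * n)) :=
            mul_le_mul_of_nonneg_right (Real.exp_le_exp.2 (by linarith)) (Real.exp_pos _).le
        _ ≤ pr Q A n * yq Q n := mul_le_mul hP h1 (Real.exp_pos _).le hP0.le
    · rw [hya, Real.exp_add, hMe]
      have h1 : 1 ≤ Real.exp lam * pr Q A n := by
        calc (1 : ℝ) = Real.exp lam * Real.exp (-lam) := by rw [← Real.exp_add]; simp
          _ ≤ _ := mul_le_mul_of_nonneg_left hP (Real.exp_pos _).le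
      calc M₁ * yq Q n = M₁ * yq Q n * 1 := by ring
        _ ≤ M₁ * yq Q n * (Real.exp lam * pr Q A n) :=
            mul_le_mul_of_nonneg_left h1 (by positivity)
        _ = _ := by ring
  obtain ⟨hA1, hA2⟩ := hyp A hyA
  obtain ⟨hB1, hB2⟩ := hyp B hyB
  have h := hgen n a1 (lam + lM) A B hA hB (by linarith) (by linarith) hA1 hB1
  have hw := ya_word hA2
  have hrate := rate_le hlM0 hlam hnp
  have hκ : (0 : ℝ) ≤ 1 + lM := by linarith
  exact Smooth.scale (κ := 1 + lM) hw hC (Real.sqrt_nonneg _) hκ h hrate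

end

end Pool.Agent.T6.H6.KS
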