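import Pool.Agent.T6.H6.KS.Core5
import Pool.Agent.T6.H92.TK.Tog3
import Pool.Agent.T6.H92.TK.Sel3
import Pool.Agent.T6.H92.TK.SelG
import Pool.Agent.T6.H92.TK.Uni
import Pool.Agent.T6.H92.TK.Sap
import Pool.Agent.T6.H92.TK.Loc
import Pool.Agent.T6.H92.TK.Defs2
import Pool.Agent.H246KN.GEN

/-!
# Lattice knots: the main estimate for sets of knot types in a class
-/

set_option autoImplicit false

namespace Pool.Agent.T6.H6.KS

open Finset Filter Topology KN
open Pool.Agent.T6.H92.TG (Tog D StmDif dif)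
open Pool.Agent.T6.H92.TK (FL BU UP DN fcell bcell IsF IsB Sep zq tog3 sel3 selG uni sap loc)
open scoped Classical

noncomputable section

/-- `A` is a set of (oriented) knot types -/
def TSet (A : List Dir → Prop) : Prop :=
  ∀ w w', SAP w → SAP w' → Same (vl w) (vl w') → (A w ↔ A w')

/-- `F` is a function of the (oriented) knot type -/
def TFun (F : List Dir → ℝ) : Prop :=
  ∀ w w', SAP w → SAP w' → Same (vl w) (vl w') → F w = F w'

/-- the words of class `Q` with knot type in `A` -/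
def IA (Q A : List Dir → Prop) : List Dir → Prop := fun w => Q w ∧ A w

theorem inv_IA {Q A : List Dir → Prop} (hQ : KClass Q) (hA : TSet A) : KN.Inv (IA Q A) := by
  intro w hw i d hs
  have h1 := c_local w i d hw hs
  have h2 := (S_ins_proof w i d hw hs).1
  have h3 := GEN.inv_of Q hQ w hw i d hs
  have h4 := hA w (ins w i d) hw h2 h1
  unfold IA
  rw [h3, h4]

theorem K_IA (Q A : List Dir → Prop) (n : ℕ) : K (IA Q A) n = (K Q n).filter A := by
  ext w
  rw [mem_K, Finset.mem_filter, mem_K]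
  unfold IA
  tauto

theorem K_IA_sub (Q A : List Dir → Prop) (n : ℕ) : K (IA Q A) n ⊆ K Q n := by
  rw [K_IA]
  exact Finset.filter_subset _ _

/-- numbers of cells -/
theorem perp_card (e : Dir) : ∑ d : Dir, (if perp d e then 1 else 0 : ℕ) = 4 := by
  cases e <;> rfl

theorem fr_le4 (w : List Dir) : fr w ≤ 4 * w.length := by
  unfold fr sites
  have h1 : (range w.length ×ˢ (univ : Finset Dir)).filter (fun q => site w q.1 q.2) ⊆
      (range w.length ×ˢ (univ : Finset Dir)).filter (fun q => perp q.2 (w.getD q.1 .xp)) := by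
    intro q hq
    rw [Finset.mem_filter] at hq ⊢
    exact ⟨hq.1, hq.2.2.1⟩
  refine (Finset.card_le_card h1).trans ?_
  rw [Finset.card_filter, Finset.sum_product]
  have h2 : ∀ i ∈ range w.length, ∑ d : Dir, (if perp ((i, d) : ℕ × Dir).2
      (w.getD ((i, d) : ℕ × Dir).1 .xp) then 1 else 0 : ℕ) = 4 := by
    intro i _
    have := perp_card (w.getD i .xp)
    convert this
  rw [Finset.sum_congr rfl h2, Finset.sum_const, Finset.card_range, smul_eq_mul, mul_comm]

theorem card_FL (R : Finset (Finset Z3)) (w : List Dir) : (FL R w).card ≤ 4 * w.length := by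
  refine le_trans ?_ (fr_le4 w)
  have h : FL R w ⊆ (sites w).image (fun q => fcell w q.1 q.2) := by
    intro c hc
    unfold Pool.Agent.T6.H92.TK.FL at hc
    rw [Finset.mem_filter] at hc
    obtain ⟨q, hq, hqc⟩ := hc.2
    exact Finset.mem_image.2 ⟨q, hq, hqc⟩
  exact (Finset.card_le_card h).trans Finset.card_image_le

theorem card_BU (R : Finset (Finset Z3)) (w : List Dir) : (BU R w).card ≤ w.length := by
  have h0 : bu w ≤ w.length := by
    unfold bu bumps
    refine (Finset.card_filter_le _ _).trans ?_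
    rw [Finset.card_range]
  refine le_trans ?_ h0
  have h : BU R w ⊆ (bumps w).image (fun j => bcell w j) := by
    intro c hc
    unfold Pool.Agent.T6.H92.TK.BU at hc
    split_ifs at hc
    · simp at hc
    · rw [Finset.mem_filter] at hc
      obtain ⟨q, hq, hqc⟩ := hc.2
      exact Finset.mem_image.2 ⟨q, hq, hqc⟩
  exact (Finset.card_le_card h).trans Finset.card_image_le

/-- the normalized number of closed words of class `Q` -/
def vv (Q : List Dir → Prop) (A : List Dir → Prop) (n : ℕ) : ℝ :=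
  zq Q ^ n * (a (IA Q A) (2 * n) : ℝ)

/-- the normalized number of closed words with knot type in `A` -/
def vq (Q : List Dir → Prop) (n : ℕ) : ℝ := zq Q ^ n * (a Q (2 * n) : ℝ)

theorem zq_pos {Q : List Dir → Prop} (hQ : KClass Q) (hne : ∃ w, SAP w ∧ Q w) :
    0 < zq Q ∧ zq Q ≤ 1 := by
  obtain ⟨h1, -, -⟩ := gr_bounds Q hQ hne
  unfold Pool.Agent.T6.H92.TK.zq
  have h2 : 1 ≤ gr Q ^ 2 := by nlinarith
  exact ⟨by positivity, inv_le_one_of_one_le₀ h2⟩

theorem vv_nonneg {Q : List Dir → Prop} (hQ : KClass Q) (hne : ∃ w, SAP w ∧ Q w)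
    (A : List Dir → Prop) (n : ℕ) : 0 ≤ vv Q A n := by
  have := (zq_pos hQ hne).1
  unfold vv
  positivity

theorem vv_le {Q : List Dir → Prop} (hQ : KClass Q) (hne : ∃ w, SAP w ∧ Q w)
    (A : List Dir → Prop) (n : ℕ) : vv Q A n ≤ vq Q n := by
  have h0 := (zq_pos hQ hne).1
  unfold vv vq
  apply mul_le_mul_of_nonneg_left _ (by positivity)
  have : a (IA Q A) (2 * n) ≤ a Q (2 * n) := by
    unfold a
    exact Finset.card_le_card (K_IA_sub Q A _)
  exact_mod_cast this

theorem up_same {w : List Dir} {c : Finset Z3} (hw : SAP w) (hc : IsF w c) :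
    SAP (UP w c) ∧ Same (vl w) (vl (UP w c)) := by
  unfold Pool.Agent.T6.H92.TK.UP
  rw [dif_pos hc]
  have h1 := mem_sites.1 hc.choose_spec.1
  exact ⟨(S_ins_proof w _ _ hw h1).1, c_local w _ _ hw h1⟩

/-- **the main estimate for the words of class `Q` with knot type in `A`** -/
theorem mainA {Q : List Dir → Prop} (hQ : KClass Q) (hne : ∃ w, SAP w ∧ Q w) (k : ℕ) :
    ∃ (C δ : ℝ) (N₀ : ℕ), 0 ≤ C ∧ 0 < δ ∧ ∀ N ≥ N₀, ∀ Λ : ℝ, 1 ≤ Λ →
      ∀ A : List Dir → Prop, TSet A →
      (∀ n : ℕ, N ≤ 2 * n → n ≤ 2 * N → vq Q n ≤ Λ * vv Q A N) →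
      (∀ n ≤ 10 * N, vq Q n ≤ Real.exp (δ * N) * vv Q A N) →
      ∀ F : List Dir → ℝ, TFun F → (∀ w, |F w| ≤ 1) →
      |D k (fun n => zq Q ^ n * ∑ w ∈ K (IA Q A) (2 * n), F w) N| ≤
        C * (Real.sqrt ((1 + Real.log Λ) / N) ^ k * vv Q A N) := by
  obtain ⟨g1, -, -⟩ := gr_bounds Q hQ hne
  have hμ : 0 < gr Q := by linarith
  obtain ⟨hz0, hz1⟩ := zq_pos hQ hne
  obtain ⟨Cs, c, c₁, hCs, hc, hc₁, hsel⟩ := sel3 selG uni k
  obtain ⟨θ, Cp, hθ0, hθ1, hbad⟩ := class_pattern Q hQ hne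
  obtain ⟨m₀, hm₀⟩ := (class_pos Q hQ hne).exists
  have hp₀ : 0 < vq Q m₀ := by
    unfold vq
    have h1 : (0 : ℝ) < a Q (2 * m₀) := by
      by_contra hcon
      have h2 : (a Q (2 * m₀) : ℝ) = 0 := le_antisymm (not_lt.1 hcon) (Nat.cast_nonneg _)
      unfold pq at hm₀
      rw [h2] at hm₀
      simp at hm₀
    positivity
  set p₀ := vq Q m₀ with hp₀def
  set lθ : ℝ := -Real.log θ with hlθ
  have hlθ0 : 0 < lθ := by
    have := Real.log_neg hθ0 hθ1
    rw [hlθ]; linarith
  set c₂ : ℝ := min (c / 2) lθ with hc₂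
  have hc₂0 : 0 < c₂ := lt_min (by positivity) hlθ0
  set δ : ℝ := min (1 / 192) c₂ with hδ
  have hδ0 : 0 < δ := lt_min (by norm_num) hc₂0
  have hδ1 : δ ≤ 1 / 192 := min_le_left _ _
  have hδ2 : δ ≤ c₂ := min_le_right _ _
  have hc₂a : c₂ ≤ c / 2 := min_le_left _ _
  have hc₂b : c₂ ≤ lθ := min_le_right _ _
  obtain ⟨C, N₁, hC, hcore⟩ := core5 dif k (z := zq Q) (c₁ := c₁) (c₂ := c₂)
    (C₁ := Cs + |Cp| / p₀) hz0 hz1 hc₁ hc₂0 (by positivity)
  refine ⟨C, δ, max N₁ (max 3 (max m₀ k)), hC, hδ0, ?_⟩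
  intro N hN Λ hΛ A hA hloc hglob F hF hF1
  have hN1 : N₁ ≤ N := (le_max_left _ _).trans hN
  have hN3 : 3 ≤ N := (le_max_left _ _).trans ((le_max_right _ _).trans hN)
  have hNm : m₀ ≤ N := (le_max_left _ _).trans ((le_max_right _ _).trans ((le_max_right _ _).trans hN))
  have hNk : k ≤ N := (le_max_right _ _).trans ((le_max_right _ _).trans ((le_max_right _ _).trans hN))
  have hNr : (0 : ℝ) ≤ N := Nat.cast_nonneg N
  obtain ⟨R, hR, hfew⟩ := hsel Q N hN3
  have T : Tog (fun n => K (IA Q A) (2 * n)) (FL R) (BU R) UP DN :=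
    tog3 loc uni sap (IA Q A) (inv_IA hQ hA) R hR
  have hinv : Pool.Agent.T6.H92.TG.Inv (fun n => K (IA Q A) (2 * n)) (FL R) UP F := by
    intro n w hw c hcF
    have hw' : w ∈ K (IA Q A) (2 * n) := hw
    rw [mem_K] at hw'
    unfold Pool.Agent.T6.H92.TK.FL at hcF
    rw [Finset.mem_filter] at hcF
    obtain ⟨h1, h2⟩ := up_same hw'.2.1 hcF.2
    exact (hF _ _ hw'.2.1 h1 h2).symm
  have hv0 := vv_nonneg hQ hne A N
  refine hcore N hN1 Λ hΛ _ _ (fun n => K (IA Q A) (2 * n)) (FL R) (BU R) UP DN F T hinv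
    (fun n w _ => hF1 w) ?_ ?_ ?_ ?_
  · intro w hw
    have hw' : w ∈ K (IA Q A) (2 * N) := hw
    rw [mem_K] at hw'
    have h1 := card_FL R w
    have h2 := card_BU R w
    rw [hw'.1] at h1 h2
    exact ⟨by omega, by omega⟩
  · intro n h1 h2
    exact (vv_le hQ hne A n).trans (hloc n h1 h2)
  · intro n hn
    refine (vv_le hQ hne A n).trans ((hglob n hn).trans ?_)
    apply mul_le_mul_of_nonneg_right _ hv0
    apply Real.exp_le_exp.2
    nlinarith
  · intro i hi
    have h1 : (((K (IA Q A) (2 * (N + i))).filter (fun w => ((BU R w).card : ℝ) < c₁ * N)).card : ℝ) ≤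
        (((K Q (2 * (N + i))).filter (fun w => ((BU R w).card : ℝ) < c₁ * N)).card : ℝ) := by
      have := Finset.card_le_card (Finset.filter_subset_filter
        (fun w => ((BU R w).card : ℝ) < c₁ * N) (K_IA_sub Q A (2 * (N + i))))
      exact_mod_cast this
    have h2 := hfew i hi
    have h3 : (((K Q (2 * (N + i))).filter (fun w => 10 ^ 7 * bu w ≤ 2 * (N + i))).card : ℝ) ≤
        bad Q (2 * (N + i)) := by
      unfold bad
      have : (K Q (2 * (N + i))).filter (fun w => 10 ^ 7 * bu w ≤ 2 * (N + i)) ⊆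
          (K Q (2 * (N + i))).filter (fun w => 10 ^ 7 * fr w ≤ 2 * (N + i) ∨
            10 ^ 7 * bu w ≤ 2 * (N + i)) := by
        intro w hw
        rw [Finset.mem_filter] at hw ⊢
        exact ⟨hw.1, Or.inr hw.2⟩
      exact_mod_cast Finset.card_le_card this
    have h4 := h3.trans (hbad (2 * (N + i)))
    have hz : 0 < zq Q ^ (N + i) := by positivity
    have h5 : zq Q ^ (N + i) * (Cp * (θ * gr Q) ^ (2 * (N + i))) ≤ |Cp| * Real.exp (-(2 * lθ * N)) := by
      have e1 : zq Q ^ (N + i) * (Cp * (θ * gr Q) ^ (2 * (N + i))) = Cp * θ ^ (2 * (N + i)) := by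
        unfold Pool.Agent.T6.H92.TK.zq
        rw [mul_pow, inv_pow, ← pow_mul]
        have : gr Q ^ (2 * (N + i)) ≠ 0 := (pow_pos hμ _).ne'
        field_simp
      rw [e1]
      have e2 : θ ^ (2 * (N + i)) ≤ θ ^ (2 * N) :=
        pow_le_pow_of_le_one hθ0.le hθ1.le (by omega)
      have e3 : θ ^ (2 * N) = Real.exp (-(2 * lθ * N)) := by
        have : θ ^ (2 * N) = Real.exp (((2 * N : ℕ) : ℝ) * Real.log θ) := by
          rw [Real.exp_nat_mul, Real.exp_log hθ0]
        rw [this, hlθ]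
        congr 1
        push_cast
        ring
      rw [← e3]
      have e4 : 0 ≤ θ ^ (2 * (N + i)) := by positivity
      calc Cp * θ ^ (2 * (N + i)) ≤ |Cp| * θ ^ (2 * (N + i)) :=
            mul_le_mul_of_nonneg_right (le_abs_self _) e4
        _ ≤ _ := mul_le_mul_of_nonneg_left e2 (abs_nonneg _)
    have h6 : p₀ ≤ Real.exp (δ * N) * vv Q A N := hglob m₀ (by omega)
    have h7 : |Cp| * Real.exp (-(2 * lθ * N)) ≤
        |Cp| / p₀ * Real.exp (-(c₂ * N)) * vv Q A N := by
      have e1 : |Cp| * Real.exp (-(2 * lθ * N)) = |Cp| / p₀ * Real.exp (-(2 * lθ * N)) * p₀ := by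
        field_simp
      rw [e1]
      calc |Cp| / p₀ * Real.exp (-(2 * lθ * N)) * p₀ ≤
          |Cp| / p₀ * Real.exp (-(2 * lθ * N)) * (Real.exp (δ * N) * vv Q A N) := by
            gcongr
        _ = |Cp| / p₀ * Real.exp (-(2 * lθ * N) + δ * N) * vv Q A N := by
            rw [Real.exp_add]; ring
        _ ≤ _ := by
            apply mul_le_mul_of_nonneg_right _ hv0
            apply mul_le_mul_of_nonneg_left _ (by positivity)
            apply Real.exp_le_exp.2
            nlinarith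
    have h8 : zq Q ^ (N + i) * (Cs * Real.exp (-(c * N)) * (a Q (2 * (N + i)) : ℝ)) ≤
        Cs * Real.exp (-(c₂ * N)) * vv Q A N := by
      have e1 : zq Q ^ (N + i) * (Cs * Real.exp (-(c * N)) * (a Q (2 * (N + i)) : ℝ)) =
          Cs * Real.exp (-(c * N)) * vq Q (N + i) := by
        unfold vq; ring
      rw [e1]
      have e2 := hglob (N + i) (by omega)
      calc Cs * Real.exp (-(c * N)) * vq Q (N + i) ≤
          Cs * Real.exp (-(c * N)) * (Real.exp (δ * N) * vv Q A N) := by gcongr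
        _ = Cs * Real.exp (-(c * N) + δ * N) * vv Q A N := by rw [Real.exp_add]; ring
        _ ≤ _ := by
            apply mul_le_mul_of_nonneg_right _ hv0
            apply mul_le_mul_of_nonneg_left _ hCs.le
            apply Real.exp_le_exp.2
            nlinarith
    have h9 : (((K Q (2 * (N + i))).filter (fun w => ((BU R w).card : ℝ) < c₁ * N)).card : ℝ) ≤
        Cp * (θ * gr Q) ^ (2 * (N + i)) + Cs * Real.exp (-(c * N)) * (a Q (2 * (N + i)) : ℝ) := by
      refine h2.trans ?_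
      unfold a
      linarith
    calc zq Q ^ (N + i) * (((K (IA Q A) (2 * (N + i))).filter
          (fun w => ((BU R w).card : ℝ) < c₁ * N)).card : ℝ) ≤
        zq Q ^ (N + i) * (Cp * (θ * gr Q) ^ (2 * (N + i)) +
          Cs * Real.exp (-(c * N)) * (a Q (2 * (N + i)) : ℝ)) :=
          mul_le_mul_of_nonneg_left (h1.trans h9) hz.le
      _ = zq Q ^ (N + i) * (Cp * (θ * gr Q) ^ (2 * (N + i))) +
          zq Q ^ (N + i) * (Cs * Real.exp (-(c * N)) * (a Q (2 * (N + i)) : ℝ)) := by ring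
      _ ≤ |Cp| / p₀ * Real.exp (-(c₂ * N)) * vv Q A N +
          Cs * Real.exp (-(c₂ * N)) * vv Q A N := add_le_add (h5.trans h7) h8
      _ = (Cs + |Cp| / p₀) * Real.exp (-(c₂ * N)) * vv Q A N := by ring

end

end Pool.Agent.T6.H6.KS
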